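import Pool.Agent.W5h46.SC.Glue

/-!
# Approximation by bounded analytic functions at exponential rates
-/

set_option autoImplicit false

open Set Metric Filter Topology InnerProductSpace

open Pool.Agent.W753.CZ (dbar)

namespace Pool.Agent.W5h46.SC

open scoped Manifold in
lemma exists_cutoff {P Q : Set ℂ} (hP : IsClosed P) (hQ : IsClosed Q) (hd : Disjoint Q P) :
    ∃ f : ℂ → ℝ, ContDiff ℝ 1 f ∧ (∀ z ∈ Q, f z = 0) ∧ (∀ z ∈ P, f z = 1) ∧
      ∀ z, f z ∈ Icc (0 : ℝ) 1 := by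
  obtain ⟨f, h0, h1, h2⟩ := exists_contMDiffMap_zero_one_of_isClosed (n := (1 : ℕ∞)) 𝓘(ℝ, ℂ) hQ hP hd
  exact ⟨f, f.contMDiff.contDiff, fun z hz => h0 hz, fun z hz => h1 hz, h2⟩

namespace Admissible

variable {D K : Set ℂ} {ω : ℂ → ℝ} (hA : Admissible D K ω)

include hA

theorem approx (hw : ∀ z ∈ D, ω z ≤ wInf D K z) {β₁ β₂ ε : ℝ} (h1 : 0 < β₁) (h12 : β₁ < β₂)
    (h2 : β₂ < 1) (hε : 0 < ε) :
    ∃ C : ℝ, 0 ≤ C ∧ ∀ (T : ℝ) (V : Set ℂ) (f : ℂ → ℂ) (M : ℝ), 0 ≤ T → IsOpen V →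
      Sub D ω β₂ ⊆ V → DifferentiableOn ℂ f V → 0 ≤ M → (∀ z ∈ Sub D ω β₂, ‖f z‖ ≤ M) →
      ∃ h : ℂ → ℂ, DifferentiableOn ℂ h D ∧ (∀ z ∈ D, ‖h z‖ ≤ C * M * Real.exp (T * (1 - β₁ + ε))) ∧
        ∀ z ∈ K, ‖h z - f z‖ ≤ C * M * Real.exp (-(T * (β₁ - ε))) := by
  -- the cut off function
  set β' := (β₁ + β₂) / 2 with hβ'
  have hP : IsClosed (Sub D ω β₁) := (hA.sub_compact (h12.trans h2)).isClosed
  have hQ : IsClosed ({z ∈ D | ω z < β'}ᶜ) := (hA.lt_open β').isClosed_compl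
  have hd : Disjoint ({z ∈ D | ω z < β'}ᶜ) (Sub D ω β₁) := by
    rw [Set.disjoint_left]
    rintro z hz ⟨hzD, hle⟩
    exact hz ⟨hzD, by rw [hβ']; linarith⟩
  obtain ⟨f₀, hf₀, hf0, hf1, hf01⟩ := exists_cutoff hP hQ hd
  set χ : ℂ → ℂ := fun w => ((f₀ w : ℝ) : ℂ) with hχdef
  have hχ : ContDiff ℝ 1 χ := Complex.ofRealCLM.contDiff.comp hf₀
  have hχn : ∀ w, ‖χ w‖ ≤ 1 := by
    intro w
    rw [hχdef, Complex.norm_real, Real.norm_of_nonneg (hf01 w).1]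
    exact (hf01 w).2
  have hχ1 : ∀ w ∈ Sub D ω β₁, χ w = 1 := fun w hw => by simp [hχdef, hf1 w hw]
  have hsub' : IsCompact (Sub D ω β') := hA.sub_compact (by rw [hβ']; linarith)
  have hts : tsupport χ ⊆ Sub D ω β' := by
    apply closure_minimal _ hsub'.isClosed
    intro w hw
    by_contra hcon
    apply hw
    have : w ∈ {z ∈ D | ω z < β'}ᶜ := fun h => hcon ⟨h.1, h.2.le⟩
    simp [hχdef, hf0 w this]
  have hcomp : HasCompactSupport χ := hsub'.of_isClosed_subset (isClosed_tsupport _) hts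
  have hsub2 : Sub D ω β' ⊆ Sub D ω β₂ := fun z hz => ⟨hz.1, hz.2.trans (by rw [hβ']; linarith)⟩
  set Ξ : Set ℂ := Sub D ω β₂ \ {z ∈ D | ω z < β₁} with hΞdef
  have hΞ : IsCompact Ξ := (hA.sub_compact h2).diff (hA.lt_open β₁)
  have hΞD : Ξ ⊆ D := fun z hz => hz.1.1
  have hdb : ∀ z, z ∉ Ξ → dbar χ z = 0 := by
    intro z hz
    by_cases h3 : z ∈ {z ∈ D | ω z < β₁}
    · exact Pool.Agent.W753.CZ.dbar_of_eqOn_one (hA.lt_open β₁)
        (fun w hw => hχ1 w ⟨hw.1, hw.2.le⟩) h3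
    · apply Pool.Agent.W753.CZ.dbar_of_notMem
      intro h4
      exact hz ⟨hsub2 (hts h4), h3⟩
  have hg : ∀ ζ ∈ Ξ, ζ ∈ Good D K (β₁ - ε) := by
    intro ζ hζ
    apply good_of_lt hζ.1.1
    have h3 : β₁ ≤ ω ζ := by
      by_contra h
      push Not at h
      exact hζ.2 ⟨hζ.1.1, h⟩
    have := hw ζ hζ.1.1
    linarith
  obtain ⟨C, hC, δ, hδ, hglue⟩ := glue (K := K) hA.isOpen hΞ hΞD hχ hcomp hdb
    (φ := fun _ => β₁ - ε) continuousOn_const hg
  refine ⟨1 + C, by linarith, ?_⟩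
  intro T V f M hT hV hVs hf hM hfM
  obtain ⟨h, hh, hest⟩ := hglue T V f (M * Real.exp (-(T * (β₁ - ε)))) hT hV
    (hts.trans (hsub2.trans hVs)) (fun z hz => hVs hz.1) hf (by positivity) (by
      intro ζ hζ
      rw [mul_assoc, ← Real.exp_add, neg_add_cancel, Real.exp_zero, mul_one]
      exact hfM ζ hζ.1)
  refine ⟨h, hh, fun z hz => ?_, fun z hz => ?_⟩
  · have h3 := hest z hz 1 zero_le_one notMem_good_one
    have h4 : ‖χ z * f z‖ ≤ M := by
      by_cases hzs : z ∈ tsupport χ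
      · rw [norm_mul]
        calc ‖χ z‖ * ‖f z‖ ≤ 1 * M := mul_le_mul (hχn z) (hfM z (hsub2 (hts hzs)))
              (norm_nonneg _) zero_le_one
          _ = M := one_mul M
      · rw [image_eq_zero_of_notMem_tsupport hzs, zero_mul, norm_zero]
        exact hM
    have h5 : ‖h z‖ ≤ ‖h z - χ z * f z‖ + ‖χ z * f z‖ := by
      have := norm_add_le (h z - χ z * f z) (χ z * f z)
      rwa [sub_add_cancel] at this
    have h6 : C * (M * Real.exp (-(T * (β₁ - ε)))) * Real.exp (T * (1 - δ)) ≤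
        C * M * Real.exp (T * (1 - β₁ + ε)) := by
      have : Real.exp (-(T * (β₁ - ε))) * Real.exp (T * (1 - δ)) ≤ Real.exp (T * (1 - β₁ + ε)) := by
        rw [← Real.exp_add]
        apply Real.exp_le_exp.2
        nlinarith
      calc C * (M * Real.exp (-(T * (β₁ - ε)))) * Real.exp (T * (1 - δ)) =
            C * M * (Real.exp (-(T * (β₁ - ε))) * Real.exp (T * (1 - δ))) := by ring
        _ ≤ C * M * Real.exp (T * (1 - β₁ + ε)) := by gcongr
    have h7 : (1 : ℝ) ≤ Real.exp (T * (1 - β₁ + ε)) := by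
      apply Real.one_le_exp
      have : 0 ≤ 1 - β₁ + ε := by linarith
      positivity
    have h8 : M ≤ M * Real.exp (T * (1 - β₁ + ε)) := le_mul_of_one_le_right hM h7
    calc ‖h z‖ ≤ C * M * Real.exp (T * (1 - β₁ + ε)) + M := by linarith
      _ ≤ C * M * Real.exp (T * (1 - β₁ + ε)) + M * Real.exp (T * (1 - β₁ + ε)) := by linarith
      _ = (1 + C) * M * Real.exp (T * (1 - β₁ + ε)) := by ring
  · have h3 := hest z (hA.subset hz) 0 le_rfl (notMem_good_zero hz)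
    rw [hχ1 z (hA.K_sub h1.le hz), one_mul] at h3
    have h4 : Real.exp (T * (0 - δ)) ≤ 1 := by
      rw [Real.exp_le_one_iff]
      nlinarith
    calc ‖h z - f z‖ ≤ C * (M * Real.exp (-(T * (β₁ - ε)))) * Real.exp (T * (0 - δ)) := h3
      _ ≤ C * (M * Real.exp (-(T * (β₁ - ε)))) * 1 := by gcongr
      _ ≤ (1 + C) * M * Real.exp (-(T * (β₁ - ε))) := by
        have : 0 ≤ M * Real.exp (-(T * (β₁ - ε))) := by positivity
        nlinarith

end Admissible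

end Pool.Agent.W5h46.SC
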