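import Pool.Agent.W5h46.SC.Ezero

/-!
# A Bernstein–Markov type inequality between the norm of `H₀` and the sup norm on `K`
-/

set_option autoImplicit false

open Set Metric Filter Topology InnerProductSpace

namespace Pool.Agent.W5h46.SC

namespace Admissible

variable {D K : Set ℂ} {ω : ℂ → ℝ} (hA : Admissible D K ω)

include hA

theorem bern {β : ℝ} (hβ0 : 0 < β) (hβ1 : β < 1) {ε : ℝ} (hε0 : 0 < ε) (hε1 : ε ≤ 1) :
    ∃ C : ℝ, 0 < C ∧ ∀ (f : germs K) (V : Set ℂ) (A B : ℝ), IsOpen V → Sub D ω β ⊆ V →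
      DifferentiableOn ℂ (f : ℂ → ℂ) V → A ≤ B → ‖iota hA.compact hA.nonempty f‖ ≤ Real.exp A →
      (∀ z ∈ Sub D ω β, ‖(f : ℂ → ℂ) z‖ ≤ Real.exp B) →
      ∀ z ∈ K, ‖(f : ℂ → ℂ) z‖ ≤ C * Real.exp (A + ε * (B - A)) := by
  -- geometry
  have hU : IsOpen {z ∈ D | ω z < ε / 3 * β} := hA.lt_open _
  have hKU : K ⊆ {z ∈ D | ω z < ε / 3 * β} := fun z hz =>
    ⟨hA.subset hz, by rw [hA.zero z hz]; positivity⟩
  obtain ⟨δ₀, hδ₀, hδ₀U⟩ := hA.compact.exists_thickening_subset_open hU hKU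
  set δ := min δ₀ 1 with hδ
  have hδ0 : 0 < δ := lt_min hδ₀ one_pos
  have hδ1 : δ ≤ 1 := min_le_right _ _
  have hball : ∀ p ∈ K, ball p δ ⊆ {z ∈ D | ω z < ε / 3 * β} := fun p hp =>
    (ball_subset_ball (min_le_left _ _)).trans ((ball_subset_thickening hp δ₀).trans hδ₀U)
  obtain ⟨R, hR⟩ := hA.compact.isBounded.exists_norm_le
  have hR0 : 0 ≤ R := by
    obtain ⟨k, hk⟩ := hA.nonempty
    exact (norm_nonneg _).trans (hR k hk)
  set c₀ : ℝ := (δ / 24) ^ 3 / (2 * (2 + R) ^ 2) with hc₀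
  have hc₀0 : 0 < c₀ := by positivity
  refine ⟨Real.exp |Real.log c₀|, Real.exp_pos _, ?_⟩
  intro f V A B hV hsub hf hAB hι hfB
  have hfc : ContinuousOn (fun z => ‖(f : ℂ → ℂ) z‖) K :=
    (hf.continuousOn.mono ((hA.K_sub hβ0.le).trans hsub)).norm
  obtain ⟨p, hp, hmax⟩ := hA.compact.exists_isMaxOn hA.nonempty hfc
  have hle : ∀ z ∈ K, ‖(f : ℂ → ℂ) z‖ ≤ ‖(f : ℂ → ℂ) p‖ := fun z hz => hmax hz
  intro z hz
  refine (hle z hz).trans ?_
  rcases (norm_nonneg ((f : ℂ → ℂ) p)).eq_or_lt with h0 | hpos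
  · rw [← h0]
    positivity
  set σ := Real.log ‖(f : ℂ → ℂ) p‖ with hσ
  have hes : Real.exp σ = ‖(f : ℂ → ℂ) p‖ := Real.exp_log hpos
  have hσB : σ ≤ B := by
    rw [← Real.exp_le_exp, hes]
    exact hfB p (hA.K_sub hβ0.le hp)
  have h2c := hA.two_constants hβ0 hβ1 hV hsub hf (A := σ) (B := B)
    (fun w hw => by rw [hes]; exact hle w hw) hfB
  set S := Real.exp (σ + (B - σ) * (ε / 3)) with hS
  have hS0 : 0 < S := Real.exp_pos _
  have hbS : ball p δ ⊆ Sub D ω β := by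
    intro w hw
    have h1 := hball p hp hw
    refine ⟨h1.1, h1.2.le.trans ?_⟩
    nlinarith
  have hSb : ∀ w ∈ ball p δ, ‖(f : ℂ → ℂ) w‖ ≤ S := by
    intro w hw
    refine (h2c w (hbS hw)).trans ?_
    apply Real.exp_le_exp.2
    have h1 : ω w / β ≤ ε / 3 := by
      rw [div_le_iff₀ hβ0]
      exact (hball p hp hw).2.le
    have : 0 ≤ B - σ := by linarith
    nlinarith
  have hmaps : MapsTo (f : ℂ → ℂ) (ball p δ) (closedBall ((f : ℂ → ℂ) p) (2 * S)) := by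
    intro w hw
    rw [mem_closedBall, dist_eq_norm]
    have h1 := hSb w hw
    have h2 := hSb p (mem_ball_self hδ0)
    have h3 := norm_sub_le ((f : ℂ → ℂ) w) ((f : ℂ → ℂ) p)
    linarith
  -- the sample point
  set ρ := δ / 6 * Real.exp (-((B - σ) * (ε / 3))) with hρ
  have hρ0 : 0 < ρ := by positivity
  have hρδ : ρ ≤ δ / 6 := by
    rw [hρ]
    have : Real.exp (-((B - σ) * (ε / 3))) ≤ 1 := by
      rw [Real.exp_le_one_iff]
      have : 0 ≤ (B - σ) * (ε / 3) := mul_nonneg (by linarith) (by linarith)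
      linarith
    nlinarith
  obtain ⟨n, hn1, hn2⟩ := exists_nat_pow_near_of_lt_one (x := ρ / 2) (y := (1 / 2 : ℝ))
    (by positivity) (by linarith) (by norm_num) (by norm_num)
  set x := pt hA.nonempty (ixOf (n + 1) p) with hx
  have hxS : x ∈ Sq (ixOf (n + 1) p) := pt_mem_Sq hA.nonempty hp (mem_ixOf _ _)
  have hxp : ‖x - p‖ ≤ 2 * (1 / 2) ^ (n + 1) := Sq_dist hxS (mem_ixOf _ _)
  have hxρ : ‖x - p‖ ≤ ρ := by linarith
  have hxb : x ∈ ball p δ := by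
    rw [mem_ball, dist_eq_norm]
    linarith
  have hfx : ‖(f : ℂ → ℂ) p‖ / 2 ≤ ‖(f : ℂ → ℂ) x‖ := by
    have h1 : dist ((f : ℂ → ℂ) x) ((f : ℂ → ℂ) p) ≤ 2 * S / δ * dist x p :=
      Complex.dist_le_div_mul_dist_of_mapsTo_ball (hf.mono (hbS.trans hsub)) hmaps hxb
    rw [dist_eq_norm, dist_eq_norm] at h1
    have h2 : 2 * S / δ * ‖x - p‖ ≤ ‖(f : ℂ → ℂ) p‖ / 2 := by
      have h3 : S * Real.exp (-((B - σ) * (ε / 3))) = ‖(f : ℂ → ℂ) p‖ := by
        rw [hS, ← Real.exp_add, ← hes]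
        congr 1
        ring
      calc 2 * S / δ * ‖x - p‖ ≤ 2 * S / δ * ρ := by gcongr
        _ = (S * Real.exp (-((B - σ) * (ε / 3)))) / 3 := by
          rw [hρ]
          field_simp
          ring
        _ ≤ ‖(f : ℂ → ℂ) p‖ / 2 := by
          rw [h3]
          linarith
    have h3 : ‖(f : ℂ → ℂ) p‖ ≤ ‖(f : ℂ → ℂ) x‖ + ‖(f : ℂ → ℂ) x - (f : ℂ → ℂ) p‖ := by
      have := norm_sub_le ((f : ℂ → ℂ) x) ((f : ℂ → ℂ) x - (f : ℂ → ℂ) p)
      rwa [sub_sub_cancel] at this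
    linarith
  have hw1 := wt_ixOf (n := n + 1) (hR p hp)
  have hw2 := le_norm_iota0 hA.compact hA.nonempty f (ixOf (n + 1) p)
  rw [← norm_iota, ← hx] at hw2
  have hw3 : (ρ / 4) ^ 3 / (2 + R) ^ 2 * (‖(f : ℂ → ℂ) p‖ / 2) ≤ Real.exp A := by
    refine le_trans ?_ (hw2.trans hι)
    apply mul_le_mul _ hfx (by positivity) (wt_pos _).le
    refine le_trans ?_ hw1
    have : ρ / 4 ≤ (1 / 2) ^ (n + 1) := by
      rw [pow_succ]
      linarith
    gcongr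
  have hw4 : (ρ / 4) ^ 3 / (2 + R) ^ 2 * (‖(f : ℂ → ℂ) p‖ / 2) =
      c₀ * Real.exp (σ - ε * (B - σ)) := by
    have e1 : Real.exp (σ - ε * (B - σ)) = Real.exp (-((B - σ) * (ε / 3))) ^ 3 * ‖(f : ℂ → ℂ) p‖ := by
      rw [← Real.exp_nat_mul, ← hes, ← Real.exp_add]
      congr 1
      push_cast
      ring
    rw [e1, hρ, hc₀]
    field_simp
    ring
  rw [hw4] at hw3
  have hlog : Real.log c₀ + (σ - ε * (B - σ)) ≤ A := by
    rw [← Real.exp_le_exp, Real.exp_add, Real.exp_log hc₀0]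
    exact hw3
  have hL : -Real.log c₀ ≤ |Real.log c₀| := neg_le_abs _
  have hL0 : 0 ≤ |Real.log c₀| := abs_nonneg _
  have hfin : σ ≤ |Real.log c₀| + (A + ε * (B - A)) := by
    -- `σ (1 + ε) ≤ A + ε B + L`
    have h1 : σ * (1 + ε) ≤ A + ε * B + |Real.log c₀| := by nlinarith
    by_contra hcon
    push Not at hcon
    have h2 : (|Real.log c₀| + (A + ε * (B - A))) * (1 + ε) < σ * (1 + ε) := by
      apply mul_lt_mul_of_pos_right hcon
      linarith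
    have h3 : 0 ≤ ε ^ 2 * (B - A) := mul_nonneg (sq_nonneg _) (by linarith)
    nlinarith
  rw [← hes, ← Real.exp_add]
  exact Real.exp_le_exp.2 hfin

end Admissible

end Pool.Agent.W5h46.SC
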