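import Pool.Agent.W5h46.SC.Max

/-!
# The Hilbert space `H₀`: values on a countable set with polynomial weights
-/

set_option autoImplicit false

open Set Metric Filter Topology InnerProductSpace
open scoped ENNReal

namespace Pool.Agent.W5h46.SC

/-- the index set -/
abbrev Ix : Type := ℕ × ℤ × ℤ

/-- the weights -/
noncomputable def wt (i : Ix) : ℝ := (1 / 2) ^ i.1 * ((1 + |(i.2.1 : ℝ)|)⁻¹ * (1 + |(i.2.2 : ℝ)|)⁻¹)

lemma wt_pos (i : Ix) : 0 < wt i := by unfold wt; positivity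

lemma summable_int : Summable (fun a : ℤ => ((1 + |(a : ℝ)|)⁻¹) ^ 2) := by
  have h1 : Summable (fun a : ℤ => 1 / |(a : ℝ) + 1 / 2| ^ (2 : ℝ)) :=
    (Real.summable_one_div_int_add_rpow (1 / 2) 2).2 (by norm_num)
  refine Summable.of_nonneg_of_le (fun a => by positivity) (fun a => ?_) h1
  have h2 : |(a : ℝ) + 1 / 2| ≤ 1 + |(a : ℝ)| := by
    have := abs_add_le (a : ℝ) (1 / 2)
    have h3 : |(1 / 2 : ℝ)| = 1 / 2 := abs_of_pos (by norm_num)
    linarith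
  have h3 : 0 < |(a : ℝ) + 1 / 2| := by
    rw [abs_pos]
    intro h
    have h4 : (2 * a + 1 : ℝ) = 0 := by linarith
    have h5 : (2 * a + 1 : ℤ) = 0 := by exact_mod_cast h4
    omega
  rw [Real.rpow_two, one_div, ← inv_pow]
  gcongr

lemma summable_wt : Summable (fun i : Ix => wt i ^ 2) := by
  have h1 : Summable (fun n : ℕ => ((1 / 2 : ℝ) ^ n) ^ 2) := by
    have : (fun n : ℕ => ((1 / 2 : ℝ) ^ n) ^ 2) = fun n : ℕ => (1 / 4 : ℝ) ^ n := by
      funext n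
      rw [← pow_mul, mul_comm, pow_mul]
      norm_num
    rw [this]
    exact summable_geometric_of_lt_one (by norm_num) (by norm_num)
  have h2 : Summable (fun p : ℤ × ℤ => ((1 + |(p.1 : ℝ)|)⁻¹) ^ 2 * ((1 + |(p.2 : ℝ)|)⁻¹) ^ 2) :=
    summable_int.mul_of_nonneg summable_int (fun _ => by positivity) (fun _ => by positivity)
  have h3 := h1.mul_of_nonneg h2 (fun _ => by positivity) (fun _ => by positivity)
  refine h3.congr (fun i => ?_)
  unfold wt
  ring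

/-- the squares of the grids -/
def Sq (i : Ix) : Set ℂ := {z | ⌊(2 : ℝ) ^ i.1 * z.re⌋ = i.2.1 ∧ ⌊(2 : ℝ) ^ i.1 * z.im⌋ = i.2.2}

lemma Sq_dist {i : Ix} {z w : ℂ} (hz : z ∈ Sq i) (hw : w ∈ Sq i) : ‖z - w‖ ≤ 2 * (1 / 2) ^ i.1 := by
  have key : ∀ x y : ℝ, ⌊(2 : ℝ) ^ i.1 * x⌋ = ⌊(2 : ℝ) ^ i.1 * y⌋ → |x - y| ≤ (1 / 2) ^ i.1 := by
    intro x y h
    have h1 := Int.abs_sub_lt_one_of_floor_eq_floor h
    rw [← mul_sub, abs_mul, abs_of_pos (by positivity : (0 : ℝ) < 2 ^ i.1)] at h1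
    have h2 : (1 / 2 : ℝ) ^ i.1 = 1 / 2 ^ i.1 := by rw [one_div, inv_pow, one_div]
    rw [h2, le_div_iff₀ (by positivity)]
    linarith
  have h1 := key z.re w.re (hz.1.trans hw.1.symm)
  have h2 := key z.im w.im (hz.2.trans hw.2.symm)
  calc ‖z - w‖ ≤ |(z - w).re| + |(z - w).im| := Complex.norm_le_abs_re_add_abs_im _
    _ ≤ (1 / 2) ^ i.1 + (1 / 2) ^ i.1 := by
      rw [Complex.sub_re, Complex.sub_im]
      exact add_le_add h1 h2
    _ = 2 * (1 / 2) ^ i.1 := by ring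

/-- the index of the square of level `n` containing `z` -/
noncomputable def ixOf (n : ℕ) (z : ℂ) : Ix := (n, ⌊(2 : ℝ) ^ n * z.re⌋, ⌊(2 : ℝ) ^ n * z.im⌋)

lemma mem_ixOf (n : ℕ) (z : ℂ) : z ∈ Sq (ixOf n z) := ⟨rfl, rfl⟩

lemma wt_ixOf {n : ℕ} {z : ℂ} {R : ℝ} (hz : ‖z‖ ≤ R) :
    ((1 / 2) ^ n) ^ 3 / (2 + R) ^ 2 ≤ wt (ixOf n z) := by
  have hR : 0 ≤ R := (norm_nonneg _).trans hz
  have key : ∀ x : ℝ, |x| ≤ R → 1 + |((⌊(2 : ℝ) ^ n * x⌋ : ℤ) : ℝ)| ≤ 2 ^ n * (2 + R) := by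
    intro x hx
    have h1 : |((⌊(2 : ℝ) ^ n * x⌋ : ℤ) : ℝ)| ≤ |(2 : ℝ) ^ n * x| + 1 := by
      have h2 := Int.floor_le ((2 : ℝ) ^ n * x)
      have h3 := Int.lt_floor_add_one ((2 : ℝ) ^ n * x)
      rw [abs_le]
      have h4 := neg_abs_le ((2 : ℝ) ^ n * x)
      have h5 := le_abs_self ((2 : ℝ) ^ n * x)
      constructor <;> linarith
    rw [abs_mul, abs_of_pos (by positivity : (0 : ℝ) < 2 ^ n)] at h1
    have h2 : (1 : ℝ) ≤ 2 ^ n := one_le_pow₀ (by norm_num)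
    have h3 : (2 : ℝ) ^ n * |x| ≤ 2 ^ n * R := by gcongr
    nlinarith
  have h1 := key z.re ((Complex.abs_re_le_norm z).trans hz)
  have h2 := key z.im ((Complex.abs_im_le_norm z).trans hz)
  unfold wt ixOf
  simp only
  have e : ((1 / 2 : ℝ) ^ n) ^ 3 / (2 + R) ^ 2 =
      (1 / 2) ^ n * ((2 ^ n * (2 + R))⁻¹ * (2 ^ n * (2 + R))⁻¹) := by
    rw [one_div, inv_pow]
    field_simp
  rw [e]
  gcongr

section space

variable {K : Set ℂ} (hK : IsCompact K) (hne : K.Nonempty)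

open Classical in
/-- the sample points -/
noncomputable def pt (hne : K.Nonempty) (i : Ix) : ℂ :=
  if h : (K ∩ Sq i).Nonempty then h.some else hne.some

lemma pt_mem (i : Ix) : pt hne i ∈ K := by
  unfold pt
  split_ifs with h
  · exact h.some_mem.1
  · exact hne.some_mem

lemma pt_mem_Sq {i : Ix} {z : ℂ} (hz : z ∈ K) (hzi : z ∈ Sq i) : pt hne i ∈ Sq i := by
  have h : (K ∩ Sq i).Nonempty := ⟨z, hz, hzi⟩
  unfold pt
  rw [dif_pos h]
  exact h.some_mem.2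

/-- the constant `W` -/
noncomputable def Wc : ℝ := Real.sqrt (∑' i, wt i ^ 2)

include hK in
lemma exists_bdd (f : germs K) : ∃ M : ℝ, 0 ≤ M ∧ ∀ z ∈ K, ‖(f : ℂ → ℂ) z‖ ≤ M := by
  have hc : ContinuousOn (f : ℂ → ℂ) K := fun z hz => (f.2 z hz).continuousAt.continuousWithinAt
  obtain ⟨M, hM⟩ := hK.exists_bound_of_continuousOn hc
  exact ⟨max M 0, le_max_right _ _, fun z hz => (hM z hz).trans (le_max_left _ _)⟩

lemma term_le {f : ℂ → ℂ} {M : ℝ} (hM : ∀ z ∈ K, ‖f z‖ ≤ M) (i : Ix) :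
    ‖(wt i : ℂ) * f (pt hne i)‖ ^ (2 : ℝ≥0∞).toReal ≤ M ^ 2 * wt i ^ 2 := by
  have h2 : (2 : ℝ≥0∞).toReal = ((2 : ℕ) : ℝ) := by simp
  rw [h2, Real.rpow_natCast, norm_mul, Complex.norm_real, Real.norm_of_nonneg (wt_pos i).le,
    mul_pow, mul_comm]
  have h1 := hM _ (pt_mem hne i)
  gcongr

include hK in
lemma memlp (f : germs K) :
    Memℓp (fun i : Ix => (wt i : ℂ) * (f : ℂ → ℂ) (pt hne i)) 2 := by
  obtain ⟨M, _, hM⟩ := exists_bdd hK f
  apply memℓp_gen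
  exact Summable.of_nonneg_of_le (fun i => by positivity) (fun i => term_le hne hM i)
    (summable_wt.mul_left _)

/-- the map into `ℓ²` -/
noncomputable def iota0 : germs K →ₗ[ℂ] lp (fun _ : Ix => ℂ) 2 where
  toFun f := ⟨fun i => (wt i : ℂ) * (f : ℂ → ℂ) (pt hne i), memlp hK hne f⟩
  map_add' f g := by
    apply Subtype.ext
    funext i
    change (wt i : ℂ) * ((f : ℂ → ℂ) (pt hne i) + (g : ℂ → ℂ) (pt hne i)) = _
    rw [mul_add]
    rfl
  map_smul' c f := by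
    apply Subtype.ext
    funext i
    change (wt i : ℂ) * (c * (f : ℂ → ℂ) (pt hne i)) = c * ((wt i : ℂ) * (f : ℂ → ℂ) (pt hne i))
    ring

lemma iota0_apply (f : germs K) (i : Ix) :
    iota0 hK hne f i = (wt i : ℂ) * (f : ℂ → ℂ) (pt hne i) := rfl

lemma Wc_nonneg : 0 ≤ Wc := Real.sqrt_nonneg _

lemma norm_iota0_le (f : germs K) {M : ℝ} (hM : ∀ z ∈ K, ‖(f : ℂ → ℂ) z‖ ≤ M) :
    ‖iota0 hK hne f‖ ≤ Wc * M := by
  have hM0 : 0 ≤ M := by
    obtain ⟨k, hk⟩ := hne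
    exact (norm_nonneg _).trans (hM k hk)
  have hp : 0 < (2 : ℝ≥0∞).toReal := by simp
  have h1 := lp.norm_rpow_eq_tsum hp (iota0 hK hne f)
  have h2 : (∑' i, ‖iota0 hK hne f i‖ ^ (2 : ℝ≥0∞).toReal) ≤ M ^ 2 * ∑' i, wt i ^ 2 := by
    rw [← tsum_mul_left]
    apply Summable.tsum_le_tsum (fun i => term_le hne hM i)
    · exact Summable.of_nonneg_of_le (fun i => by positivity) (fun i => term_le hne hM i)
        (summable_wt.mul_left _)
    · exact summable_wt.mul_left _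
  have h3 : (2 : ℝ≥0∞).toReal = ((2 : ℕ) : ℝ) := by simp
  rw [h3, Real.rpow_natCast] at h1
  rw [h3] at h2
  rw [← h1] at h2
  have h4 : ‖iota0 hK hne f‖ ^ 2 ≤ (Wc * M) ^ 2 := by
    rw [mul_pow, Wc, Real.sq_sqrt (tsum_nonneg fun i => sq_nonneg _)]
    linarith
  exact le_of_sq_le_sq h4 (mul_nonneg Wc_nonneg hM0)

lemma le_norm_iota0 (f : germs K) (i : Ix) :
    wt i * ‖(f : ℂ → ℂ) (pt hne i)‖ ≤ ‖iota0 hK hne f‖ := by
  have h1 := lp.norm_apply_le_norm (p := 2) (by norm_num) (iota0 hK hne f) i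
  rw [iota0_apply, norm_mul, Complex.norm_real, Real.norm_of_nonneg (wt_pos i).le] at h1
  exact h1

/-- the Hilbert space `H₀` -/
noncomputable def Ez : Submodule ℂ (lp (fun _ : Ix => ℂ) 2) :=
  (LinearMap.range (iota0 hK hne)).topologicalClosure

lemma iota0_mem (f : germs K) : iota0 hK hne f ∈ Ez hK hne :=
  Submodule.le_topologicalClosure _ ⟨f, rfl⟩

/-- the inclusion `𝒪(K) → H₀` -/
noncomputable def iota : germs K →ₗ[ℂ] Ez hK hne :=
  (iota0 hK hne).codRestrict (Ez hK hne) (iota0_mem hK hne)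

lemma norm_iota (f : germs K) : ‖iota hK hne f‖ = ‖iota0 hK hne f‖ := rfl

instance : CompleteSpace (Ez hK hne) :=
  inferInstanceAs (CompleteSpace ((LinearMap.range (iota0 hK hne)).topologicalClosure))

lemma denseRange_iota : DenseRange (iota hK hne) := by
  rw [Metric.denseRange_iff]
  intro x r hr
  have hx : (x : lp (fun _ : Ix => ℂ) 2) ∈ closure ((LinearMap.range (iota0 hK hne) : Set _)) := x.2
  obtain ⟨y, ⟨f, hf⟩, hy⟩ := Metric.mem_closure_iff.1 hx r hr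
  refine ⟨f, ?_⟩
  rw [Subtype.dist_eq]
  change dist (x : lp (fun _ : Ix => ℂ) 2) (iota0 hK hne f) < r
  rw [hf]
  exact hy

end space

namespace Admissible

variable {D K : Set ℂ} {ω : ℂ → ℝ} (hA : Admissible D K ω)

include hA

lemma isH0 : IsH0 K (iota hA.compact hA.nonempty) := by
  refine ⟨fun f => ⟨fun h => ?_, fun h => ?_⟩, fun V hV hKV => ?_⟩
  · have h0 : ∀ i, (f : ℂ → ℂ) (pt hA.nonempty i) = 0 := by
      intro i
      have h1 := le_norm_iota0 hA.compact hA.nonempty f i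
      rw [← norm_iota, h, norm_zero] at h1
      have h2 := wt_pos i
      have h3 : ‖(f : ℂ → ℂ) (pt hA.nonempty i)‖ ≤ 0 := by
        by_contra hcon
        push Not at hcon
        nlinarith
      exact norm_le_zero_iff.1 h3
    -- `f` vanishes on `K`
    have hK0 : ∀ p ∈ K, (f : ℂ → ℂ) p = 0 := by
      intro p hp
      have hc : ContinuousAt (f : ℂ → ℂ) p := (f.2 p hp).continuousAt
      have h1 : Tendsto (fun n : ℕ => pt hA.nonempty (ixOf n p)) atTop (𝓝 p) := by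
        rw [tendsto_iff_norm_sub_tendsto_zero]
        have h2 : Tendsto (fun n : ℕ => 2 * (1 / 2 : ℝ) ^ n) atTop (𝓝 0) := by
          have := (tendsto_pow_atTop_nhds_zero_of_lt_one (r := (1 / 2 : ℝ)) (by norm_num)
            (by norm_num)).const_mul 2
          rwa [mul_zero] at this
        refine squeeze_zero (fun n => norm_nonneg _) (fun n => ?_) h2
        exact Sq_dist (pt_mem_Sq hA.nonempty hp (mem_ixOf n p)) (mem_ixOf n p)
      have h3 := hc.tendsto.comp h1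
      have h4 : (f : ℂ → ℂ) ∘ (fun n : ℕ => pt hA.nonempty (ixOf n p)) = fun _ => 0 := by
        funext n
        exact h0 _
      rw [h4] at h3
      exact (tendsto_nhds_unique h3 tendsto_const_nhds)
    rw [eventually_nhdsSet_iff_forall]
    intro p hp
    rw [← (f.2 p hp).frequently_zero_iff_eventually_zero]
    rw [frequently_nhdsWithin_iff]
    rw [Filter.frequently_iff]
    intro U hU
    obtain ⟨r, hr, hrU⟩ := Metric.mem_nhds_iff.1 hU
    obtain ⟨q, hqK, hqp, hqr⟩ := hA.no_isolated hp hr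
    exact ⟨q, hrU (mem_ball.2 hqr), hK0 q hqK, hqp⟩
  · have h1 : ∀ z ∈ K, ‖(f : ℂ → ℂ) z‖ ≤ 0 := by
      intro z hz
      have := (eventually_nhdsSet_iff_forall.1 h z hz).self_of_nhds
      rw [this, norm_zero]
    have h2 := norm_iota0_le hA.compact hA.nonempty f h1
    rw [mul_zero, ← norm_iota] at h2
    exact norm_le_zero_iff.1 h2
  · exact ⟨K, hKV, hA.compact, Wc, fun f M _ hM => norm_iota0_le hA.compact hA.nonempty f hM⟩

end Admissible

end Pool.Agent.W5h46.SC
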