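import Pool.Agent.W5h46.SC.Defs
import Pool.Agent.W753.CZ.FC
import Pool.Agent.HopfPinch.AnS1

/-!
# The gluing kernel
-/

set_option autoImplicit false

open Set Metric Filter Topology MeasureTheory
open Pool.Agent.W753.CZ (dbar)

namespace Pool.Agent.W5h46.SC

lemma integrableOn_norm_inv (r : ℝ) :
    IntegrableOn (fun w : ℂ => ‖w‖⁻¹) (ball (0 : ℂ) r) := by
  rw [integrableOn_fun_norm_addHaar (volume : Measure ℂ) (f := fun y : ℝ => y⁻¹)]
  have h1 : IntegrableOn (fun _ : ℝ => (1 : ℝ)) (Ioo 0 r) := by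
    simp
  refine h1.congr_fun ?_ measurableSet_Ioo
  intro y hy
  have hy0 : y ≠ 0 := hy.1.ne'
  simp [Complex.finrank_real_complex, hy0]

/-- uniform bound for the difference quotients -/
lemma dslope_bound {D Ξ P : Set ℂ} (hD : IsOpen D) (hΞ : IsCompact Ξ) (hΞD : Ξ ⊆ D)
    (hP : IsCompact P) (hPD : P ⊆ D) {G : ℂ → ℂ} (hG : DifferentiableOn ℂ G D) :
    ∃ B : ℝ, ∀ ζ ∈ Ξ, ∀ z ∈ P, ‖dslope G ζ z‖ ≤ B := by
  obtain ⟨ρ, hρ, hρD⟩ := hΞ.exists_cthickening_subset_open hD hΞD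
  have hL : IsCompact (cthickening ρ Ξ) := hΞ.cthickening
  have hG' : ContinuousOn (deriv G) D := (hG.deriv hD).continuousOn
  obtain ⟨B₁, hB₁⟩ := hL.exists_bound_of_continuousOn (hG'.mono hρD)
  obtain ⟨B₀, hB₀⟩ := (hΞ.union hP).exists_bound_of_continuousOn
    (hG.continuousOn.mono (union_subset hΞD hPD))
  refine ⟨max B₁ (2 * B₀ / ρ), fun ζ hζ z hz => ?_⟩
  by_cases hzζ : z = ζ
  · rw [hzζ, dslope_same]
    exact (hB₁ ζ (self_subset_cthickening Ξ hζ)).trans (le_max_left _ _)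
  rw [dslope_of_ne _ hzζ, slope_def_field, norm_div]
  have hpos : 0 < ‖z - ζ‖ := norm_pos_iff.2 (sub_ne_zero.2 hzζ)
  rw [div_le_iff₀ hpos]
  rcases le_or_gt ‖z - ζ‖ ρ with h | h
  · have hsub : closedBall ζ ρ ⊆ cthickening ρ Ξ := closedBall_subset_cthickening hζ ρ
    have h1 : ‖G z - G ζ‖ ≤ B₁ * ‖z - ζ‖ := by
      apply (convex_closedBall ζ ρ).norm_image_sub_le_of_norm_deriv_le (𝕜 := ℂ) (f := G)
      · intro x hx
        exact (hG x (hρD (hsub hx))).differentiableAt (hD.mem_nhds (hρD (hsub hx)))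
      · intro x hx
        exact hB₁ x (hsub hx)
      · exact mem_closedBall_self hρ.le
      · rw [mem_closedBall, dist_eq_norm]
        exact h
    exact h1.trans (by gcongr; exact le_max_left _ _)
  · have h1 : ‖G z - G ζ‖ ≤ 2 * B₀ := by
      have h2 := hB₀ z (Or.inr hz)
      have h3 := hB₀ ζ (Or.inl hζ)
      have h4 := norm_sub_le (G z) (G ζ)
      linarith
    have hB₀0 : 0 ≤ B₀ := (norm_nonneg _).trans (hB₀ z (Or.inr hz))
    calc ‖G z - G ζ‖ ≤ 2 * B₀ := h1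
      _ = 2 * B₀ / ρ * ρ := by field_simp
      _ ≤ max B₁ (2 * B₀ / ρ) * ‖z - ζ‖ := by
        apply mul_le_mul (le_max_right _ _) h.le hρ.le
        exact le_max_of_le_right (by positivity)

lemma dslope_symm' (G : ℂ → ℂ) (a b : ℂ) : dslope G a b = dslope G b a := by
  by_cases h : a = b
  · rw [h]
  · rw [dslope_of_ne _ (Ne.symm h), dslope_of_ne _ h, slope_comm]

/-- The gluing kernel. -/
theorem kernel {D Ξ : Set ℂ} (hD : IsOpen D) (hΞ : IsCompact Ξ) (hΞD : Ξ ⊆ D) {χ : ℂ → ℂ}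
    (hχ : ContDiff ℝ 1 χ) (hc : HasCompactSupport χ) (h0 : ∀ z, z ∉ Ξ → dbar χ z = 0) :
    ∃ C : ℝ, 0 ≤ C ∧ ∀ (V : Set ℂ) (R : ℂ → ℂ) (n : ℕ) (G : Fin n → ℂ → ℂ) (σ : ℂ → Fin n)
      (δ : Fin n → ℝ), IsOpen V → tsupport χ ⊆ V → Ξ ⊆ V → DifferentiableOn ℂ R V →
      (∀ i, DifferentiableOn ℂ (G i) D) → Measurable σ → (∀ i, 0 ≤ δ i) →
      (∀ ζ ∈ Ξ, G (σ ζ) ζ ≠ 0 ∧ ‖R ζ‖ ≤ δ (σ ζ) * ‖G (σ ζ) ζ‖) →
      ∃ h : ℂ → ℂ, DifferentiableOn ℂ h D ∧
        ∀ z ∈ D, ‖h z - χ z * R z‖ ≤ C * ∑ i, δ i * ‖G i z‖ := by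
  classical
  have hdc : Continuous (dbar χ) := Pool.Agent.W753.CZ.dbar_continuous hχ
  obtain ⟨M, hM⟩ := hΞ.exists_bound_of_continuousOn hdc.continuousOn
  set M' := max M 0 with hM'
  have hMb : ∀ z, ‖dbar χ z‖ ≤ M' := by
    intro z
    by_cases hz : z ∈ Ξ
    · exact (hM z hz).trans (le_max_left _ _)
    · rw [h0 z hz, norm_zero]
      exact le_max_right _ _
  have hM'0 : 0 ≤ M' := le_max_right _ _
  set N : ℂ → ℝ := (ball (0 : ℂ) 1).indicator (fun w => ‖w‖⁻¹) with hN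
  have hNi : Integrable N := (integrable_indicator_iff measurableSet_ball).2 (integrableOn_norm_inv 1)
  have hN0 : ∀ w, 0 ≤ N w := fun w => indicator_nonneg (fun _ _ => by positivity) w
  set I₁ : ℝ := ∫ w, N w with hI₁
  have hI₁0 : 0 ≤ I₁ := integral_nonneg hN0
  set vol : ℝ := volume.real Ξ with hvol
  have hΞm : MeasurableSet Ξ := hΞ.measurableSet
  have hΞf : volume Ξ < ⊤ := hΞ.measure_lt_top
  refine ⟨(1 / Real.pi) * (M' * (I₁ + vol)), by positivity, ?_⟩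
  intro V R n G σ δ hV hsV hΞV hR hG hσ hδ hGσ
  have hπ : (Real.pi : ℂ) ≠ 0 := by exact_mod_cast Real.pi_ne_zero
  -- the kernel
  set Φ : ℂ → ℂ → ℂ := fun ζ z =>
    Ξ.indicator (fun ζ => -(dbar χ ζ * R ζ) * (G (σ ζ) ζ)⁻¹ * dslope (G (σ ζ)) ζ z) ζ with hΦ
  have hmeas : ∀ z ∈ D, AEStronglyMeasurable (fun ζ => Φ ζ z) volume := by
    intro z hz
    have hsum : (fun ζ => Φ ζ z) = fun ζ => ∑ i, (Ξ ∩ σ ⁻¹' {i}).indicator
        (fun ζ => -(dbar χ ζ * R ζ) * (G i ζ)⁻¹ * dslope (G i) z ζ) ζ := by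
      funext ζ
      by_cases hζ : ζ ∈ Ξ
      · simp only [hΦ, indicator_of_mem hζ]
        rw [Finset.sum_eq_single (σ ζ)]
        · rw [indicator_of_mem (show ζ ∈ Ξ ∩ σ ⁻¹' {σ ζ} from ⟨hζ, rfl⟩), dslope_symm']
        · intro i _ hi
          apply indicator_of_notMem
          rintro ⟨_, h⟩
          exact hi h.symm
        · intro h
          exact absurd (Finset.mem_univ _) h
      · simp only [hΦ, indicator_of_notMem hζ]
        symm
        apply Finset.sum_eq_zero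
        intro i _
        apply indicator_of_notMem
        exact fun h => hζ h.1
    rw [hsum]
    refine Finset.aestronglyMeasurable_fun_sum _ (fun i _ => ?_)
    have hm : MeasurableSet (Ξ ∩ σ ⁻¹' {i}) := hΞm.inter (hσ (measurableSet_singleton i))
    rw [aestronglyMeasurable_indicator_iff hm]
    apply ContinuousOn.aestronglyMeasurable _ hm
    have hsub : Ξ ∩ σ ⁻¹' {i} ⊆ Ξ := inter_subset_left
    refine ContinuousOn.mul (ContinuousOn.mul ?_ ?_) ?_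
    · exact (hdc.continuousOn.mul (hR.continuousOn.mono (hsub.trans hΞV))).neg
    · apply ContinuousOn.inv₀ ((hG i).continuousOn.mono (hsub.trans hΞD))
      rintro ζ ⟨hζ, hi⟩
      have := (hGσ ζ hζ).1
      rw [mem_preimage, mem_singleton_iff] at hi
      rwa [hi] at this
    · have h1 : ContinuousOn (dslope (G i) z) D :=
        (continuousOn_dslope (hD.mem_nhds hz)).2 ⟨(hG i).continuousOn,
          (hG i).differentiableAt (hD.mem_nhds hz)⟩
      exact h1.mono (hsub.trans hΞD)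
  -- bound for the factor
  have hδb : ∀ ζ ∈ Ξ, ‖-(dbar χ ζ * R ζ) * (G (σ ζ) ζ)⁻¹‖ ≤ M' * δ (σ ζ) := by
    intro ζ hζ
    obtain ⟨hne, hle⟩ := hGσ ζ hζ
    rw [norm_mul, norm_neg, norm_mul, norm_inv, mul_assoc]
    have hpos : 0 < ‖G (σ ζ) ζ‖ := norm_pos_iff.2 hne
    have h1 : ‖R ζ‖ * ‖G (σ ζ) ζ‖⁻¹ ≤ δ (σ ζ) := by
      rw [← div_eq_mul_inv, div_le_iff₀ hpos]
      exact hle
    exact mul_le_mul (hMb ζ) h1 (by positivity) hM'0
  set h : ℂ → ℂ := fun z => (1 / Real.pi : ℂ) * ∫ ζ, Φ ζ z with hh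
  have hbd : ∀ P : Set ℂ, IsCompact P → P ⊆ D → ∃ B : ℝ, ∀ ζ, ∀ z ∈ P,
      ‖Φ ζ z‖ ≤ Ξ.indicator (fun _ => B) ζ := by
    intro P hP hPD
    have h1 : ∀ i, ∃ B : ℝ, ∀ ζ ∈ Ξ, ∀ z ∈ P, ‖dslope (G i) ζ z‖ ≤ B := fun i =>
      dslope_bound hD hΞ hΞD hP hPD (hG i)
    choose B hB using h1
    refine ⟨∑ i, M' * δ i * |B i|, fun ζ z hz => ?_⟩
    by_cases hζ : ζ ∈ Ξ
    · simp only [hΦ, indicator_of_mem hζ]
      rw [norm_mul]
      have h2 : M' * δ (σ ζ) * |B (σ ζ)| ≤ ∑ i, M' * δ i * |B i| := by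
        apply Finset.single_le_sum (f := fun i => M' * δ i * |B i|) (fun i _ => ?_)
          (Finset.mem_univ _)
        have := hδ i
        positivity
      refine le_trans ?_ h2
      apply mul_le_mul (hδb ζ hζ) ((hB (σ ζ) ζ hζ z hz).trans (le_abs_self _)) (norm_nonneg _)
      have := hδ (σ ζ)
      positivity
    · simp only [hΦ, indicator_of_notMem hζ, norm_zero, le_refl]
  have hindi : ∀ B : ℝ, Integrable (Ξ.indicator (fun _ => B) : ℂ → ℝ) := fun B =>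
    (integrable_indicator_iff hΞm).2 (by simp [hΞf])
  have hdiff : DifferentiableOn ℂ h D := by
    intro z₀ hz₀
    obtain ⟨r, hr, hball⟩ := isOpen_iff.1 hD z₀ hz₀
    have hP : closedBall z₀ (r / 2) ⊆ D := (closedBall_subset_ball (by linarith)).trans hball
    obtain ⟨B, hB⟩ := hbd _ (isCompact_closedBall z₀ (r / 2)) hP
    have hO : ball z₀ (r / 2) ⊆ D := ball_subset_closedBall.trans hP
    have h1 := Pool.Agent.HP.differentiableOn_integral (volume : Measure ℂ) Φ (ball z₀ (r / 2))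
      isOpen_ball (fun x hx => hmeas x (hO hx)) (by
        intro ζ
        by_cases hζ : ζ ∈ Ξ
        · simp only [hΦ, indicator_of_mem hζ]
          apply DifferentiableOn.const_mul
          have := (Complex.differentiableOn_dslope (hD.mem_nhds (hΞD hζ))).2 (hG (σ ζ))
          exact this.mono hO
        · simp only [hΦ, indicator_of_notMem hζ]
          exact differentiableOn_const _) (Ξ.indicator fun _ => B) (hindi B)
        (fun ζ z hz => hB ζ z (ball_subset_closedBall hz))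
    have h2 := (h1.const_mul (1 / Real.pi : ℂ)).differentiableAt (ball_mem_nhds z₀ (by positivity))
    exact h2.differentiableWithinAt
  refine ⟨h, hdiff, fun z hz => ?_⟩
  -- Cauchy–Pompeiu
  have hcp := Pool.Agent.W753.CZ.pompeiu (fun w => χ w * R w)
    (Pool.Agent.W753.CZ.contDiff_mul hV hχ hsV hR) hc.mul_right z
  simp_rw [Pool.Agent.W753.CZ.dbar_mul_on hV hχ hsV hR] at hcp
  obtain ⟨B, hB⟩ := hbd {z} isCompact_singleton (singleton_subset_iff.2 hz)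
  have hi2 : Integrable (fun ζ => Φ ζ z) :=
    (hindi B).mono' (hmeas z hz) (Eventually.of_forall fun ζ => hB ζ z rfl)
  have hNz : Integrable (fun ζ => N (z - ζ)) := hNi.comp_sub_left z
  have hNI : ∫ ζ, N (z - ζ) = I₁ := integral_sub_left_eq_self N volume z
  have hinv : ∀ ζ ∈ Ξ, ‖z - ζ‖⁻¹ ≤ N (z - ζ) + Ξ.indicator (fun _ => 1) ζ := by
    intro ζ hζ
    rw [indicator_of_mem hζ]
    by_cases hb : z - ζ ∈ ball (0 : ℂ) 1
    · simp only [hN, indicator_of_mem hb]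
      linarith
    · have h1 : 1 ≤ ‖z - ζ‖ := by
        rw [mem_ball_zero_iff, not_lt] at hb
        exact hb
      have h2 : ‖z - ζ‖⁻¹ ≤ 1 := inv_le_one_of_one_le₀ h1
      have := hN0 (z - ζ)
      linarith
  have hRb : ∃ B₁ : ℝ, 0 ≤ B₁ ∧ ∀ ζ ∈ Ξ, ‖R ζ‖ ≤ B₁ := by
    obtain ⟨B₁, hB₁⟩ := hΞ.exists_bound_of_continuousOn (hR.continuousOn.mono hΞV)
    exact ⟨max B₁ 0, le_max_right _ _, fun ζ hζ => (hB₁ ζ hζ).trans (le_max_left _ _)⟩
  obtain ⟨B₁, hB₁0, hB₁⟩ := hRb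
  have hi1 : Integrable (fun ζ => dbar χ ζ * R ζ / (z - ζ)) := by
    have hcont : Continuous (fun ζ => dbar χ ζ * R ζ) :=
      Pool.Agent.W753.CZ.cont_of_on hV hΞ.isClosed hΞV (hdc.continuousOn.mul hR.continuousOn)
        (fun w hw => by rw [h0 w hw, zero_mul])
    have hm1 : AEStronglyMeasurable (fun ζ => dbar χ ζ * R ζ / (z - ζ)) volume := by
      apply Measurable.aestronglyMeasurable
      exact hcont.measurable.div (measurable_const.sub measurable_id)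
    refine ((hNz.add (hindi 1)).const_mul (M' * B₁)).mono' hm1 (Eventually.of_forall fun ζ => ?_)
    by_cases hζ : ζ ∈ Ξ
    · rw [norm_div, norm_mul, div_eq_mul_inv]
      have h1 := hinv ζ hζ
      calc ‖dbar χ ζ‖ * ‖R ζ‖ * ‖z - ζ‖⁻¹ ≤ M' * B₁ * (N (z - ζ) + Ξ.indicator (fun _ => 1) ζ) := by
            apply mul_le_mul _ h1 (by positivity) (by positivity)
            exact mul_le_mul (hMb ζ) (hB₁ ζ hζ) (norm_nonneg _) hM'0
        _ = _ := rfl
    · rw [h0 ζ hζ, zero_mul, zero_div, norm_zero]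
      have h1 := hN0 (z - ζ)
      have h2 : 0 ≤ Ξ.indicator (fun _ => (1 : ℝ)) ζ := indicator_nonneg (fun _ _ => zero_le_one) ζ
      change 0 ≤ M' * B₁ * (N (z - ζ) + Ξ.indicator (fun _ => (1 : ℝ)) ζ)
      positivity
  have hkey : h z - χ z * R z = (1 / Real.pi : ℂ) * ∫ ζ, (Φ ζ z - dbar χ ζ * R ζ / (z - ζ)) := by
    rw [integral_sub hi2 hi1, hcp, hh]
    field_simp
  set S : ℝ := ∑ i, δ i * ‖G i z‖ with hS
  have hS0 : 0 ≤ S := Finset.sum_nonneg fun i _ => mul_nonneg (hδ i) (norm_nonneg _)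
  have hptw : ∀ᵐ ζ, ‖Φ ζ z - dbar χ ζ * R ζ / (z - ζ)‖ ≤
      M' * S * (N (z - ζ) + Ξ.indicator (fun _ => 1) ζ) := by
    have hne : ∀ᵐ ζ : ℂ, ζ ≠ z := by
      have : volume ({z} : Set ℂ) = 0 := by simp
      exact compl_mem_ae_iff.mpr this
    filter_upwards [hne] with ζ hζz
    by_cases hζ : ζ ∈ Ξ
    · obtain ⟨hne', hle⟩ := hGσ ζ hζ
      have hzζ : z ≠ ζ := Ne.symm hζz
      have hsub : z - ζ ≠ 0 := sub_ne_zero.2 hzζ
      have e1 : Φ ζ z - dbar χ ζ * R ζ / (z - ζ) =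
          (-(dbar χ ζ * R ζ) * (G (σ ζ) ζ)⁻¹) * G (σ ζ) z * (z - ζ)⁻¹ := by
        simp only [hΦ, indicator_of_mem hζ]
        rw [dslope_of_ne _ hzζ, slope_def_field]
        field_simp
        ring
      rw [e1, norm_mul, norm_mul, norm_inv]
      have h1 := hinv ζ hζ
      have h2 : ‖-(dbar χ ζ * R ζ) * (G (σ ζ) ζ)⁻¹‖ * ‖G (σ ζ) z‖ ≤ M' * S := by
        calc ‖-(dbar χ ζ * R ζ) * (G (σ ζ) ζ)⁻¹‖ * ‖G (σ ζ) z‖
            ≤ M' * δ (σ ζ) * ‖G (σ ζ) z‖ := by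
              gcongr
              exact hδb ζ hζ
          _ = M' * (δ (σ ζ) * ‖G (σ ζ) z‖) := by ring
          _ ≤ M' * S := by
            gcongr
            exact Finset.single_le_sum (f := fun i => δ i * ‖G i z‖)
              (fun i _ => mul_nonneg (hδ i) (norm_nonneg _)) (Finset.mem_univ _)
      exact mul_le_mul h2 h1 (by positivity) (by positivity)
    · simp only [hΦ, indicator_of_notMem hζ, h0 ζ hζ, zero_mul, zero_div, sub_zero, norm_zero]
      have h1 := hN0 (z - ζ)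
      positivity
  have hint : ∫ ζ, (M' * S * (N (z - ζ) + Ξ.indicator (fun _ => 1) ζ)) = M' * S * (I₁ + vol) := by
    rw [integral_const_mul, integral_add hNz (hindi 1), hNI, integral_indicator hΞm]
    simp [hvol]
  have hfin : ‖∫ ζ, (Φ ζ z - dbar χ ζ * R ζ / (z - ζ))‖ ≤ M' * S * (I₁ + vol) := by
    rw [← hint]
    exact norm_integral_le_of_norm_le ((hNz.add (hindi 1)).const_mul _) hptw
  rw [hkey, norm_mul]
  have hpi : ‖(1 / Real.pi : ℂ)‖ = 1 / Real.pi := by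
    rw [norm_div, norm_one, Complex.norm_real, Real.norm_of_nonneg Real.pi_pos.le]
  rw [hpi]
  calc 1 / Real.pi * ‖∫ ζ, (Φ ζ z - dbar χ ζ * R ζ / (z - ζ))‖
      ≤ 1 / Real.pi * (M' * S * (I₁ + vol)) := by gcongr
    _ = 1 / Real.pi * (M' * (I₁ + vol)) * S := by ring

end Pool.Agent.W5h46.SC
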