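import Pool.Agent.W5h46.SC.Hull
import Pool.Agent.W5h46.SC.Kern

/-!
# Gluing and the Perron type argument
-/

set_option autoImplicit false

open Set Metric Filter Topology InnerProductSpace
open Pool.Agent.W753.CZ (dbar)

namespace Pool.Agent.W5h46.SC

lemma exists_sel {m : ℕ} (N : Fin (m + 1) → Set ℂ) (hN : ∀ i, MeasurableSet (N i)) :
    ∃ σ : ℂ → Fin (m + 1), Measurable σ ∧ ∀ x i, x ∈ N i → x ∈ N (σ x) := by
  classical
  have h : ∀ t : Finset (Fin (m + 1)), ∃ σ : ℂ → Fin (m + 1), Measurable σ ∧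
      ∀ x, ∀ i ∈ t, x ∈ N i → x ∈ N (σ x) := by
    intro t
    induction t using Finset.induction_on with
    | empty => exact ⟨fun _ => 0, measurable_const, fun _ _ h => by simp at h⟩
    | insert a t _ ih =>
      obtain ⟨σ, hσ, h⟩ := ih
      refine ⟨fun x => if x ∈ N a then a else σ x, Measurable.ite (hN a) measurable_const hσ, ?_⟩
      intro x i hi hx
      by_cases ha : x ∈ N a
      · simp [ha]
      · simp only [ha, if_false]
        rcases Finset.mem_insert.1 hi with h1 | h1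
        · exact absurd (h1 ▸ hx) ha
        · exact h x i h1 hx
  obtain ⟨σ, hσ, h⟩ := h Finset.univ
  exact ⟨σ, hσ, fun x i hx => h x i (Finset.mem_univ i) hx⟩

/-- finitely many functions reach the level `φ` on a compact set -/
lemma cover {D K Ξ : Set ℂ} (hD : IsOpen D) (hΞ : IsCompact Ξ) {φ : ℂ → ℝ}
    (hφ : ContinuousOn φ Ξ) (hg : ∀ ζ ∈ Ξ, ζ ∈ Good D K (φ ζ)) :
    ∃ (m : ℕ) (G : Fin (m + 1) → ℂ → ℂ) (n : Fin (m + 1) → ℝ) (σ : ℂ → Fin (m + 1)) (δ : ℝ),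
      0 < δ ∧ Measurable σ ∧ (∀ i, 0 < n i ∧ DifferentiableOn ℂ (G i) D ∧ (∀ w ∈ K, ‖G i w‖ ≤ 1) ∧
        ∀ w ∈ D, ‖G i w‖ ≤ Real.exp (n i)) ∧
      ∀ ζ ∈ Ξ, Real.exp (n (σ ζ) * (φ ζ + δ)) ≤ ‖G (σ ζ) ζ‖ := by
  classical
  -- local data
  have hloc : ∀ ζ ∈ Ξ, ∃ (G : ℂ → ℂ) (n δ : ℝ) (N : Set ℂ), IsOpen N ∧ ζ ∈ N ∧ 0 < δ ∧
      (0 < n ∧ DifferentiableOn ℂ G D ∧ (∀ w ∈ K, ‖G w‖ ≤ 1) ∧ ∀ w ∈ D, ‖G w‖ ≤ Real.exp n) ∧
      ∀ w ∈ Ξ ∩ N, Real.exp (n * (φ w + δ)) ≤ ‖G w‖ := by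
    intro ζ hζ
    obtain ⟨hζD, G, n, hn, h1, h2, h3, hlt⟩ := hg ζ hζ
    have hcont : Continuous (fun δ : ℝ => Real.exp (n * (φ ζ + δ))) := by fun_prop
    have h4 : ∀ᶠ δ in 𝓝 (0 : ℝ), Real.exp (n * (φ ζ + δ)) < ‖G ζ‖ := by
      apply hcont.continuousAt.eventually (gt_mem_nhds _)
      simpa using hlt
    obtain ⟨ε, hε, hεlt⟩ := Metric.eventually_nhds_iff.1 h4
    have h5 : Real.exp (n * (φ ζ + ε / 2)) < ‖G ζ‖ := by
      apply hεlt
      rw [Real.dist_eq, sub_zero, abs_of_pos (by positivity)]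
      linarith
    have hGc : ContinuousWithinAt (fun w => ‖G w‖) Ξ ζ :=
      ((h1.continuousOn.continuousAt (hD.mem_nhds hζD)).norm).continuousWithinAt
    have hφc : ContinuousWithinAt (fun w => Real.exp (n * (φ w + ε / 2))) Ξ ζ := by
      have := hφ ζ hζ
      exact Real.continuous_exp.continuousAt.comp_continuousWithinAt
        (continuousWithinAt_const.mul (this.add continuousWithinAt_const))
    have h6 : ∀ᶠ w in 𝓝[Ξ] ζ, Real.exp (n * (φ w + ε / 2)) < ‖G w‖ := hφc.eventually_lt hGc h5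
    obtain ⟨N, hN, hζN, hsub⟩ := mem_nhdsWithin.1 h6
    exact ⟨G, n, ε / 2, N, hN, hζN, by positivity, ⟨hn, h1, h2, h3⟩,
      fun w hw => le_of_lt (hsub ⟨hw.2, hw.1⟩)⟩
  choose! G n δ N hN hζN hδ hP hGN using hloc
  obtain ⟨t, hcov⟩ := hΞ.elim_nhds_subcover' (fun ζ _ => N ζ) (fun ζ hζ => (hN ζ hζ).mem_nhds (hζN ζ hζ))
  -- index by `Fin (m + 1)`
  let s : Finset Ξ := t
  let m := s.card
  let e : Fin m ≃ s := s.equivFin.symm
  let G' : Fin (m + 1) → ℂ → ℂ := Fin.cons (fun _ => 1) (fun i => G (e i : Ξ))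
  let n' : Fin (m + 1) → ℝ := Fin.cons 1 (fun i => n (e i : Ξ))
  let δ' : Fin (m + 1) → ℝ := Fin.cons 1 (fun i => δ (e i : Ξ))
  let N' : Fin (m + 1) → Set ℂ := Fin.cons ∅ (fun i => N (e i : Ξ))
  have hN' : ∀ i, MeasurableSet (N' i) := by
    intro i
    refine Fin.cases ?_ (fun i => ?_) i
    · exact MeasurableSet.empty
    · exact (hN _ (e i : Ξ).2).measurableSet
  have hδ' : ∀ i, 0 < δ' i := by
    intro i
    refine Fin.cases ?_ (fun i => ?_) i
    · exact one_pos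
    · exact hδ _ (e i : Ξ).2
  obtain ⟨σ, hσ, hsel⟩ := exists_sel N' hN'
  obtain ⟨i₀, hi₀⟩ := Finite.exists_min δ'
  refine ⟨m, G', n', σ, δ' i₀, hδ' i₀, hσ, ?_, ?_⟩
  · intro i
    refine Fin.cases ?_ (fun i => ?_) i
    · refine ⟨one_pos, differentiableOn_const _, fun _ _ => by simp [G'], fun _ _ => ?_⟩
      simp only [G', n', Fin.cons_zero, norm_one]
      exact Real.one_le_exp zero_le_one
    · exact hP _ (e i : Ξ).2
  · intro ζ hζ
    obtain ⟨x, hx⟩ := mem_iUnion.1 (hcov hζ)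
    obtain ⟨hxt, hζx⟩ := mem_iUnion.1 hx
    have h1 : ζ ∈ N' (Fin.succ (e.symm ⟨x, hxt⟩)) := by
      simp only [N', Fin.cons_succ, Equiv.apply_symm_apply]
      exact hζx
    have h2 := hsel ζ _ h1
    have h3 : ∀ i, ζ ∈ N' i → Real.exp (n' i * (φ ζ + δ' i)) ≤ ‖G' i ζ‖ ∧ 0 < n' i := by
      intro i
      refine Fin.cases ?_ (fun i => ?_) i
      · intro h
        exact absurd h (notMem_empty ζ)
      · intro h
        exact ⟨hGN _ (e i : Ξ).2 ζ ⟨hζ, h⟩, (hP _ (e i : Ξ).2).1⟩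
    obtain ⟨h4, h5⟩ := h3 _ h2
    refine le_trans ?_ h4
    apply Real.exp_le_exp.2
    have := hi₀ (σ ζ)
    nlinarith

/-- the gluing theorem -/
theorem glue {D K Ξ : Set ℂ} (hD : IsOpen D) (hΞ : IsCompact Ξ) (hΞD : Ξ ⊆ D) {χ : ℂ → ℂ}
    (hχ : ContDiff ℝ 1 χ) (hc : HasCompactSupport χ) (h0 : ∀ z, z ∉ Ξ → dbar χ z = 0)
    {φ : ℂ → ℝ} (hφ : ContinuousOn φ Ξ) (hg : ∀ ζ ∈ Ξ, ζ ∈ Good D K (φ ζ)) :
    ∃ C : ℝ, 0 ≤ C ∧ ∃ δ : ℝ, 0 < δ ∧ ∀ (T : ℝ) (V : Set ℂ) (R : ℂ → ℂ) (ρ : ℝ), 0 ≤ T → IsOpen V →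
      tsupport χ ⊆ V → Ξ ⊆ V → DifferentiableOn ℂ R V → 0 ≤ ρ →
      (∀ ζ ∈ Ξ, ‖R ζ‖ ≤ ρ * Real.exp (T * φ ζ)) →
      ∃ h : ℂ → ℂ, DifferentiableOn ℂ h D ∧ ∀ z ∈ D, ∀ a : ℝ, 0 ≤ a → z ∉ Good D K a →
        ‖h z - χ z * R z‖ ≤ C * ρ * Real.exp (T * (a - δ)) := by
  obtain ⟨C, hC, hker⟩ := kernel hD hΞ hΞD hχ hc h0
  obtain ⟨m, G, n, σ, δ, hδ, hσ, hP, hGσ⟩ := cover hD hΞ hφ hg
  refine ⟨C * ∑ i, Real.exp (n i), by positivity, δ, hδ, ?_⟩
  intro T V R ρ hT hV hsV hΞV hR hρ hRb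
  have hpow := fun i => pow_props (K := K) (hP i).1 (hP i).2.1 (hP i).2.2.1 (hP i).2.2.2 hT
  obtain ⟨h, hh, hest⟩ := hker V R (m + 1) (fun i w => G i w ^ ⌊T / n i⌋₊) σ
    (fun i => ρ * Real.exp (n i - T * δ)) hV hsV hΞV hR (fun i => (hpow i).1) hσ
    (fun i => by positivity) (by
      intro ζ hζ
      have h1 := hGσ ζ hζ
      have h2 : φ ζ + δ ≤ 1 := by
        have h3 := h1.trans ((hP (σ ζ)).2.2.2 ζ (hΞD hζ))
        rw [Real.exp_le_exp] at h3
        have := (hP (σ ζ)).1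
        nlinarith
      have h4 := (hpow (σ ζ)).2.2.2.2 ζ (φ ζ + δ) h2 h1
      refine ⟨?_, ?_⟩
      · rw [← norm_pos_iff]
        exact (Real.exp_pos _).trans_le h4
      · calc ‖R ζ‖ ≤ ρ * Real.exp (T * φ ζ) := hRb ζ hζ
          _ = ρ * Real.exp (n (σ ζ) - T * δ) * Real.exp (T * (φ ζ + δ) - n (σ ζ)) := by
            rw [mul_assoc, ← Real.exp_add]
            congr 2
            ring
          _ ≤ ρ * Real.exp (n (σ ζ) - T * δ) * ‖G (σ ζ) ζ ^ ⌊T / n (σ ζ)⌋₊‖ := by gcongr)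
  refine ⟨h, hh, fun z hz a ha hza => (hest z hz).trans ?_⟩
  have h1 : ∀ i, ‖G i z ^ ⌊T / n i⌋₊‖ ≤ Real.exp (T * a) := by
    intro i
    apply (hpow i).2.2.2.1 z a ha
    by_contra hcon
    push Not at hcon
    exact hza ⟨hz, G i, n i, (hP i).1, (hP i).2.1, (hP i).2.2.1, (hP i).2.2.2, hcon⟩
  calc C * ∑ i, ρ * Real.exp (n i - T * δ) * ‖G i z ^ ⌊T / n i⌋₊‖
      ≤ C * ∑ i, ρ * Real.exp (n i - T * δ) * Real.exp (T * a) := by
        gcongr with i
        exact h1 i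
    _ = C * ∑ i, Real.exp (n i) * (ρ * Real.exp (T * (a - δ))) := by
      congr 1
      apply Finset.sum_congr rfl
      intro i _
      have : Real.exp (n i - T * δ) * Real.exp (T * a) = Real.exp (n i) * Real.exp (T * (a - δ)) := by
        rw [← Real.exp_add, ← Real.exp_add]
        congr 1
        ring
      rw [mul_assoc, this]
      ring
    _ = C * (∑ i, Real.exp (n i)) * ρ * Real.exp (T * (a - δ)) := by
      rw [← Finset.sum_mul]
      ring

lemma notMem_good_one {D K : Set ℂ} {z : ℂ} : z ∉ Good D K 1 := fun h => lt_irrefl _ (good_lt_one h)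

lemma notMem_good_zero {D K : Set ℂ} {z : ℂ} (hz : z ∈ K) : z ∉ Good D K 0 := by
  rintro ⟨_, G, n, _, _, h2, _, hlt⟩
  have := h2 z hz
  rw [mul_zero, Real.exp_zero] at hlt
  linarith

/-- superharmonicity of the envelope -/
theorem glue_ball {D K : Set ℂ} (hD : IsOpen D) (hKD : K ⊆ D) {c : ℂ} {ρ ρ' : ℝ} (hρ : 0 < ρ) (hρρ' : ρ < ρ')
    (hball : ball c ρ' ⊆ D \ K) {F : ℂ → ℂ} (hF : DifferentiableOn ℂ F (ball c ρ'))
    (hφ : ∀ ζ ∈ sphere c ρ, ζ ∈ Good D K (F ζ).re) {η : ℝ} (hη : 0 < η)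
    (hFη : ∀ ζ ∈ closedBall c ρ, (F ζ).re ≤ 1 - η) : (F c).re ≤ wInf D K c := by
  by_contra hcon
  push Not at hcon
  obtain ⟨a, ha1, ha2⟩ := exists_between hcon
  have hcb : c ∈ ball c ρ' := mem_ball_self (hρ.trans hρρ')
  have hcD : c ∈ D := (hball hcb).1
  have ha0 : 0 ≤ a := (wInf_nonneg hcD).trans ha1.le
  have hca : c ∉ Good D K a := fun h => by
    have := le_wInf h
    linarith
  have hsub' : closedBall c ρ ⊆ ball c ρ' := closedBall_subset_ball hρρ'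
  -- the open set where the level is reached
  set U : Set ℂ := {ζ ∈ ball c ρ' | ζ ∈ Good D K (F ζ).re} with hU
  have hUo : IsOpen U := by
    rw [isOpen_iff_mem_nhds]
    rintro ζ ⟨hζb, hζD, G, n, hn, h1, h2, h3, hlt⟩
    have hc1 : ContinuousAt (fun w => ‖G w‖) ζ :=
      (h1.continuousOn.continuousAt (hD.mem_nhds hζD)).norm
    have hc2 : ContinuousAt (fun w => Real.exp (n * (F w).re)) ζ := by
      have := hF.continuousOn.continuousAt (isOpen_ball.mem_nhds hζb)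
      fun_prop
    filter_upwards [hc2.eventually_lt hc1 hlt, hD.mem_nhds hζD, isOpen_ball.mem_nhds hζb] with w hw hwD hwb
    exact ⟨hwb, hwD, G, n, hn, h1, h2, h3, hw⟩
  obtain ⟨d, hd0, hdρ, hd⟩ : ∃ d, 0 ≤ d ∧ d < ρ ∧ ∀ z ∈ closedBall c ρ \ U, dist z c ≤ d := by
    have hE : IsCompact (closedBall c ρ \ U) := (isCompact_closedBall c ρ).diff hUo
    by_cases hne : (closedBall c ρ \ U).Nonempty
    · obtain ⟨w, hw, hmax⟩ := hE.exists_isMaxOn hne (f := fun z => dist z c) (by fun_prop)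
      refine ⟨dist w c, dist_nonneg, ?_, fun z hz => hmax hz⟩
      have h1 : dist w c ≤ ρ := mem_closedBall.1 hw.1
      rcases h1.lt_or_eq with h | h
      · exact h
      · exact absurd ⟨hsub' hw.1, hφ w (mem_sphere.2 h)⟩ hw.2
    · refine ⟨0, le_rfl, hρ, fun z hz => absurd ⟨z, hz⟩ hne⟩
  set ρ₁ := (d + ρ) / 2 with hρ₁
  have hρ₁0 : 0 < ρ₁ := by rw [hρ₁]; linarith
  have hρ₁ρ : ρ₁ < ρ := by rw [hρ₁]; linarith
  have hdρ₁ : d < ρ₁ := by rw [hρ₁]; linarith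
  let b : ContDiffBump c := ⟨ρ₁, ρ, hρ₁0, hρ₁ρ⟩
  set χ : ℂ → ℂ := fun w => ((b w : ℝ) : ℂ) with hχdef
  have hχ : ContDiff ℝ 1 χ := by
    have : ContDiff ℝ 1 (fun w : ℂ => b w) := b.contDiff
    exact Complex.ofRealCLM.contDiff.comp this
  have hχ1 : ∀ w ∈ closedBall c ρ₁, χ w = 1 := by
    intro w hw
    have : b w = 1 := b.one_of_mem_closedBall hw
    simp [hχdef, this]
  have hχ0 : ∀ w, w ∉ ball c ρ → χ w = 0 := by
    intro w hw
    have : b w = 0 := b.zero_of_le_dist (not_lt.1 hw)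
    simp [hχdef, this]
  have hχn : ∀ w, ‖χ w‖ ≤ 1 := by
    intro w
    rw [hχdef, Complex.norm_real, Real.norm_of_nonneg b.nonneg]
    exact b.le_one
  have hts : tsupport χ ⊆ closedBall c ρ := by
    apply closure_minimal _ isClosed_closedBall
    intro w hw
    by_contra hcon
    exact hw (hχ0 w (fun h => hcon (ball_subset_closedBall h)))
  have hcomp : HasCompactSupport χ :=
    (isCompact_closedBall c ρ).of_isClosed_subset (isClosed_tsupport _) hts
  set Ξ : Set ℂ := closedBall c ρ \ ball c ρ₁ with hΞdef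
  have hΞ : IsCompact Ξ := (isCompact_closedBall c ρ).diff isOpen_ball
  have hΞU : Ξ ⊆ U := by
    intro z hz
    by_contra hzU
    have h1 := hd z ⟨hz.1, hzU⟩
    exact hz.2 (mem_ball.2 (by linarith))
  have hΞD : Ξ ⊆ D := fun z hz => (hball (hsub' hz.1)).1
  have hdb : ∀ z, z ∉ Ξ → dbar χ z = 0 := by
    intro z hz
    by_cases h1 : z ∈ ball c ρ₁
    · exact Pool.Agent.W753.CZ.dbar_of_eqOn_one isOpen_ball
        (fun w hw => hχ1 w (ball_subset_closedBall hw)) h1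
    · apply Pool.Agent.W753.CZ.dbar_of_notMem
      intro h2
      exact hz ⟨hts h2, h1⟩
  have hφc : ContinuousOn (fun z => (F z).re) Ξ :=
    Complex.continuous_re.comp_continuousOn (hF.continuousOn.mono (fun z hz => hsub' hz.1))
  obtain ⟨C, hC, δ, hδ, hglue⟩ := glue (K := K) hD hΞ hΞD hχ hcomp hdb hφc (fun ζ hζ => (hΞU hζ).2)
  -- choose `T`
  have ht1 : ∀ x : ℝ, 0 < x → Tendsto (fun T : ℝ => Real.exp (-(T * x))) atTop (𝓝 0) := by
    intro x hx
    exact Real.tendsto_exp_neg_atTop_nhds_zero.comp (tendsto_id.atTop_mul_const hx)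
  have e1 : ∀ᶠ T in atTop, C * Real.exp (-(T * δ)) < 1 / 2 := by
    have := (ht1 δ hδ).const_mul C
    rw [mul_zero] at this
    exact this.eventually (gt_mem_nhds (by norm_num))
  have e2 : ∀ᶠ T in atTop, Real.exp (-(T * η)) < 1 / 2 :=
    (ht1 η hη).eventually (gt_mem_nhds (by norm_num))
  have e3 : ∀ᶠ T in atTop, Real.exp (-(T * ((F c).re - a))) < 1 / 2 :=
    (ht1 _ (by linarith)).eventually (gt_mem_nhds (by norm_num))
  obtain ⟨T, hT1, hT2, hT3, hT0⟩ := (e1.and (e2.and (e3.and (eventually_gt_atTop (0 : ℝ))))).exists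
  obtain ⟨h, hh, hest⟩ := hglue T (ball c ρ') (fun z => Complex.exp (T * F z)) 1 hT0.le isOpen_ball
    (hts.trans hsub') (fun z hz => hsub' hz.1) (by fun_prop) zero_le_one (by
      intro ζ _
      rw [Complex.norm_exp, one_mul]
      simp)
  have e4 : ∀ x : ℝ, Real.exp (T * (x - δ)) = Real.exp (T * x) * Real.exp (-(T * δ)) := by
    intro x
    rw [← Real.exp_add]
    congr 1
    ring
  have hCd : ∀ x : ℝ, C * 1 * Real.exp (T * (x - δ)) ≤ Real.exp (T * x) / 2 := by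
    intro x
    rw [e4, mul_one]
    have h1 : 0 < Real.exp (T * x) := Real.exp_pos _
    calc C * (Real.exp (T * x) * Real.exp (-(T * δ))) =
          Real.exp (T * x) * (C * Real.exp (-(T * δ))) := by ring
      _ ≤ Real.exp (T * x) * (1 / 2) := by gcongr
      _ = Real.exp (T * x) / 2 := by ring
  apply hca
  refine ⟨hcD, h, T, hT0, hh, fun w hw => ?_, fun w hw => ?_, ?_⟩
  · -- on `K`
    have hwb : w ∉ ball c ρ := fun hb => (hball (ball_subset_ball hρρ'.le hb)).2 hw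
    have h1 := (hest w (hKD hw) 0 le_rfl (notMem_good_zero hw)).trans (hCd 0)
    rw [hχ0 w hwb, zero_mul, sub_zero, mul_zero, Real.exp_zero] at h1
    linarith
  · have h1 := (hest w hw 1 zero_le_one notMem_good_one).trans (hCd 1)
    have h2 : ‖χ w * Complex.exp (T * F w)‖ ≤ Real.exp T / 2 := by
      by_cases hwb : w ∈ ball c ρ
      · rw [norm_mul, Complex.norm_exp]
        have h3 : ((T : ℂ) * F w).re = T * (F w).re := by simp
        rw [h3]
        have h4 := hFη w (ball_subset_closedBall hwb)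
        calc ‖χ w‖ * Real.exp (T * (F w).re) ≤ 1 * Real.exp (T * (1 - η)) := by
              apply mul_le_mul (hχn w) _ (Real.exp_pos _).le zero_le_one
              apply Real.exp_le_exp.2
              nlinarith
          _ = Real.exp T * Real.exp (-(T * η)) := by
            rw [one_mul, ← Real.exp_add]
            congr 1
            ring
          _ ≤ Real.exp T * (1 / 2) := by gcongr
          _ = Real.exp T / 2 := by ring
      · rw [hχ0 w hwb, zero_mul, norm_zero]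
        positivity
    rw [mul_one] at h1
    have h3 : ‖h w‖ ≤ ‖h w - χ w * Complex.exp (T * F w)‖ + ‖χ w * Complex.exp (T * F w)‖ := by
      have := norm_add_le (h w - χ w * Complex.exp (T * F w)) (χ w * Complex.exp (T * F w))
      rwa [sub_add_cancel] at this
    linarith
  · have h1 := (hest c hcD a ha0 hca).trans (hCd a)
    rw [hχ1 c (mem_closedBall_self hρ₁0.le), one_mul] at h1
    have h2 : ‖Complex.exp (T * F c)‖ = Real.exp (T * (F c).re) := by
      rw [Complex.norm_exp]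
      simp
    have h3 : ‖Complex.exp (T * F c)‖ ≤ ‖h c‖ + ‖h c - Complex.exp (T * F c)‖ := by
      have := norm_sub_le (h c) (h c - Complex.exp (T * F c))
      rwa [sub_sub_cancel] at this
    have h4 : Real.exp (T * a) = Real.exp (T * (F c).re) * Real.exp (-(T * ((F c).re - a))) := by
      rw [← Real.exp_add]
      congr 1
      ring
    have h5 : Real.exp (T * a) < Real.exp (T * (F c).re) / 2 := by
      rw [h4]
      have : 0 < Real.exp (T * (F c).re) := Real.exp_pos _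
      calc Real.exp (T * (F c).re) * Real.exp (-(T * ((F c).re - a)))
          < Real.exp (T * (F c).re) * (1 / 2) := by gcongr
        _ = _ := by ring
    have h6 : 0 < Real.exp (T * a) := Real.exp_pos _
    rw [h2] at h3
    linarith

end Pool.Agent.W5h46.SC
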