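import Pool.Agent.W5h46.SC.Defs

/-!
# Hilbert scales: the abstract estimates
-/

set_option autoImplicit false

open Set Metric Filter Topology InnerProductSpace ContinuousLinearMap

namespace Pool.Agent.W5h46.SC

/-- Hahn–Banach for a functional bounded through a linear map -/
lemma exists_dual_of_le {H F : Type*} [AddCommGroup H] [Module ℂ H] [NormedAddCommGroup F]
    [NormedSpace ℂ F] (J : H →ₗ[ℂ] F) (ev : H →ₗ[ℂ] ℂ) {C : ℝ} (hC : 0 ≤ C)
    (h : ∀ x, ‖ev x‖ ≤ C * ‖J x‖) : ∃ Λ : F →L[ℂ] ℂ, ‖Λ‖ ≤ C ∧ ∀ x, Λ (J x) = ev x := by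
  classical
  let p : Submodule ℂ F := LinearMap.range J
  have hch : ∀ y : p, ∃ x, J x = y := fun y => y.2
  choose s hs using hch
  have key : ∀ x x' : H, J x = J x' → ev x = ev x' := by
    intro x x' hx
    have h1 := h (x - x')
    rw [map_sub, map_sub, hx, sub_self, norm_zero, mul_zero] at h1
    exact sub_eq_zero.1 (norm_le_zero_iff.1 h1)
  let f0 : p →ₗ[ℂ] ℂ :=
    { toFun := fun y => ev (s y)
      map_add' := fun y z => by
        rw [← map_add]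
        apply key
        rw [map_add, hs, hs, hs]
        rfl
      map_smul' := fun c y => by
        rw [RingHom.id_apply, ← map_smul]
        apply key
        rw [map_smul, hs, hs]
        rfl }
  have hf0 : ∀ y : p, ‖f0 y‖ ≤ C * ‖y‖ := by
    intro y
    have := h (s y)
    rw [hs] at this
    exact this
  let f : p →L[ℂ] ℂ := f0.mkContinuous C hf0
  obtain ⟨g, hg, hgn⟩ := exists_extension_norm_eq p f
  refine ⟨g, ?_, fun x => ?_⟩
  · rw [hgn]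
    exact f0.mkContinuous_norm_le hC hf0
  · have h1 := hg ⟨J x, ⟨x, rfl⟩⟩
    rw [h1]
    change ev (s _) = ev x
    apply key
    rw [hs]

section Hilb

variable {E₁ E₀ : Type} [NormedAddCommGroup E₁] [InnerProductSpace ℂ E₁]
    [CompleteSpace E₁] [NormedAddCommGroup E₀] [InnerProductSpace ℂ E₀] [CompleteSpace E₀]

/-- `B = j j*` -/
noncomputable def BB (j : E₁ →L[ℂ] E₀) : E₀ →L[ℂ] E₀ := j ∘L ContinuousLinearMap.adjoint j

variable (j : E₁ →L[ℂ] E₀)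

lemma BB_nonneg : 0 ≤ BB j :=
  (nonneg_iff_isPositive _).2 (isPositive_self_comp_adjoint j)

lemma BB_sa : IsSelfAdjoint (BB j) := IsSelfAdjoint.of_nonneg (BB_nonneg j)

lemma spec_nonneg {x : ℝ} (hx : x ∈ spectrum ℝ (BB j)) : 0 ≤ x :=
  spectrum_nonneg_of_nonneg (BB_nonneg j) hx

lemma spec_sub : spectrum ℝ (BB j) ⊆ Ici 0 := fun _ hx => spec_nonneg j hx

/-- `q(B)` -/
noncomputable def QQ (q : ℝ → ℝ) : E₀ →L[ℂ] E₀ := cfc q (BB j)

lemma QQ_sa (q : ℝ → ℝ) : IsSelfAdjoint (QQ j q) := IsSelfAdjoint.cfc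

lemma QQ_inner (q : ℝ → ℝ) (u v : E₀) : inner ℂ (QQ j q u) v = inner ℂ u (QQ j q v) := by
  have h := QQ_sa j q
  rw [isSelfAdjoint_iff_isSymmetric] at h
  exact h u v

lemma QQ_norm {q : ℝ → ℝ} {c : ℝ} (hc : 0 ≤ c) (h : ∀ x, 0 ≤ x → |q x| ≤ c) (v : E₀) :
    ‖QQ j q v‖ ≤ c * ‖v‖ := by
  refine (QQ j q).le_of_opNorm_le ?_ v
  exact norm_cfc_le hc (fun x hx => by
    rw [Real.norm_eq_abs]
    exact h x (spec_nonneg j hx))

lemma QQ_mul {p q : ℝ → ℝ} (hp : ContinuousOn p (Ici 0)) (hq : ContinuousOn q (Ici 0)) :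
    QQ j (fun x => p x * q x) = QQ j p * QQ j q :=
  cfc_mul p q (BB j) (hp.mono (spec_sub j)) (hq.mono (spec_sub j))

lemma QQ_mul_apply {p q : ℝ → ℝ} (hp : ContinuousOn p (Ici 0)) (hq : ContinuousOn q (Ici 0))
    (v : E₀) : QQ j (fun x => p x * q x) v = QQ j p (QQ j q v) := by
  rw [QQ_mul j hp hq]
  rfl

lemma QQ_sub_apply {p q : ℝ → ℝ} (hp : ContinuousOn p (Ici 0)) (hq : ContinuousOn q (Ici 0))
    (v : E₀) : QQ j (fun x => p x - q x) v = QQ j p v - QQ j q v := by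
  have := cfc_sub p q (BB j) (hp.mono (spec_sub j)) (hq.mono (spec_sub j))
  unfold QQ
  rw [this]
  rfl

lemma QQ_congr {p q : ℝ → ℝ} (h : ∀ x, 0 ≤ x → p x = q x) : QQ j p = QQ j q :=
  cfc_congr (fun x hx => h x (spec_nonneg j hx))

lemma QQ_id : QQ j (fun x => x) = BB j := cfc_id' ℝ (BB j) (BB_sa j)

lemma QQ_one : QQ j (fun _ => 1) = 1 := by
  have : cfc (fun _ : ℝ => (1 : ℝ)) (BB j) = 1 := cfc_const_one ℝ (BB j) (BB_sa j)
  exact this

/-- norm of `j* q(B)` -/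
lemma adj_norm {q : ℝ → ℝ} (hq : ContinuousOn q (Ici 0)) {c : ℝ} (hc : 0 ≤ c)
    (h : ∀ x, 0 ≤ x → x * q x ^ 2 ≤ c ^ 2) (v : E₀) :
    ‖ContinuousLinearMap.adjoint j (QQ j q v)‖ ≤ c * ‖v‖ := by
  set u := QQ j q v with hu
  have hid : ContinuousOn (fun x : ℝ => x) (Ici 0) := continuousOn_id
  have h1 : ‖ContinuousLinearMap.adjoint j u‖ ^ 2 = RCLike.re (inner ℂ v (QQ j (fun x => q x * (x * q x)) v)) := by
    rw [@norm_sq_eq_re_inner ℂ, ContinuousLinearMap.adjoint_inner_left]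
    have h2 : j (ContinuousLinearMap.adjoint j u) = BB j u := rfl
    have h6 : QQ j (fun x => q x * (x * q x)) v = QQ j q (BB j (QQ j q v)) := by
      rw [QQ_mul_apply j (q := fun x => x * q x) hq (hid.mul hq), QQ_mul_apply j hid hq, QQ_id]
    rw [h2, h6, hu, QQ_inner]
  have h3 : ‖QQ j (fun x => q x * (x * q x)) v‖ ≤ c ^ 2 * ‖v‖ := by
    apply QQ_norm j (sq_nonneg c)
    intro x hx
    have h4 : q x * (x * q x) = x * q x ^ 2 := by ring
    rw [h4, abs_of_nonneg (mul_nonneg hx (sq_nonneg _))]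
    exact h x hx
  have h5 : ‖ContinuousLinearMap.adjoint j u‖ ^ 2 ≤ (c * ‖v‖) ^ 2 := by
    rw [h1]
    calc RCLike.re (inner ℂ v (QQ j (fun x => q x * (x * q x)) v))
        ≤ ‖v‖ * ‖QQ j (fun x => q x * (x * q x)) v‖ := re_inner_le_norm _ _
      _ ≤ ‖v‖ * (c ^ 2 * ‖v‖) := by gcongr
      _ = (c * ‖v‖) ^ 2 := by ring
  exact le_of_sq_le_sq h5 (by positivity)

lemma QQ_norm_sq {q : ℝ → ℝ} (hq : ContinuousOn q (Ici 0)) (v : E₀) :
    ‖QQ j q v‖ ^ 2 = RCLike.re (inner ℂ (QQ j (fun x => q x * q x) v) v) := by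
  rw [@norm_sq_eq_re_inner ℂ, QQ_mul_apply j hq hq, ← QQ_inner, QQ_inner j q (QQ j q v) v, QQ_inner j q v]

/-- comparison of `‖a(B) v‖` with `‖b(B) v‖` and `‖v‖` -/
lemma QQ_interp {a b : ℝ → ℝ} (ha : ContinuousOn a (Ici 0)) (hb : ContinuousOn b (Ici 0))
    {s₁ s₂ : ℝ} (h : ∀ x, 0 ≤ x → a x ^ 2 ≤ s₁ * b x ^ 2 + s₂) (v : E₀) :
    ‖QQ j a v‖ ^ 2 ≤ s₁ * ‖QQ j b v‖ ^ 2 + s₂ * ‖v‖ ^ 2 := by
  have ha' := ha.mono (spec_sub j)
  have hb' := hb.mono (spec_sub j)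
  have h1 : QQ j (fun x => a x * a x) ≤ s₁ • QQ j (fun x => b x * b x) + s₂ • 1 := by
    have e1 : s₁ • QQ j (fun x => b x * b x) + s₂ • 1 =
        cfc (fun x : ℝ => s₁ * (b x * b x) + s₂ * 1) (BB j) := by
      rw [cfc_add (BB j) (fun x : ℝ => s₁ * (b x * b x)) (fun _ => s₂ * 1) (by fun_prop) (by fun_prop),
        cfc_const_mul s₁ (fun x => b x * b x) (BB j) (by fun_prop), cfc_const (s₂ * 1) (BB j) (BB_sa j)]
      rw [mul_one, Algebra.algebraMap_eq_smul_one]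
      rfl
    rw [e1]
    refine cfc_mono (fun x hx => ?_) (by fun_prop) (by fun_prop)
    have := h x (spec_nonneg j hx)
    nlinarith
  rw [ContinuousLinearMap.le_def] at h1
  have h2 := h1.re_inner_nonneg_left v
  rw [QQ_norm_sq j ha, QQ_norm_sq j hb]
  simp only [sub_apply, add_apply, smul_apply, inner_sub_left, inner_add_left,
    map_sub, map_add] at h2
  have h3 : ∀ (s : ℝ) (w : E₀), RCLike.re (inner ℂ (s • w) v) = s * RCLike.re (inner ℂ w v) := by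
    intro s w
    rw [show s • w = (s : ℂ) • w from (Complex.coe_smul s w).symm, inner_smul_left]
    simp
  rw [h3, h3] at h2
  rw [@norm_sq_eq_re_inner ℂ _ _ _ _ v]
  have h4 : (1 : E₀ →L[ℂ] E₀) v = v := rfl
  rw [h4] at h2
  linarith

end Hilb

end Pool.Agent.W5h46.SC
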