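import Pool.Agent.W5h46.SC.Hilb

/-!
# Hilbert scales: powers, regularisation
-/

set_option autoImplicit false

open Set Metric Filter Topology InnerProductSpace ContinuousLinearMap

namespace Pool.Agent.W5h46.SC

variable {E₁ E₀ : Type} [NormedAddCommGroup E₁] [InnerProductSpace ℂ E₁]
    [CompleteSpace E₁] [NormedAddCommGroup E₀] [InnerProductSpace ℂ E₀] [CompleteSpace E₀]
    (j : E₁ →L[ℂ] E₀)

lemma scalePow_eq (α : ℝ) : scalePow j α = QQ j (fun t : ℝ => t ^ (α / 2)) := rfl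

lemma cont_rpow {α : ℝ} (hα : 0 ≤ α) : ContinuousOn (fun t : ℝ => t ^ α) (Ici 0) :=
  (Real.continuous_rpow_const hα).continuousOn

lemma cont_div {q : ℝ → ℝ} (hq : ContinuousOn q (Ici 0)) {t : ℝ} (ht : 0 < t) :
    ContinuousOn (fun x => q x / (x + t)) (Ici 0) := by
  apply hq.div (by fun_prop)
  intro x hx
  have : (0 : ℝ) ≤ x := hx
  positivity

lemma scalePow_add {a b : ℝ} (ha : 0 ≤ a) (hb : 0 ≤ b) (y : E₀) :
    scalePow j (a + b) y = scalePow j a (scalePow j b y) := by
  rw [scalePow_eq, scalePow_eq, scalePow_eq, ← QQ_mul_apply j (cont_rpow (by positivity))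
    (cont_rpow (by positivity))]
  congr 1
  apply QQ_congr
  intro x hx
  rw [← Real.rpow_add_of_nonneg hx (by positivity) (by positivity)]
  congr 1
  ring

/-- moment inequality with a parameter -/
lemma scalePow_moment {a b s : ℝ} (ha : 0 ≤ a) (hab : a ≤ b) (hs : 0 < s) (y : E₀) :
    ‖scalePow j a y‖ ^ 2 ≤ s ^ (a - b) * ‖scalePow j b y‖ ^ 2 + s ^ a * ‖y‖ ^ 2 := by
  rw [scalePow_eq, scalePow_eq]
  have hb : 0 ≤ b := ha.trans hab
  apply QQ_interp j (cont_rpow (by positivity)) (cont_rpow (by positivity))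
  intro x hx
  have e : ∀ c : ℝ, 0 ≤ c → (x ^ (c / 2)) ^ 2 = x ^ c := by
    intro c hc
    rw [← Real.rpow_natCast, ← Real.rpow_mul hx]
    congr 1
    push_cast
    ring
  rw [e a ha, e b hb]
  rcases le_total s x with h | h
  · have hx0 : 0 < x := hs.trans_le h
    have h1 : x ^ a = x ^ (a - b) * x ^ b := by
      rw [← Real.rpow_add hx0]
      congr 1
      ring
    have h2 : x ^ (a - b) ≤ s ^ (a - b) := by
      apply Real.rpow_le_rpow_of_nonpos hs h (by linarith)
    rw [h1]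
    have h3 : 0 ≤ x ^ b := by positivity
    have h4 : 0 ≤ s ^ a := by positivity
    nlinarith [mul_le_mul_of_nonneg_right h2 h3]
  · have h1 : x ^ a ≤ s ^ a := Real.rpow_le_rpow hx h ha
    have h3 : 0 ≤ s ^ (a - b) * x ^ b := by positivity
    linarith

/-- the moment inequality, product form -/
lemma scalePow_moment' {a b A M : ℝ} (ha : 0 ≤ a) (hab : a ≤ b) (hb : 0 < b) (hA : 0 < A)
    (hM : 0 < M) {y : E₀} (h1 : ‖scalePow j b y‖ ≤ A) (h2 : ‖y‖ ≤ M) :
    ‖scalePow j a y‖ ≤ 2 * (A ^ (a / b) * M ^ (1 - a / b)) := by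
  set s : ℝ := (A / M) ^ (2 / b) with hs
  have hAM : 0 < A / M := by positivity
  have hs0 : 0 < s := by positivity
  have h3 := scalePow_moment j ha hab hs0 y
  have e1 : s ^ (a - b) * A ^ 2 = (A ^ (a / b) * M ^ (1 - a / b)) ^ 2 := by
    rw [hs, ← Real.rpow_mul hAM.le, Real.div_rpow hA.le hM.le, mul_pow,
      ← Real.rpow_natCast (A ^ (a / b)), ← Real.rpow_natCast (M ^ (1 - a / b)),
      ← Real.rpow_mul hA.le, ← Real.rpow_mul hM.le]
    have : A ^ 2 = A ^ (2 : ℝ) := by norm_num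
    rw [this, div_mul_eq_mul_div, ← Real.rpow_add hA, div_eq_mul_inv, ← Real.rpow_neg hM.le]
    congr 2
    · push_cast
      field_simp
      ring
    · push_cast
      field_simp
      ring
  have e2 : s ^ a * M ^ 2 = (A ^ (a / b) * M ^ (1 - a / b)) ^ 2 := by
    rw [hs, ← Real.rpow_mul hAM.le, Real.div_rpow hA.le hM.le, mul_pow,
      ← Real.rpow_natCast (A ^ (a / b)), ← Real.rpow_natCast (M ^ (1 - a / b)),
      ← Real.rpow_mul hA.le, ← Real.rpow_mul hM.le]
    have : M ^ 2 = M ^ (2 : ℝ) := by norm_num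
    rw [this, div_mul_eq_mul_div, mul_div_assoc, ← Real.rpow_sub hM]
    congr 2
    · push_cast
      field_simp
    · push_cast
      field_simp
  have h4 : ‖scalePow j b y‖ ^ 2 ≤ A ^ 2 := by gcongr
  have h5 : ‖y‖ ^ 2 ≤ M ^ 2 := by gcongr
  have h6 : ‖scalePow j a y‖ ^ 2 ≤ (2 * (A ^ (a / b) * M ^ (1 - a / b))) ^ 2 := by
    calc ‖scalePow j a y‖ ^ 2 ≤ s ^ (a - b) * ‖scalePow j b y‖ ^ 2 + s ^ a * ‖y‖ ^ 2 := h3
      _ ≤ s ^ (a - b) * A ^ 2 + s ^ a * M ^ 2 := by gcongr
      _ = 2 * (A ^ (a / b) * M ^ (1 - a / b)) ^ 2 := by rw [e1, e2]; ring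
      _ ≤ (2 * (A ^ (a / b) * M ^ (1 - a / b))) ^ 2 := by
        rw [mul_pow]
        have : 0 ≤ (A ^ (a / b) * M ^ (1 - a / b)) ^ 2 := by positivity
        nlinarith
  exact le_of_sq_le_sq h6 (by positivity)

/-- `range j ⊂ range B^{1/2}` -/
lemma exists_sqrt (h : E₁) : ∃ u : E₀, scalePow j 1 u = j h ∧ ‖u‖ ≤ ‖h‖ := by
  have hn : ∀ v : E₀, ‖ContinuousLinearMap.adjoint j v‖ = ‖scalePow j 1 v‖ := by
    intro v
    have h1 : ‖ContinuousLinearMap.adjoint j v‖ ^ 2 = ‖scalePow j 1 v‖ ^ 2 := by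
      rw [scalePow_eq, QQ_norm_sq j (cont_rpow (by positivity)), @norm_sq_eq_re_inner ℂ,
        ContinuousLinearMap.adjoint_inner_left]
      have h2 : j (ContinuousLinearMap.adjoint j v) = BB j v := rfl
      have h3 : QQ j (fun x => x ^ ((1 : ℝ) / 2) * x ^ ((1 : ℝ) / 2)) = BB j := by
        rw [← QQ_id j]
        apply QQ_congr
        intro x hx
        rw [← Real.rpow_add_of_nonneg hx (by positivity) (by positivity)]
        norm_num
      rw [h2, h3, ← inner_conj_symm, RCLike.conj_re]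
    exact (sq_eq_sq₀ (norm_nonneg _) (norm_nonneg _)).1 h1
  obtain ⟨Λ, hΛ, hΛ'⟩ := exists_dual_of_le (scalePow j 1).toLinearMap
    ((innerSL ℂ (j h)).toLinearMap) (norm_nonneg h) (by
      intro v
      change ‖inner ℂ (j h) v‖ ≤ ‖h‖ * ‖scalePow j 1 v‖
      rw [← hn, ← ContinuousLinearMap.adjoint_inner_right]
      exact norm_inner_le_norm _ _)
  refine ⟨(toDual ℂ E₀).symm Λ, ?_, by simpa using hΛ⟩
  apply ext_inner_right ℂ
  intro v
  rw [scalePow_eq, QQ_inner, ← scalePow_eq, toDual_symm_apply]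
  exact hΛ' v

/-- interpolation: elements of `H₁` in `H^α` -/
lemma exists_interp {α a b : ℝ} (hα0 : 0 ≤ α) (hα1 : α ≤ 1) {h : E₁} (ha : 0 < a) (hb : 0 < b)
    (h1 : ‖j h‖ ≤ a) (h2 : ‖h‖ ≤ b) :
    ∃ y : E₀, scalePow j α y = j h ∧ ‖y‖ ≤ 2 * (a ^ (1 - α) * b ^ α) := by
  obtain ⟨u, hu, hun⟩ := exists_sqrt j h
  refine ⟨scalePow j (1 - α) u, ?_, ?_⟩
  · rw [← scalePow_add j hα0 (by linarith), add_sub_cancel, hu]
  · have := scalePow_moment' j (a := 1 - α) (b := 1) (by linarith) (by linarith) one_pos ha hb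
      (y := u) (by rw [hu]; exact h1) (hun.trans h2)
    simpa using this

/-- the regularisations -/
noncomputable def reg (α t : ℝ) (y : E₀) : E₁ :=
  ContinuousLinearMap.adjoint j (QQ j (fun x => x ^ (α / 2) / (x + t)) y)

lemma pow_mul_le {x t a b : ℝ} (hx : 0 ≤ x) (ht : 0 < t) (ha : 0 ≤ a) (hb : 0 ≤ b) :
    x ^ a * t ^ b ≤ (x + t) ^ (a + b) := by
  rw [Real.rpow_add (by positivity)]
  apply mul_le_mul _ _ (by positivity) (by positivity)
  · exact Real.rpow_le_rpow hx (by linarith) ha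
  · exact Real.rpow_le_rpow ht.le (by linarith) hb

lemma norm_reg_le {α t : ℝ} (hα0 : 0 ≤ α) (hα1 : α ≤ 1) (ht : 0 < t) (y : E₀) :
    ‖reg j α t y‖ ≤ t ^ (-((1 - α) / 2)) * ‖y‖ := by
  unfold reg
  apply adj_norm j (cont_div (cont_rpow (by positivity)) ht) (by positivity)
  intro x hx
  have e0 : (t ^ (-((1 - α) / 2))) ^ 2 = (t ^ (1 - α))⁻¹ := by
    rw [← Real.rpow_natCast, ← Real.rpow_mul ht.le, ← Real.rpow_neg ht.le]
    congr 1
    push_cast
    ring
  have e1 : x * (x ^ (α / 2) / (x + t)) ^ 2 = x ^ (1 + α) / (x + t) ^ 2 := by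
    rw [div_pow, ← Real.rpow_natCast (x ^ (α / 2)), ← Real.rpow_mul hx]
    have : (α / 2) * ((2 : ℕ) : ℝ) = α := by push_cast; ring
    rw [this, Real.rpow_add_of_nonneg hx (by norm_num) hα0, Real.rpow_one]
    ring
  rw [e0, e1, div_le_iff₀ (by positivity), inv_mul_eq_div, le_div_iff₀ (by positivity)]
  have := pow_mul_le hx ht (a := 1 + α) (b := 1 - α) (by positivity) (by linarith)
  have e2 : (x + t) ^ (1 + α + (1 - α)) = (x + t) ^ 2 := by
    rw [show 1 + α + (1 - α) = ((2 : ℕ) : ℝ) by push_cast; ring, Real.rpow_natCast]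
  rw [e2] at this
  exact this

/-- the error of the regularisation, in `H^γ` -/
lemma reg_error {α γ t : ℝ} (hγ : 0 ≤ γ) (hγα : γ ≤ α) (hα1 : α ≤ 1) (ht : 0 < t) (y : E₀) :
    ∃ y' : E₀, scalePow j α y - j (reg j α t y) = scalePow j γ y' ∧
      ‖y'‖ ≤ t ^ ((α - γ) / 2) * ‖y‖ := by
  have hα0 : 0 ≤ α := hγ.trans hγα
  have hid : ContinuousOn (fun x : ℝ => x) (Ici 0) := continuousOn_id
  refine ⟨QQ j (fun x => t * x ^ ((α - γ) / 2) / (x + t)) y, ?_, ?_⟩
  · have h1 : j (reg j α t y) = QQ j (fun x => x * (x ^ (α / 2) / (x + t))) y := by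
      rw [QQ_mul_apply j (q := fun x => x ^ (α / 2) / (x + t)) hid
        (cont_div (cont_rpow (by positivity)) ht), QQ_id]
      rfl
    rw [h1, scalePow_eq, ← QQ_sub_apply j (p := fun x => x ^ (α / 2))
      (q := fun x => x * (x ^ (α / 2) / (x + t))) (cont_rpow (by positivity))
      (hid.mul (cont_div (cont_rpow (by positivity)) ht)), scalePow_eq,
      ← QQ_mul_apply j (p := fun x => x ^ (γ / 2)) (q := fun x => t * x ^ ((α - γ) / 2) / (x + t))
      (cont_rpow (by positivity))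
      (cont_div (continuousOn_const.mul (cont_rpow (by linarith))) ht)]
    congr 1
    apply QQ_congr
    intro x hx
    have hxt : x + t ≠ 0 := by positivity
    have e1 : x ^ (γ / 2) * (t * x ^ ((α - γ) / 2) / (x + t)) = t * x ^ (α / 2) / (x + t) := by
      have : x ^ (α / 2) = x ^ (γ / 2) * x ^ ((α - γ) / 2) := by
        rw [← Real.rpow_add_of_nonneg hx (by positivity) (by linarith)]
        congr 1
        ring
      rw [this]
      ring
    rw [e1]
    field_simp
    ring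
  · apply QQ_norm j (by positivity)
    intro x hx
    rw [abs_of_nonneg (by positivity), div_le_iff₀ (by positivity)]
    have h1 := pow_mul_le hx ht (a := (α - γ) / 2) (b := 1 - (α - γ) / 2) (by linarith)
      (by linarith)
    rw [add_sub_cancel, Real.rpow_one] at h1
    have h2 : t = t ^ ((α - γ) / 2) * t ^ (1 - (α - γ) / 2) := by
      rw [← Real.rpow_add ht, add_sub_cancel, Real.rpow_one]
    calc t * x ^ ((α - γ) / 2)
        = t ^ ((α - γ) / 2) * (x ^ ((α - γ) / 2) * t ^ (1 - (α - γ) / 2)) := by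
          conv_lhs => rw [h2]
          ring
      _ ≤ t ^ ((α - γ) / 2) * (x + t) := by gcongr

/-- `j` of a regularisation -/
lemma j_reg {α t : ℝ} (hα0 : 0 ≤ α) (ht : 0 < t) (y : E₀) :
    j (reg j α t y) = scalePow j α (QQ j (fun x => x / (x + t)) y) := by
  have hid : ContinuousOn (fun x : ℝ => x) (Ici 0) := continuousOn_id
  have h1 : j (reg j α t y) = QQ j (fun x => x * (x ^ (α / 2) / (x + t))) y := by
    rw [QQ_mul_apply j (q := fun x => x ^ (α / 2) / (x + t)) hid
      (cont_div (cont_rpow (by positivity)) ht), QQ_id]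
    rfl
  rw [h1, scalePow_eq, ← QQ_mul_apply j (cont_rpow (by positivity)) (cont_div hid ht)]
  congr 1
  apply QQ_congr
  intro x hx
  ring

lemma norm_ratio_le {t : ℝ} (ht : 0 < t) (y : E₀) : ‖QQ j (fun x => x / (x + t)) y‖ ≤ ‖y‖ := by
  have := QQ_norm j (q := fun x => x / (x + t)) zero_le_one (fun x hx => by
    rw [abs_of_nonneg (by positivity), div_le_one (by positivity)]
    linarith) y
  simpa using this

/-- `B (B + t)⁻¹ y → y` as `t → 0` -/
lemma ratio_tendsto (hj : DenseRange j) (y : E₀) {ε : ℝ} (hε : 0 < ε) :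
    ∃ δ > 0, ∀ t, 0 < t → t < δ → ‖y - QQ j (fun x => x / (x + t)) y‖ < ε := by
  obtain ⟨h, hh⟩ : ∃ h, ‖y - j h‖ < ε / 4 := by
    have := Metric.denseRange_iff.1 hj y (ε / 4) (by positivity)
    obtain ⟨h, hh⟩ := this
    exact ⟨h, by rwa [dist_eq_norm] at hh⟩
  obtain ⟨u, hu, hun⟩ := exists_sqrt j h
  refine ⟨(ε / (4 * (‖h‖ + 1))) ^ 2, by positivity, fun t ht htδ => ?_⟩
  have hid : ContinuousOn (fun x : ℝ => x) (Ici 0) := continuousOn_id
  have h1 : ‖j h - QQ j (fun x => x / (x + t)) (j h)‖ ≤ t ^ ((1 : ℝ) / 2) * ‖h‖ := by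
    have e1 : j h - QQ j (fun x => x / (x + t)) (j h) =
        QQ j (fun x => x ^ ((1 : ℝ) / 2) - x / (x + t) * x ^ ((1 : ℝ) / 2)) u := by
      rw [QQ_sub_apply j (p := fun x => x ^ ((1 : ℝ) / 2))
        (q := fun x => x / (x + t) * x ^ ((1 : ℝ) / 2)) (cont_rpow (by positivity))
        ((cont_div hid ht).mul (cont_rpow (by positivity))),
        QQ_mul_apply j (cont_div hid ht) (cont_rpow (by positivity)), ← scalePow_eq j 1, hu]
    rw [e1]
    calc ‖QQ j (fun x => x ^ ((1 : ℝ) / 2) - x / (x + t) * x ^ ((1 : ℝ) / 2)) u‖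
        ≤ t ^ ((1 : ℝ) / 2) * ‖u‖ := by
          apply QQ_norm j (by positivity)
          intro x hx
          have e2 : x ^ ((1 : ℝ) / 2) - x / (x + t) * x ^ ((1 : ℝ) / 2) =
              t * x ^ ((1 : ℝ) / 2) / (x + t) := by
            have hxt : x + t ≠ 0 := by positivity
            field_simp
            ring
          rw [e2, abs_of_nonneg (by positivity), div_le_iff₀ (by positivity)]
          have h3 := pow_mul_le hx ht (a := 1 / 2) (b := 1 / 2) (by norm_num) (by norm_num)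
          norm_num at h3
          have h2 : t = t ^ ((1 : ℝ) / 2) * t ^ ((1 : ℝ) / 2) := by
            rw [← Real.rpow_add ht]
            norm_num
          calc t * x ^ ((1 : ℝ) / 2)
              = t ^ ((1 : ℝ) / 2) * (x ^ ((1 : ℝ) / 2) * t ^ ((1 : ℝ) / 2)) := by
                conv_lhs => rw [h2]
                ring
            _ ≤ t ^ ((1 : ℝ) / 2) * (x + t) := by gcongr
      _ ≤ t ^ ((1 : ℝ) / 2) * ‖h‖ := by gcongr
  have h2 : t ^ ((1 : ℝ) / 2) * ‖h‖ ≤ ε / 4 := by
    have h3 : t ^ ((1 : ℝ) / 2) ≤ ε / (4 * (‖h‖ + 1)) := by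
      rw [← Real.sqrt_eq_rpow]
      apply (Real.sqrt_le_sqrt htδ.le).trans
      rw [Real.sqrt_sq (by positivity)]
    calc t ^ ((1 : ℝ) / 2) * ‖h‖ ≤ ε / (4 * (‖h‖ + 1)) * ‖h‖ := by gcongr
      _ ≤ ε / 4 := by
        rw [div_mul_eq_mul_div, div_le_div_iff₀ (by positivity) (by norm_num)]
        nlinarith [norm_nonneg h]
  have h4 : ‖QQ j (fun x => x / (x + t)) (j h - y)‖ ≤ ‖j h - y‖ := norm_ratio_le j ht _
  have e3 : y - QQ j (fun x => x / (x + t)) y = (y - j h) +
      (j h - QQ j (fun x => x / (x + t)) (j h)) + QQ j (fun x => x / (x + t)) (j h - y) := by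
    rw [map_sub]
    abel
  rw [e3]
  rw [norm_sub_rev] at h4
  have h5 := norm_add₃_le (a := y - j h) (b := j h - QQ j (fun x => x / (x + t)) (j h))
    (c := QQ j (fun x => x / (x + t)) (j h - y))
  linarith

/-- if `A^{-α} y = j g` then the regularisations converge to `g` in `H₁` -/
lemma reg_tendsto (hj : Function.Injective j) {α : ℝ} (hα : 0 ≤ α) {y : E₀} {g : E₁}
    (hg : scalePow j α y = j g) {ε : ℝ} (hε : 0 < ε) :
    ∃ δ > 0, ∀ t, 0 < t → t < δ → ‖g - reg j α t y‖ < ε := by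
  have hone : ContinuousOn (fun _ : ℝ => (1 : ℝ)) (Ici 0) := continuousOn_const
  have hid : ContinuousOn (fun x : ℝ => x) (Ici 0) := continuousOn_id
  have hdense : (LinearMap.range (ContinuousLinearMap.adjoint j).toLinearMap).topologicalClosure = ⊤ := by
    rw [Submodule.topologicalClosure_eq_top_iff]
    rw [Submodule.eq_bot_iff]
    intro w hw
    have h1 : ∀ v, inner ℂ (j w) v = 0 := by
      intro v
      rw [← ContinuousLinearMap.adjoint_inner_right]
      exact Submodule.inner_left_of_mem_orthogonal (K := LinearMap.range (ContinuousLinearMap.adjoint j).toLinearMap)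
        ⟨v, rfl⟩ hw
    have h2 : j w = 0 := by
      apply ext_inner_right ℂ
      intro v
      rw [h1 v, inner_zero_left]
    exact hj (by rw [h2, map_zero])
  obtain ⟨v, hv⟩ : ∃ v, ‖g - ContinuousLinearMap.adjoint j v‖ < ε / 4 := by
    have h1 : g ∈ (LinearMap.range (ContinuousLinearMap.adjoint j).toLinearMap).topologicalClosure := by
      rw [hdense]; trivial
    have h2 := Metric.mem_closure_iff.1 h1 (ε / 4) (by positivity)
    obtain ⟨b, ⟨v, hv⟩, hb⟩ := h2
    refine ⟨v, ?_⟩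
    rw [dist_eq_norm, ← hv] at hb
    exact hb
  -- the operators `j* (B + t)⁻¹ j`
  have hop : ∀ t : ℝ, 0 < t → ∀ x : E₁,
      ‖ContinuousLinearMap.adjoint j (QQ j (fun x => 1 / (x + t)) (j x))‖ ≤ ‖x‖ := by
    intro t ht x
    obtain ⟨u, hu, hun⟩ := exists_sqrt j x
    rw [← hu, scalePow_eq, ← QQ_mul_apply j (cont_div hone ht) (cont_rpow (by positivity))]
    have := adj_norm j (q := fun x => 1 / (x + t) * x ^ ((1 : ℝ) / 2))
      ((cont_div hone ht).mul (cont_rpow (by positivity))) zero_le_one (by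
        intro x hx
        have e1 : x * (1 / (x + t) * x ^ ((1 : ℝ) / 2)) ^ 2 = (x / (x + t)) ^ 2 := by
          rw [mul_pow, ← Real.sqrt_eq_rpow, Real.sq_sqrt hx]
          ring
        rw [e1]
        have h1 : x / (x + t) ≤ 1 := by
          rw [div_le_one (by positivity)]
          linarith
        have h2 : 0 ≤ x / (x + t) := by positivity
        nlinarith) u
    linarith
  refine ⟨(ε / (4 * (‖v‖ + 1))) ^ 2, by positivity, fun t ht htδ => ?_⟩
  have e0 : reg j α t y = ContinuousLinearMap.adjoint j (QQ j (fun x => 1 / (x + t)) (j g)) := by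
    rw [← hg, scalePow_eq, ← QQ_mul_apply j (cont_div hone ht) (cont_rpow (by positivity))]
    unfold reg
    congr 2
    apply QQ_congr
    intro x hx
    ring
  have h1 : ‖ContinuousLinearMap.adjoint j v -
      ContinuousLinearMap.adjoint j (QQ j (fun x => 1 / (x + t)) (j (ContinuousLinearMap.adjoint j v)))‖
      ≤ t ^ ((1 : ℝ) / 2) * ‖v‖ := by
    have e1 : ContinuousLinearMap.adjoint j v -
      ContinuousLinearMap.adjoint j (QQ j (fun x => 1 / (x + t)) (j (ContinuousLinearMap.adjoint j v)))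
        = ContinuousLinearMap.adjoint j (QQ j (fun x => 1 - 1 / (x + t) * x) v) := by
      rw [QQ_sub_apply j (q := fun x => 1 / (x + t) * x) hone ((cont_div hone ht).mul hid), QQ_one,
        QQ_mul_apply j (cont_div hone ht) hid, QQ_id, map_sub]
      rfl
    rw [e1]
    apply adj_norm j (q := fun x => 1 - 1 / (x + t) * x) (hone.sub ((cont_div hone ht).mul hid))
      (by positivity)
    intro x hx
    have e2 : x * (1 - 1 / (x + t) * x) ^ 2 = x * t ^ 2 / (x + t) ^ 2 := by
      have hxt : x + t ≠ 0 := by positivity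
      field_simp
      ring
    rw [e2, ← Real.sqrt_eq_rpow, Real.sq_sqrt ht.le, div_le_iff₀ (by positivity)]
    nlinarith [mul_pos ht ht, mul_nonneg ht.le hx, mul_nonneg (mul_nonneg ht.le hx) hx,
      mul_nonneg (mul_pos ht ht).le hx, pow_pos ht 3]
  have h2 : t ^ ((1 : ℝ) / 2) * ‖v‖ ≤ ε / 4 := by
    have h3 : t ^ ((1 : ℝ) / 2) ≤ ε / (4 * (‖v‖ + 1)) := by
      rw [← Real.sqrt_eq_rpow]
      apply (Real.sqrt_le_sqrt htδ.le).trans
      rw [Real.sqrt_sq (by positivity)]
    calc t ^ ((1 : ℝ) / 2) * ‖v‖ ≤ ε / (4 * (‖v‖ + 1)) * ‖v‖ := by gcongr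
      _ ≤ ε / 4 := by
        rw [div_mul_eq_mul_div, div_le_div_iff₀ (by positivity) (by norm_num)]
        nlinarith [norm_nonneg v]
  have h4 := hop t ht (ContinuousLinearMap.adjoint j v - g)
  have e3 : g - reg j α t y = (g - ContinuousLinearMap.adjoint j v) +
      (ContinuousLinearMap.adjoint j v -
      ContinuousLinearMap.adjoint j (QQ j (fun x => 1 / (x + t)) (j (ContinuousLinearMap.adjoint j v)))) +
      ContinuousLinearMap.adjoint j (QQ j (fun x => 1 / (x + t))
        (j (ContinuousLinearMap.adjoint j v - g))) := by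
    rw [e0]
    simp only [map_sub]
    abel
  rw [e3]
  rw [norm_sub_rev] at h4
  have h5 := norm_add₃_le (a := g - ContinuousLinearMap.adjoint j v) (b := ContinuousLinearMap.adjoint j v -
      ContinuousLinearMap.adjoint j (QQ j (fun x => 1 / (x + t)) (j (ContinuousLinearMap.adjoint j v))))
    (c := ContinuousLinearMap.adjoint j (QQ j (fun x => 1 / (x + t))
        (j (ContinuousLinearMap.adjoint j v - g))))
  have h6 : ‖ContinuousLinearMap.adjoint j v - g‖ = ‖g - ContinuousLinearMap.adjoint j v‖ :=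
    norm_sub_rev _ _
  linarith

end Pool.Agent.W5h46.SC
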