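import Pool.Agent.W5h46.SC.Max

/-!
# Interpolation hulls and the envelope of `(1/n) log |G|`
-/

set_option autoImplicit false

open Set Metric Filter Topology InnerProductSpace

namespace Pool.Agent.W5h46.SC

/-- `ζ` is reached at level `a` by a bounded analytic function -/
def Good (D K : Set ℂ) (a : ℝ) : Set ℂ :=
  {ζ ∈ D | ∃ (G : ℂ → ℂ) (n : ℝ), 0 < n ∧ DifferentiableOn ℂ G D ∧ (∀ w ∈ K, ‖G w‖ ≤ 1) ∧
    (∀ w ∈ D, ‖G w‖ ≤ Real.exp n) ∧ Real.exp (n * a) < ‖G ζ‖}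

/-- the envelope -/
noncomputable def wInf (D K : Set ℂ) (ζ : ℂ) : ℝ := sSup {a : ℝ | ζ ∈ Good D K a}

lemma good_neg {D K : Set ℂ} {a : ℝ} (ha : a < 0) {ζ : ℂ} (hζ : ζ ∈ D) : ζ ∈ Good D K a := by
  refine ⟨hζ, fun _ => 1, 1, one_pos, differentiableOn_const _, fun _ _ => by simp, fun _ _ => ?_, ?_⟩
  · rw [norm_one]
    exact Real.one_le_exp zero_le_one
  · rw [norm_one, Real.exp_lt_one_iff]
    linarith

lemma good_lt_one {D K : Set ℂ} {a : ℝ} {ζ : ℂ} (h : ζ ∈ Good D K a) : a < 1 := by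
  obtain ⟨hζ, G, n, hn, _, _, hD, hlt⟩ := h
  have h1 := hlt.trans_le (hD ζ hζ)
  rw [Real.exp_lt_exp] at h1
  nlinarith

lemma good_anti {D K : Set ℂ} {a b : ℝ} (hab : a ≤ b) : Good D K b ⊆ Good D K a := by
  rintro ζ ⟨hζ, G, n, hn, h1, h2, h3, hlt⟩
  refine ⟨hζ, G, n, hn, h1, h2, h3, lt_of_le_of_lt ?_ hlt⟩
  apply Real.exp_le_exp.2
  nlinarith

lemma bddAbove_good {D K : Set ℂ} (ζ : ℂ) : BddAbove {a : ℝ | ζ ∈ Good D K a} :=
  ⟨1, fun _ ha => (good_lt_one ha).le⟩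

lemma le_wInf {D K : Set ℂ} {a : ℝ} {ζ : ℂ} (h : ζ ∈ Good D K a) : a ≤ wInf D K ζ :=
  le_csSup (bddAbove_good ζ) h

lemma good_of_lt {D K : Set ℂ} {a : ℝ} {ζ : ℂ} (hζ : ζ ∈ D) (h : a < wInf D K ζ) :
    ζ ∈ Good D K a := by
  obtain ⟨b, hb, hab⟩ := exists_lt_of_lt_csSup (s := {a : ℝ | ζ ∈ Good D K a})
    ⟨-1, good_neg (by norm_num) hζ⟩ h
  exact good_anti hab.le hb

lemma wInf_nonneg {D K : Set ℂ} {ζ : ℂ} (hζ : ζ ∈ D) : 0 ≤ wInf D K ζ := by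
  by_contra hcon
  push Not at hcon
  have := le_wInf (good_neg (K := K) (a := wInf D K ζ / 2) (by linarith) hζ)
  linarith

lemma wInf_le_one {D K : Set ℂ} {ζ : ℂ} (hζ : ζ ∈ D) : wInf D K ζ ≤ 1 :=
  csSup_le ⟨-1, good_neg (by norm_num) hζ⟩ (fun _ ha => (good_lt_one ha).le)

lemma good_isOpen {D K : Set ℂ} (hD : IsOpen D) (a : ℝ) : IsOpen (Good D K a) := by
  rw [isOpen_iff_mem_nhds]
  rintro ζ ⟨hζ, G, n, hn, h1, h2, h3, hlt⟩
  have hc : ContinuousAt (fun w => ‖G w‖) ζ := (h1.continuousOn.continuousAt (hD.mem_nhds hζ)).norm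
  filter_upwards [hc.eventually (lt_mem_nhds hlt), hD.mem_nhds hζ] with w hw hwD
  exact ⟨hwD, G, n, hn, h1, h2, h3, hw⟩

/-- points outside the hull are reached -/
lemma good_of_notMem_hull {D K : Set ℂ} (hK : K.Nonempty) {θ : ℝ} (hθ1 : θ < 1)
    {z : ℂ} (hz : z ∈ D) (h : z ∉ Hull D K θ) : z ∈ Good D K θ := by
  have h' : ¬ ∀ (f : ℂ → ℂ) (m M : ℝ), DifferentiableOn ℂ f D → (∀ w ∈ K, ‖f w‖ ≤ m) →
      (∀ w ∈ D, ‖f w‖ ≤ M) → ‖f z‖ ≤ m ^ (1 - θ) * M ^ θ := fun hh => h ⟨hz, hh⟩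
  push Not at h'
  obtain ⟨f, m, M, hf, hm, hM, hlt⟩ := h'
  obtain ⟨k, hk⟩ := hK
  have hm0 : 0 ≤ m := (norm_nonneg _).trans (hm k hk)
  have hfz : ‖f z‖ ≤ M := hM z hz
  have hfpos : 0 < ‖f z‖ := lt_of_le_of_lt
    (mul_nonneg (Real.rpow_nonneg hm0 _) (Real.rpow_nonneg ((norm_nonneg _).trans hfz) _)) hlt
  have hM0 : 0 < M := hfpos.trans_le hfz
  -- enlarge `m`
  have hcont : Continuous (fun x : ℝ => x ^ (1 - θ) * M ^ θ) :=
    (Real.continuous_rpow_const (by linarith)).mul continuous_const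
  obtain ⟨δ, hδ, hδ'⟩ := Metric.continuous_iff.1 hcont m (‖f z‖ - m ^ (1 - θ) * M ^ θ) (by linarith)
  set m' := m + δ / 2 with hm'
  have hm'0 : 0 < m' := by positivity
  have h1 : m' ^ (1 - θ) * M ^ θ < ‖f z‖ := by
    have := hδ' m' (by rw [hm', Real.dist_eq, add_sub_cancel_left, abs_of_pos (by positivity)]; linarith)
    rw [Real.dist_eq] at this
    have := (abs_lt.1 this).2
    linarith
  have hmM : m' < M := by
    by_contra hcon
    push Not at hcon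
    have h2 : M ^ (1 - θ) * M ^ θ ≤ m' ^ (1 - θ) * M ^ θ := by
      gcongr
    rw [← Real.rpow_add hM0, sub_add_cancel, Real.rpow_one] at h2
    linarith
  have hn : 0 < Real.log (M / m') := Real.log_pos ((one_lt_div hm'0).2 hmM)
  have hMm : 0 < M / m' := by positivity
  refine ⟨hz, fun w => (m' : ℂ)⁻¹ * f w, Real.log (M / m'), hn, hf.const_mul _, fun w hw => ?_,
    fun w hw => ?_, ?_⟩
  · rw [norm_mul, norm_inv, Complex.norm_real, Real.norm_of_nonneg hm'0.le, inv_mul_eq_div,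
      div_le_one hm'0]
    have := hm w hw
    linarith
  · rw [norm_mul, norm_inv, Complex.norm_real, Real.norm_of_nonneg hm'0.le, inv_mul_eq_div,
      Real.exp_log hMm]
    gcongr
    exact hM w hw
  · rw [norm_mul, norm_inv, Complex.norm_real, Real.norm_of_nonneg hm'0.le, inv_mul_eq_div,
      Real.exp_mul, Real.exp_log hMm, lt_div_iff₀ hm'0, Real.div_rpow hM0.le hm'0.le]
    calc M ^ θ / m' ^ θ * m' = m' ^ (1 - θ) * M ^ θ := by
          rw [Real.rpow_sub hm'0, Real.rpow_one]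
          ring
      _ < ‖f z‖ := h1

lemma notMem_hull_of_good {D K : Set ℂ} {θ : ℝ} {z : ℂ} (h : z ∈ Good D K θ) :
    z ∉ Hull D K θ := by
  rintro ⟨hz, hh⟩
  obtain ⟨-, G, n, hn, h1, h2, h3, hlt⟩ := h
  have h4 := hh G 1 (Real.exp n) h1 h2 h3
  rw [Real.one_rpow, one_mul, ← Real.exp_mul] at h4
  linarith

/-- powers -/
lemma pow_props {D K : Set ℂ} {G : ℂ → ℂ} {n : ℝ} (hn : 0 < n)
    (h1 : DifferentiableOn ℂ G D) (h2 : ∀ w ∈ K, ‖G w‖ ≤ 1) (h3 : ∀ w ∈ D, ‖G w‖ ≤ Real.exp n)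
    {T : ℝ} (hT : 0 ≤ T) :
    DifferentiableOn ℂ (fun w => G w ^ ⌊T / n⌋₊) D ∧ (∀ w ∈ K, ‖G w ^ ⌊T / n⌋₊‖ ≤ 1) ∧
    (∀ w ∈ D, ‖G w ^ ⌊T / n⌋₊‖ ≤ Real.exp T) ∧
    (∀ (w : ℂ) (a : ℝ), 0 ≤ a → ‖G w‖ ≤ Real.exp (n * a) →
      ‖G w ^ ⌊T / n⌋₊‖ ≤ Real.exp (T * a)) ∧
    (∀ (w : ℂ) (a : ℝ), a ≤ 1 → Real.exp (n * a) ≤ ‖G w‖ →
      Real.exp (T * a - n) ≤ ‖G w ^ ⌊T / n⌋₊‖) := by
  set k := ⌊T / n⌋₊ with hk
  have hk1 : (k : ℝ) * n ≤ T := by
    rw [← le_div_iff₀ hn]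
    exact Nat.floor_le (by positivity)
  have hk2 : T < ((k : ℝ) + 1) * n := by
    rw [← div_lt_iff₀ hn]
    exact Nat.lt_floor_add_one _
  have hk0 : (0 : ℝ) ≤ k := Nat.cast_nonneg k
  have hle : ∀ (w : ℂ) (a : ℝ), 0 ≤ a → ‖G w‖ ≤ Real.exp (n * a) →
      ‖G w ^ k‖ ≤ Real.exp (T * a) := by
    intro w a ha h
    rw [norm_pow]
    calc ‖G w‖ ^ k ≤ Real.exp (n * a) ^ k := by gcongr
      _ = Real.exp ((k : ℝ) * (n * a)) := by rw [← Real.exp_nat_mul]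
      _ ≤ Real.exp (T * a) := by
        apply Real.exp_le_exp.2
        nlinarith
  refine ⟨h1.pow k, fun w hw => ?_, fun w hw => ?_, hle, fun w a ha h => ?_⟩
  · rw [norm_pow]
    exact pow_le_one₀ (norm_nonneg _) (h2 w hw)
  · have := hle w 1 zero_le_one (by rw [mul_one]; exact h3 w hw)
    rwa [mul_one] at this
  · rw [norm_pow]
    calc Real.exp (T * a - n) ≤ Real.exp ((k : ℝ) * (n * a)) := by
          apply Real.exp_le_exp.2
          rcases le_total 0 a with h0 | h0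
          · nlinarith
          · nlinarith
      _ = Real.exp (n * a) ^ k := by rw [← Real.exp_nat_mul]
      _ ≤ ‖G w‖ ^ k := by gcongr

lemma hull_mono {D K : Set ℂ} (hK : K.Nonempty) {θ θ' : ℝ}
    (h : θ ≤ θ') (h1 : θ' < 1) : Hull D K θ ⊆ Hull D K θ' := by
  intro z hz
  by_contra hcon
  have h2 := good_of_notMem_hull hK h1 hz.1 hcon
  exact notMem_hull_of_good (good_anti h h2) hz

namespace Admissible

variable {D K : Set ℂ} {ω : ℂ → ℝ} (hA : Admissible D K ω)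

include hA

/-- the two constants theorem for `H^∞` -/
lemma le_of_good {a : ℝ} {z : ℂ} (h : z ∈ Good D K a) : a ≤ ω z := by
  obtain ⟨hz, G, n, hn, h1, h2, h3, hlt⟩ := h
  have hω1 := hA.lt_one z hz
  have hω0 := hA.nonneg z hz
  have key : ∀ β, ω z < β → 0 < β → β < 1 → a ≤ ω z / β := by
    intro β hβ hβ0 hβ1
    have h4 := hA.two_constants hβ0 hβ1 (V := D) hA.isOpen (fun w hw => hw.1) h1 (A := 0) (B := n)
      (fun w hw => by rw [Real.exp_zero]; exact h2 w hw) (fun w hw => h3 w hw.1) z ⟨hz, hβ.le⟩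
    have h5 := hlt.trans_le h4
    rw [Real.exp_lt_exp] at h5
    have h6 : n * a < n * (ω z / β) := by linarith
    exact (lt_of_mul_lt_mul_left h6 hn.le).le
  have h4 : Tendsto (fun β : ℝ => ω z / β) (𝓝[<] 1) (𝓝 (ω z / 1)) := by
    apply Tendsto.mono_left _ nhdsWithin_le_nhds
    exact tendsto_const_nhds.div tendsto_id one_ne_zero
  rw [div_one] at h4
  apply ge_of_tendsto h4
  have h5 : Ioo (max (ω z) (1 / 2)) 1 ∈ 𝓝[<] (1 : ℝ) :=
    Ioo_mem_nhdsLT (max_lt hω1 (by norm_num))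
  filter_upwards [h5] with β hβ
  exact key β ((le_max_left _ _).trans_lt hβ.1)
    (lt_of_lt_of_le (by norm_num) ((le_max_right _ _).trans hβ.1.le)) hβ.2

lemma wInf_le {z : ℂ} (hz : z ∈ D) : wInf D K z ≤ ω z :=
  csSup_le ⟨-1, good_neg (by norm_num) hz⟩ (fun _ ha => hA.le_of_good ha)

lemma sub_subset_hull {θ : ℝ} (hθ1 : θ < 1) : Sub D ω θ ⊆ Hull D K θ := by
  rintro z ⟨hz, hle⟩
  by_contra hcon
  obtain ⟨-, G, n, hn, h1, h2, h3, hlt⟩ := good_of_notMem_hull hA.nonempty hθ1 hz hcon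
  -- a slightly larger level is also reached
  have hpos : 0 < ‖G z‖ := (Real.exp_pos _).trans hlt
  set b := Real.log ‖G z‖ / n with hb
  have hθb : θ < b := by
    rw [hb, lt_div_iff₀ hn, mul_comm, Real.lt_log_iff_exp_lt hpos]
    exact hlt
  have h4 : z ∈ Good D K ((θ + b) / 2) := by
    refine ⟨hz, G, n, hn, h1, h2, h3, ?_⟩
    rw [← Real.lt_log_iff_exp_lt hpos]
    have : Real.log ‖G z‖ = n * b := by rw [hb]; field_simp
    rw [this]
    nlinarith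
  have := hA.le_of_good h4
  linarith

lemma hull_eq_of_wInf (h : ∀ z ∈ D, ω z ≤ wInf D K z) {θ : ℝ} (hθ1 : θ < 1) :
    Hull D K θ = Sub D ω θ := by
  apply Subset.antisymm _ (hA.sub_subset_hull hθ1)
  intro z hz
  refine ⟨hz.1, ?_⟩
  by_contra hcon
  push Not at hcon
  exact notMem_hull_of_good (good_of_lt hz.1 (hcon.trans_le (h z hz.1))) hz

lemma wInf_of_hull_eq (h : ∀ θ, 0 < θ → θ < 1 → Hull D K θ ⊆ Sub D ω θ) :
    ∀ z ∈ D, ω z ≤ wInf D K z := by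
  intro z hz
  by_contra hcon
  push Not at hcon
  obtain ⟨θ, h1, h2⟩ := exists_between hcon
  have hθ0 : 0 < θ := (wInf_nonneg hz).trans_lt h1
  have hθ1 : θ < 1 := h2.trans (hA.lt_one z hz)
  have h3 : z ∉ Hull D K θ := by
    intro h4
    have := (h θ hθ0 hθ1 h4).2
    linarith
  have := le_wInf (good_of_notMem_hull hA.nonempty hθ1 hz h3)
  linarith

end Admissible

end Pool.Agent.W5h46.SC
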