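import Pool.Agent.W5h46.SC.Defs

/-!
# Maximum principles and elementary facts on the harmonic measure
-/

set_option autoImplicit false

open Set Metric Filter Topology InnerProductSpace

namespace Pool.Agent.W5h46.SC

/-- near `z₀` the function `v` is the modulus of an analytic function -/
def LocNorm (v : ℂ → ℝ) (z₀ : ℂ) : Prop :=
  ∃ F : ℂ → ℂ, AnalyticAt ℂ F z₀ ∧ ∀ᶠ z in 𝓝 z₀, v z = ‖F z‖

lemma LocNorm.eventually_eq {v : ℂ → ℝ} {z₀ : ℂ} (h : LocNorm v z₀) (hm : IsLocalMax v z₀) :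
    ∀ᶠ z in 𝓝 z₀, v z = v z₀ := by
  obtain ⟨F, hF, hv⟩ := h
  have hd : ∀ᶠ z in 𝓝 z₀, DifferentiableAt ℂ F z :=
    hF.eventually_analyticAt.mono fun z hz => hz.differentiableAt
  have h1 : IsLocalMax (norm ∘ F) z₀ := by
    filter_upwards [hm, hv] with z h2 h3
    simp only [Function.comp_apply]
    rw [← h3, ← hv.self_of_nhds]
    exact h2
  filter_upwards [Complex.norm_eventually_eq_of_isLocalMax hd h1, hv] with z h2 h3
  rw [h3, h2, ← hv.self_of_nhds]

/-- maximum principle -/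
lemma max_principle {C U : Set ℂ} (hC : IsCompact C) (hU : IsOpen U) (hUC : U ⊆ C) {v : ℂ → ℝ}
    (hv : ContinuousOn v C) (hloc : ∀ z ∈ U, LocNorm v z) {z : ℂ} (hz : z ∈ C) :
    ∃ w ∈ C \ U, v z ≤ v w := by
  by_contra hcon
  push Not at hcon
  obtain ⟨z₁, hz₁, hmax⟩ := hC.exists_isMaxOn ⟨z, hz⟩ hv
  set M := v z₁ with hM
  have hle : ∀ w ∈ C, v w ≤ M := fun w hw => hmax hw
  set S : Set ℂ := C ∩ v ⁻¹' {M} with hS
  have hSc : IsClosed S := hv.preimage_isClosed_of_isClosed hC.isClosed isClosed_singleton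
  have hSU : S ⊆ U := by
    intro w hw
    by_contra hwU
    have h1 := hcon w ⟨hw.1, hwU⟩
    have h2 : v w = M := hw.2
    have h3 := hle z hz
    linarith
  have hSo : IsOpen S := by
    rw [isOpen_iff_mem_nhds]
    intro w hw
    have hwU := hSU hw
    have hUn : U ∈ 𝓝 w := hU.mem_nhds hwU
    have hwM : v w = M := hw.2
    have hlm : IsLocalMax v w := by
      filter_upwards [hUn] with y hy
      rw [hwM]
      exact hle y (hUC hy)
    filter_upwards [(hloc w hwU).eventually_eq hlm, hUn] with y h1 h2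
    exact ⟨hUC h2, by rw [mem_preimage, h1, hwM]; rfl⟩
  have hSne : S.Nonempty := ⟨z₁, hz₁, rfl⟩
  have huniv : S = univ := IsClopen.eq_univ ⟨hSc, hSo⟩ hSne
  have : IsCompact (univ : Set ℂ) := by
    rw [← huniv]
    exact hC.of_isClosed_subset hSc (fun w hw => hw.1)
  exact noncompact_univ ℂ this

lemma LocNorm.of_harm {ω : ℂ → ℝ} {z₀ : ℂ} (hω : HarmonicAt ω z₀) {g : ℂ → ℂ}
    (hg : AnalyticAt ℂ g z₀) (s : ℝ) : LocNorm (fun z => ‖g z‖ * Real.exp (s * ω z)) z₀ := by
  obtain ⟨r, hr, hball⟩ := isOpen_iff.1 (isOpen_setOfPred_harmonicAt (f := ω)) z₀ hω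
  obtain ⟨F, hF, hre⟩ := InnerProductSpace.HarmonicOnNhd.exists_analyticOnNhd_ball_re_eq
    (f := ω) (z := z₀) (R := r) (fun _ hy => hball hy)
  refine ⟨fun z => g z * Complex.exp (s * F z), ?_, ?_⟩
  · have := hF z₀ (mem_ball_self hr)
    fun_prop
  · filter_upwards [ball_mem_nhds z₀ hr] with z hz
    have h1 : (F z).re = ω z := hre hz
    rw [norm_mul, Complex.norm_exp]
    congr 2
    rw [← h1]
    simp

lemma LocNorm.of_harm' {ω : ℂ → ℝ} {z₀ : ℂ} (hω : HarmonicAt ω z₀) (s : ℝ) :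
    LocNorm (fun z => Real.exp (s * ω z)) z₀ := by
  have := LocNorm.of_harm hω (g := fun _ => 1) analyticAt_const s
  simpa using this

namespace Admissible

variable {D K : Set ℂ} {ω : ℂ → ℝ} (hA : Admissible D K ω)

include hA

lemma isOpen_diff : IsOpen (D \ K) := hA.isOpen.sdiff hA.compact.isClosed

lemma exists_notMem {L : Set ℂ} (hLD : L ⊆ D) (hL : IsCompact L) : ∃ z ∈ D, z ∉ L := by
  by_contra hcon
  push Not at hcon
  have h1 : L = D := Subset.antisymm hLD hcon
  have h2 : D = univ := IsClopen.eq_univ ⟨h1 ▸ hL.isClosed, hA.isOpen⟩ hA.connected.nonempty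
  exact noncompact_univ ℂ (h2 ▸ h1 ▸ hL)

lemma contAt {z : ℂ} (hz : z ∈ D) : ContinuousAt ω z := hA.cont.continuousAt (hA.isOpen.mem_nhds hz)

/-- maximum principle on `D` -/
lemma le_of_boundary {v : ℂ → ℝ} (hv : ContinuousOn v D) (hloc : ∀ z ∈ D \ K, LocNorm v z) {M : ℝ}
    (hK : ∀ z ∈ K, v z ≤ M) {L : Set ℂ} (hL : IsCompact L) (hLD : L ⊆ D)
    (hout : ∀ z ∈ D \ L, v z ≤ M) : ∀ z ∈ D, v z ≤ M := by
  intro z hz
  by_cases hzL : z ∈ L
  · have hC : IsCompact (L ∪ K) := hL.union hA.compact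
    have hCD : L ∪ K ⊆ D := union_subset hLD hA.subset
    have hU : IsOpen (interior L \ K) := isOpen_interior.sdiff hA.compact.isClosed
    have hUC : interior L \ K ⊆ L ∪ K := fun w hw => Or.inl (interior_subset hw.1)
    obtain ⟨w, hw, hle⟩ := max_principle hC hU hUC (hv.mono hCD)
      (fun y hy => hloc y ⟨hLD (interior_subset hy.1), hy.2⟩) (Or.inl hzL)
    refine hle.trans ?_
    by_cases hwK : w ∈ K
    · exact hK w hwK
    · have hwL : w ∈ L := hw.1.resolve_right hwK
      have hwi : w ∉ interior L := fun h => hw.2 ⟨h, hwK⟩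
      -- `w` is a limit of points outside `L`
      have hwD : w ∈ D := hLD hwL
      have h1 : w ∈ closure Lᶜ := by
        rw [closure_compl]
        exact hwi
      have h2 : w ∈ closure (D ∩ Lᶜ) := by
        rw [mem_closure_iff_nhds] at h1 ⊢
        intro t ht
        obtain ⟨y, hy1, hy2⟩ := h1 (t ∩ D) (inter_mem ht (hA.isOpen.mem_nhds hwD))
        exact ⟨y, hy1.1, hy1.2, hy2⟩
      have h3 : ContinuousWithinAt v (D ∩ Lᶜ) w := (hv w hwD).mono inter_subset_left
      have h4 := h3.mem_closure_image h2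
      have h5 : closure (v '' (D ∩ Lᶜ)) ⊆ Iic M := by
        apply closure_minimal _ isClosed_Iic
        rintro _ ⟨y, hy, rfl⟩
        exact hout y hy
      exact h5 h4
  · exact hout z ⟨hz, hzL⟩

lemma cont_exp (s : ℝ) : ContinuousOn (fun z => Real.exp (s * ω z)) D :=
  Real.continuous_exp.comp_continuousOn (continuousOn_const.mul hA.cont)

lemma loc_exp (s : ℝ) : ∀ z ∈ D \ K, LocNorm (fun z => Real.exp (s * ω z)) z :=
  fun z hz => LocNorm.of_harm' (hA.harm z hz) s

lemma nonneg : ∀ z ∈ D, 0 ≤ ω z := by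
  obtain ⟨L, hLD, hL, hout⟩ := hA.one 1 one_pos
  intro z hz
  have h1 := hA.le_of_boundary (hA.cont_exp (-1)) (hA.loc_exp (-1)) (M := 1)
    (fun z hz => by rw [hA.zero z hz]; simp) hL hLD (fun z hz => by
      have := (abs_lt.1 (hout z hz)).1
      rw [Real.exp_le_one_iff]
      linarith) z hz
  rw [Real.exp_le_one_iff] at h1
  linarith

lemma le_one : ∀ z ∈ D, ω z ≤ 1 := by
  intro z hz
  apply le_of_forall_pos_le_add
  intro ε hε
  obtain ⟨L, hLD, hL, hout⟩ := hA.one ε hε
  have h1 := hA.le_of_boundary (hA.cont_exp 1) (hA.loc_exp 1) (M := Real.exp (1 + ε))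
    (fun z hz => by
      rw [hA.zero z hz]
      apply Real.exp_le_exp.2
      linarith) hL hLD (fun z hz => by
      have := (abs_lt.1 (hout z hz)).2
      apply Real.exp_le_exp.2
      linarith) z hz
  rw [Real.exp_le_exp] at h1
  linarith

/-- strong maximum principle on `D \ K` -/
lemma eq_of_max {v : ℂ → ℝ} (hv : ContinuousOn v D) (hloc : ∀ z ∈ D \ K, LocNorm v z) {M : ℝ}
    (hle : ∀ z ∈ D \ K, v z ≤ M) {z₀ : ℂ} (hz₀ : z₀ ∈ D \ K) (h0 : v z₀ = M) :
    ∀ z ∈ D \ K, v z = M := by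
  have hpre := hA.conn_diff.isPreconnected
  have ho := hA.isOpen_diff
  have hv' : ContinuousOn v (D \ K) := hv.mono sdiff_subset
  have h1 : IsOpen {z ∈ D \ K | v z = M} := by
    rw [isOpen_iff_mem_nhds]
    rintro w ⟨hw, hwM⟩
    have hlm : IsLocalMax v w := by
      filter_upwards [ho.mem_nhds hw] with y hy
      rw [hwM]
      exact hle y hy
    filter_upwards [(hloc w hw).eventually_eq hlm, ho.mem_nhds hw] with y h1 h2
    exact ⟨h2, by rw [h1, hwM]⟩
  have h2 : IsOpen {z ∈ D \ K | v z ≠ M} := by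
    have := hv'.isOpen_inter_preimage ho (isOpen_ne (x := M))
    exact this
  by_contra hcon
  push Not at hcon
  obtain ⟨z, hz, hzM⟩ := hcon
  obtain ⟨y, hy, hy1, hy2⟩ := hpre _ _ h1 h2 (by
    intro y hy
    by_cases h : v y = M
    · exact Or.inl ⟨hy, h⟩
    · exact Or.inr ⟨hy, h⟩) ⟨z₀, hz₀, hz₀, h0⟩ ⟨z, hz, hz, hzM⟩
  exact hy2.2 hy1.2

lemma pos : ∀ z ∈ D \ K, 0 < ω z := by
  intro z hz
  rcases (hA.nonneg z hz.1).lt_or_eq with h | h
  · exact h
  exfalso
  have h1 := hA.eq_of_max (hA.cont_exp (-1)) (hA.loc_exp (-1)) (M := 1) (fun y hy => by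
    rw [Real.exp_le_one_iff]
    have := hA.nonneg y hy.1
    linarith) hz (by rw [← h]; simp)
  obtain ⟨L, hLD, hL, hout⟩ := hA.one 1 one_pos
  obtain ⟨y, hyD, hy⟩ := hA.exists_notMem (union_subset hLD hA.subset) (hL.union hA.compact)
  have h2 := h1 y ⟨hyD, fun h => hy (Or.inr h)⟩
  have h3 := (abs_lt.1 (hout y ⟨hyD, fun h => hy (Or.inl h)⟩)).1
  rw [Real.exp_eq_one_iff] at h2
  linarith

lemma exists_closure : ∃ p ∈ K, p ∈ closure (D \ K) := by
  by_contra hcon
  push Not at hcon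
  have hpre := hA.connected.isPreconnected
  have h1 : IsOpen (interior K) := isOpen_interior
  have h2 : K ⊆ interior K := by
    intro p hp
    have h3 := hcon p hp
    rw [mem_interior_iff_mem_nhds]
    have h4 : (closure (D \ K))ᶜ ∈ 𝓝 p := isClosed_closure.isOpen_compl.mem_nhds h3
    filter_upwards [h4, hA.isOpen.mem_nhds (hA.subset hp)] with y hy hyD
    by_contra hyK
    exact hy (subset_closure ⟨hyD, hyK⟩)
  obtain ⟨k, hk⟩ := hA.nonempty
  obtain ⟨d, hd⟩ := hA.conn_diff.nonempty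
  obtain ⟨y, hy, hy1, hy2⟩ := hpre _ _ h1 hA.isOpen_diff (by
    intro y hy
    by_cases h : y ∈ K
    · exact Or.inl (h2 h)
    · exact Or.inr ⟨hy, h⟩) ⟨k, hA.subset hk, h2 hk⟩ ⟨d, hd.1, hd⟩
  exact hy2.2 (interior_subset hy1)

lemma lt_one : ∀ z ∈ D, ω z < 1 := by
  intro z hz
  by_cases hzK : z ∈ K
  · rw [hA.zero z hzK]
    exact one_pos
  rcases (hA.le_one z hz).lt_or_eq with h | h
  · exact h
  exfalso
  have h1 := hA.eq_of_max (hA.cont_exp 1) (hA.loc_exp 1) (M := Real.exp 1) (fun y hy => by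
    apply Real.exp_le_exp.2
    have := hA.le_one y hy.1
    linarith) ⟨hz, hzK⟩ (by rw [h]; simp)
  obtain ⟨p, hpK, hp⟩ := hA.exists_closure
  have hpD := hA.subset hpK
  have h3 : ContinuousWithinAt ω (D \ K) p := (hA.cont p hpD).mono sdiff_subset
  have h4 := h3.mem_closure_image hp
  have h5 : closure (ω '' (D \ K)) ⊆ {1} := by
    apply closure_minimal _ isClosed_singleton
    rintro _ ⟨y, hy, rfl⟩
    have := h1 y hy
    rw [Real.exp_eq_exp] at this
    simp only [one_mul] at this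
    exact this
  have h6 := h5 h4
  rw [hA.zero p hpK] at h6
  simp at h6

end Admissible

/-- the sublevel sets -/
def Sub (D : Set ℂ) (ω : ℂ → ℝ) (c : ℝ) : Set ℂ := {z ∈ D | ω z ≤ c}

namespace Admissible

variable {D K : Set ℂ} {ω : ℂ → ℝ} (hA : Admissible D K ω)

include hA

lemma sub_compact {c : ℝ} (hc : c < 1) : IsCompact (Sub D ω c) := by
  obtain ⟨L, hLD, hL, hout⟩ := hA.one (1 - c) (by linarith)
  have h1 : Sub D ω c = L ∩ ω ⁻¹' (Iic c) := by
    ext z
    constructor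
    · rintro ⟨hz, hzc⟩
      refine ⟨?_, hzc⟩
      by_contra hzL
      have := (abs_lt.1 (hout z ⟨hz, hzL⟩)).1
      linarith
    · rintro ⟨hz, hzc⟩
      exact ⟨hLD hz, hzc⟩
  rw [h1]
  exact hL.of_isClosed_subset
    ((hA.cont.mono hLD).preimage_isClosed_of_isClosed hL.isClosed isClosed_Iic) inter_subset_left

lemma lt_open (c : ℝ) : IsOpen {z ∈ D | ω z < c} :=
  hA.cont.isOpen_inter_preimage hA.isOpen isOpen_Iio

lemma K_sub {c : ℝ} (hc : 0 ≤ c) : K ⊆ Sub D ω c :=
  fun z hz => ⟨hA.subset hz, by rw [hA.zero z hz]; exact hc⟩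

lemma mem_K_iff {z : ℂ} (hz : z ∈ D) : z ∈ K ↔ ω z = 0 := by
  constructor
  · exact hA.zero z
  · intro h
    by_contra hK
    have := hA.pos z ⟨hz, hK⟩
    linarith

lemma Dlt_eq {α : ℝ} (hα : 0 < α) : Dlt D K ω α = {z ∈ D | ω z < α} := by
  ext z
  constructor
  · rintro (hz | ⟨hz, hlt⟩)
    · exact ⟨hA.subset hz, by rw [hA.zero z hz]; exact hα⟩
    · exact ⟨hz.1, hlt⟩
  · rintro ⟨hz, hlt⟩
    by_cases hzK : z ∈ K
    · exact Or.inl hzK
    · exact Or.inr ⟨⟨hz, hzK⟩, hlt⟩

/-- open sets containing `{ω ≤ α}` contain a slightly larger sublevel set -/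
lemma exists_larger {α : ℝ} (hα : α < 1) {V : Set ℂ} (hV : IsOpen V) (h : Sub D ω α ⊆ V) :
    ∃ β, α < β ∧ β < 1 ∧ Sub D ω β ⊆ V := by
  set β₀ := (1 + α) / 2 with hβ₀
  have hβ₀1 : β₀ < 1 := by rw [hβ₀]; linarith
  have hαβ₀ : α < β₀ := by rw [hβ₀]; linarith
  have hc := hA.sub_compact hβ₀1
  have hc2 : IsCompact (Sub D ω β₀ \ V) := hc.diff hV
  by_cases hne : (Sub D ω β₀ \ V).Nonempty
  · obtain ⟨w, hw, hmin⟩ := hc2.exists_isMinOn hne
      (hA.cont.mono (fun z hz => hz.1.1))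
    have hwα : α < ω w := by
      by_contra hcon
      push Not at hcon
      exact hw.2 (h ⟨hw.1.1, hcon⟩)
    have hwβ : ω w ≤ β₀ := hw.1.2
    refine ⟨(α + ω w) / 2, by linarith, by linarith, ?_⟩
    rintro z ⟨hz, hzc⟩
    by_contra hzV
    have h1 : ω w ≤ ω z := hmin ⟨⟨hz, by linarith⟩, hzV⟩
    linarith
  · refine ⟨β₀, hαβ₀, hβ₀1, ?_⟩
    intro z hz
    by_contra hzV
    exact hne ⟨z, hz, hzV⟩

/-- `ω` is not constant near any point of `D \ K` -/
lemma not_locally_const {z₀ : ℂ} (hz₀ : z₀ ∈ D \ K) {c : ℝ} (hc : ∀ᶠ z in 𝓝 z₀, ω z = c) : False := by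
  have hpre := hA.conn_diff.isPreconnected
  have ho := hA.isOpen_diff
  set S : Set ℂ := interior {z | z ∈ D \ K ∧ ω z = c} with hS
  have hSo : IsOpen S := isOpen_interior
  have hz₀S : z₀ ∈ S := by
    rw [hS, mem_interior_iff_mem_nhds]
    filter_upwards [hc, ho.mem_nhds hz₀] with z h1 h2
    exact ⟨h2, h1⟩
  have hcl : ∀ z ∈ D \ K, z ∈ closure S → z ∈ S := by
    intro z hz hzc
    obtain ⟨r, hr, hball⟩ := isOpen_iff.1 ho z hz
    obtain ⟨F, hF, hre⟩ := InnerProductSpace.HarmonicOnNhd.exists_analyticOnNhd_ball_re_eq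
      (f := ω) (z := z) (R := r) (fun y hy => hA.harm y (hball hy))
    obtain ⟨w, hwb, hwS⟩ : (ball z r ∩ S).Nonempty :=
      mem_closure_iff_nhds.1 hzc _ (ball_mem_nhds z hr)
    have hG : AnalyticOnNhd ℂ (fun y => Complex.exp (F y)) (ball z r) := by
      intro y hy
      have := hF y hy
      fun_prop
    have hn : ∀ y ∈ ball z r, ‖Complex.exp (F y)‖ = Real.exp (ω y) := by
      intro y hy
      have h1 : (F y).re = ω y := hre hy
      rw [Complex.norm_exp, h1]
    have hlm : IsLocalMax (norm ∘ fun y => Complex.exp (F y)) w := by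
      filter_upwards [hSo.mem_nhds hwS, isOpen_ball.mem_nhds hwb] with y hy hyb
      simp only [Function.comp_apply]
      rw [hn y hyb, hn w hwb, (interior_subset hy).2, (interior_subset hwS).2]
    have hev : ∀ᶠ y in 𝓝 w, Complex.exp (F y) = Complex.exp (F w) := by
      apply Complex.eventually_eq_of_isLocalMax_norm _ hlm
      filter_upwards [isOpen_ball.mem_nhds hwb] with y hy
      exact (hG y hy).differentiableAt
    have heq : EqOn (fun y => Complex.exp (F y)) (fun _ => Complex.exp (F w)) (ball z r) :=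
      hG.eqOn_of_preconnected_of_eventuallyEq analyticOnNhd_const
        (convex_ball z r).isPreconnected hwb hev
    rw [hS, mem_interior_iff_mem_nhds]
    filter_upwards [ball_mem_nhds z hr] with y hy
    refine ⟨hball hy, ?_⟩
    have h1 := hn y hy
    have h2 : Complex.exp (F y) = Complex.exp (F w) := heq hy
    rw [h2, hn w hwb, Real.exp_eq_exp, (interior_subset hwS).2] at h1
    exact h1.symm
  have hall : ∀ z ∈ D \ K, z ∈ S := by
    by_contra hcon
    push Not at hcon
    obtain ⟨z, hz, hzS⟩ := hcon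
    obtain ⟨y, hy, hy1, hy2⟩ := hpre S (closure S)ᶜ hSo isClosed_closure.isOpen_compl (by
      intro y hy
      by_cases h : y ∈ S
      · exact Or.inl h
      · exact Or.inr (fun h' => h (hcl y hy h'))) ⟨z₀, hz₀, hz₀S⟩ ⟨z, hz, fun h => hzS (hcl z hz h)⟩
    exact hy2 (subset_closure hy1)
  have hconst : ∀ z ∈ D \ K, ω z = c := fun z hz => (interior_subset (hall z hz)).2
  -- value at a point of `K`
  obtain ⟨p, hpK, hp⟩ := hA.exists_closure
  have hpD := hA.subset hpK
  have h3 : ContinuousWithinAt ω (D \ K) p := (hA.cont p hpD).mono sdiff_subset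
  have h4 := h3.mem_closure_image hp
  have h5 : closure (ω '' (D \ K)) ⊆ {c} := by
    apply closure_minimal _ isClosed_singleton
    rintro _ ⟨y, hy, rfl⟩
    exact hconst y hy
  have h6 := h5 h4
  rw [hA.zero p hpK] at h6
  have h7 : (0 : ℝ) = c := h6
  have h8 := hA.pos z₀ hz₀
  rw [hconst z₀ hz₀] at h8
  linarith

lemma closure_Dlt {α : ℝ} (hα : 0 < α) (hα1 : α < 1) : closure (Dlt D K ω α) = Sub D ω α := by
  rw [hA.Dlt_eq hα]
  apply Subset.antisymm
  · apply closure_minimal _ (hA.sub_compact hα1).isClosed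
    rintro z ⟨hz, hlt⟩
    exact ⟨hz, hlt.le⟩
  · rintro z ⟨hz, hle⟩
    rcases hle.lt_or_eq with h | h
    · exact subset_closure ⟨hz, h⟩
    by_contra hzc
    have hzK : z ∉ K := fun hK => by
      have := hA.zero z hK
      linarith
    have h1 : (closure {z ∈ D | ω z < α})ᶜ ∈ 𝓝 z := isClosed_closure.isOpen_compl.mem_nhds hzc
    have hlm : IsLocalMax (fun y => Real.exp (-1 * ω y)) z := by
      filter_upwards [h1, hA.isOpen.mem_nhds hz] with y hy hyD
      apply Real.exp_le_exp.2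
      have : α ≤ ω y := by
        by_contra hlt
        push Not at hlt
        exact hy (subset_closure ⟨hyD, hlt⟩)
      rw [h]
      linarith
    have h2 := (hA.loc_exp (-1) z ⟨hz, hzK⟩).eventually_eq hlm
    refine hA.not_locally_const ⟨hz, hzK⟩ (c := ω z) ?_
    filter_upwards [h2] with y hy
    rw [Real.exp_eq_exp] at hy
    linarith

/-- `K` has no isolated points -/
lemma no_isolated {p : ℂ} (hp : p ∈ K) {r : ℝ} (hr : 0 < r) : ∃ q ∈ K, q ≠ p ∧ dist q p < r := by
  by_contra hcon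
  push Not at hcon
  have hpD := hA.subset hp
  obtain ⟨r₁, hr₁, hball⟩ := isOpen_iff.1 hA.isOpen p hpD
  set ρ := min r r₁ / 2 with hρ
  have hρ0 : 0 < ρ := by
    have := lt_min hr hr₁
    positivity
  have hρr : ρ < r := by
    have := min_le_left r r₁
    have := lt_min hr hr₁
    rw [hρ]; linarith
  have hρr₁ : ρ < r₁ := by
    have := min_le_right r r₁
    have := lt_min hr hr₁
    rw [hρ]; linarith
  have hsub : closedBall p ρ ⊆ D := (closedBall_subset_ball hρr₁).trans hball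
  have hK : ∀ z ∈ closedBall p ρ, z ≠ p → z ∉ K := by
    intro z hz hzp hzK
    have := hcon z hzK hzp
    rw [mem_closedBall] at hz
    linarith
  -- minimum on the sphere
  have hsc : IsCompact (sphere p ρ) := isCompact_sphere p ρ
  have hsne : (sphere p ρ).Nonempty := ⟨p + ρ, by simp [abs_of_pos hρ0]⟩
  obtain ⟨w, hw, hmin⟩ := hsc.exists_isMinOn hsne
    (hA.cont.mono (sphere_subset_closedBall.trans hsub))
  set m := ω w with hm
  have hwp : w ≠ p := by
    intro h
    rw [h, mem_sphere, dist_self] at hw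
    linarith
  have hm0 : 0 < m := hA.pos w ⟨hsub (sphere_subset_closedBall hw),
    hK w (sphere_subset_closedBall hw) hwp⟩
  have key : ∀ n : ℕ, ∀ z ∈ closedBall p ρ,
      ‖(z - p) / ρ‖ * Real.exp (-(n : ℝ) * ω z) ≤ Real.exp (-(n : ℝ) * m) := by
    intro n z hz
    set v : ℂ → ℝ := fun z => ‖(z - p) / ρ‖ * Real.exp (-(n : ℝ) * ω z) with hv
    have hvc : ContinuousOn v (closedBall p ρ) := by
      apply ContinuousOn.mul
      · fun_prop
      · exact (hA.cont_exp (-(n : ℝ))).mono hsub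
    have hU : IsOpen (ball p ρ \ {p}) := isOpen_ball.sdiff isClosed_singleton
    have hUC : ball p ρ \ {p} ⊆ closedBall p ρ := fun y hy => ball_subset_closedBall hy.1
    obtain ⟨y, hy, hle⟩ := max_principle (isCompact_closedBall p ρ) hU hUC hvc (by
      intro y hy
      have hyD : y ∈ D \ K := ⟨hsub (hUC hy), hK y (hUC hy) (fun h => hy.2 h)⟩
      exact LocNorm.of_harm (hA.harm y hyD) (g := fun z => (z - p) / ρ)
        (by fun_prop) _) hz
    refine hle.trans ?_
    by_cases hyp : y = p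
    · simp only [hv, hyp, sub_self, zero_div, norm_zero, zero_mul]
      positivity
    · have hys : y ∈ sphere p ρ := by
        have h1 := hy.1
        rw [mem_closedBall] at h1
        rw [mem_sphere]
        by_contra hne
        exact hy.2 ⟨mem_ball.2 (lt_of_le_of_ne h1 hne), hyp⟩
      have h2 : m ≤ ω y := hmin hys
      have h3 : ‖(y - p) / ρ‖ = 1 := by
        rw [norm_div, Complex.norm_real, Real.norm_of_nonneg hρ0.le]
        rw [mem_sphere, dist_eq_norm] at hys
        rw [hys, div_self hρ0.ne']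
      simp only [hv]
      rw [h3, one_mul]
      apply Real.exp_le_exp.2
      have : (0 : ℝ) ≤ n := Nat.cast_nonneg n
      nlinarith
  -- hence `ω ≥ m` on the punctured ball
  have hge : ∀ z ∈ closedBall p ρ, z ≠ p → m ≤ ω z := by
    intro z hz hzp
    by_contra hlt
    push Not at hlt
    have ha : 0 < ‖(z - p) / ρ‖ := by
      rw [norm_pos_iff]
      have : z - p ≠ 0 := sub_ne_zero.2 hzp
      have : (ρ : ℂ) ≠ 0 := by exact_mod_cast hρ0.ne'
      positivity
    have h1 : ∀ n : ℕ, ‖(z - p) / ρ‖ ≤ Real.exp (-(n : ℝ) * (m - ω z)) := by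
      intro n
      have h2 := key n z hz
      have h3 : Real.exp (-(n : ℝ) * (m - ω z)) =
          Real.exp (-(n : ℝ) * m) * Real.exp ((n : ℝ) * ω z) := by
        rw [← Real.exp_add]
        congr 1
        ring
      rw [h3]
      have h4 : Real.exp (-(n : ℝ) * ω z) * Real.exp ((n : ℝ) * ω z) = 1 := by
        rw [← Real.exp_add]
        simp
      calc ‖(z - p) / ρ‖ = ‖(z - p) / ρ‖ * Real.exp (-(n : ℝ) * ω z) * Real.exp ((n : ℝ) * ω z) := by
            rw [mul_assoc, h4, mul_one]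
        _ ≤ Real.exp (-(n : ℝ) * m) * Real.exp ((n : ℝ) * ω z) := by
          gcongr
    have h5 : Tendsto (fun n : ℕ => Real.exp (-(n : ℝ) * (m - ω z))) atTop (𝓝 0) := by
      apply Real.tendsto_exp_atBot.comp
      have h6 : Tendsto (fun n : ℕ => (n : ℝ) * (m - ω z)) atTop atTop :=
        tendsto_natCast_atTop_atTop.atTop_mul_const (by linarith)
      have h7 := tendsto_neg_atTop_atBot.comp h6
      refine h7.congr (fun n => ?_)
      simp only [Function.comp_apply]
      ring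
    have h8 : ‖(z - p) / ρ‖ ≤ 0 := ge_of_tendsto' h5 h1
    linarith
  -- contradiction with continuity at `p`
  have h1 : Tendsto ω (𝓝[≠] p) (𝓝 (ω p)) := (hA.contAt hpD).tendsto.mono_left nhdsWithin_le_nhds
  have h2 : m ≤ ω p := by
    apply ge_of_tendsto h1
    filter_upwards [self_mem_nhdsWithin, nhdsWithin_le_nhds (closedBall_mem_nhds p hρ0)] with z hz1 hz2
    exact hge z hz2 hz1
  rw [hA.zero p hp] at h2
  linarith

/-- two constants theorem on the sublevel sets -/
lemma two_constants {β : ℝ} (hβ0 : 0 < β) (hβ1 : β < 1) {g : ℂ → ℂ} {V : Set ℂ} (hV : IsOpen V)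
    (hKV : Sub D ω β ⊆ V) (hg : DifferentiableOn ℂ g V) {A B : ℝ}
    (hgK : ∀ z ∈ K, ‖g z‖ ≤ Real.exp A) (hgB : ∀ z ∈ Sub D ω β, ‖g z‖ ≤ Real.exp B) :
    ∀ z ∈ Sub D ω β, ‖g z‖ ≤ Real.exp (A + (B - A) * (ω z / β)) := by
  intro z hz
  set s : ℝ := -((B - A) / β) with hs
  set v : ℂ → ℝ := fun z => ‖g z‖ * Real.exp (s * ω z) with hv
  have hC := hA.sub_compact hβ1
  have hsubD : Sub D ω β ⊆ D := fun z hz => hz.1
  have hU : IsOpen ({z ∈ D | ω z < β} \ K) := (hA.lt_open β).sdiff hA.compact.isClosed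
  have hUC : {z ∈ D | ω z < β} \ K ⊆ Sub D ω β := fun z hz => ⟨hz.1.1, hz.1.2.le⟩
  have hvc : ContinuousOn v (Sub D ω β) := by
    apply ContinuousOn.mul
    · exact (hg.continuousOn.mono hKV).norm
    · exact (hA.cont_exp s).mono hsubD
  obtain ⟨w, hw, hle⟩ := max_principle hC hU hUC hvc (by
    intro y hy
    exact LocNorm.of_harm (hA.harm y ⟨hy.1.1, hy.2⟩)
      ((hg.analyticOnNhd hV) y (hKV (hUC hy))) s) hz
  have h1 : v w ≤ Real.exp A := by
    by_cases hwK : w ∈ K
    · simp only [hv]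
      rw [hA.zero w hwK, mul_zero, Real.exp_zero, mul_one]
      exact hgK w hwK
    · have hwβ : ω w = β := by
        apply le_antisymm hw.1.2
        by_contra hlt
        push Not at hlt
        exact hw.2 ⟨⟨hw.1.1, hlt⟩, hwK⟩
      simp only [hv]
      calc ‖g w‖ * Real.exp (s * ω w) ≤ Real.exp B * Real.exp (s * ω w) := by
            gcongr
            exact hgB w hw.1
        _ = Real.exp A := by
          rw [← Real.exp_add, hwβ, hs]
          congr 1
          field_simp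
          ring
  have h2 : ‖g z‖ * Real.exp (s * ω z) ≤ Real.exp A := hle.trans h1
  calc ‖g z‖ = ‖g z‖ * Real.exp (s * ω z) * Real.exp (-(s * ω z)) := by
        rw [mul_assoc, ← Real.exp_add, add_neg_cancel, Real.exp_zero, mul_one]
    _ ≤ Real.exp A * Real.exp (-(s * ω z)) := by gcongr
    _ = Real.exp (A + (B - A) * (ω z / β)) := by
      rw [← Real.exp_add, hs]
      congr 1
      field_simp

end Admissible

end Pool.Agent.W5h46.SC
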