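import Pool.Agent.W5h46.SC.Hull
import Pool.Agent.W5h46.SC.Hilb

/-!
# Necessity, part 1: the functionals
-/

set_option autoImplicit false

open Set Metric Filter Topology InnerProductSpace
open scoped BoundedContinuousFunction

namespace Pool.Agent.W5h46.SC

/-- analytic functions on `D`, normalised to vanish outside `D` -/
def AD (D : Set ℂ) : Submodule ℂ (ℂ → ℂ) where
  carrier := {f | DifferentiableOn ℂ f D ∧ ∀ z, z ∉ D → f z = 0}
  add_mem' := fun hf hg => ⟨hf.1.add hg.1, fun z hz => by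
    rw [Pi.add_apply, hf.2 z hz, hg.2 z hz, add_zero]⟩
  zero_mem' := ⟨differentiableOn_const _, fun _ _ => rfl⟩
  smul_mem' := fun c f hf => ⟨hf.1.const_smul c, fun z hz => by
    rw [Pi.smul_apply, hf.2 z hz, smul_zero]⟩

/-- bounded analytic functions on `D`, normalised to vanish outside `D` -/
def HD (D : Set ℂ) : Submodule ℂ (ℂ → ℂ) where
  carrier := {f | (DifferentiableOn ℂ f D ∧ ∀ z, z ∉ D → f z = 0) ∧ ∃ M : ℝ, ∀ z ∈ D, ‖f z‖ ≤ M}
  add_mem' := by
    rintro f g ⟨hf, M, hM⟩ ⟨hg, N, hN⟩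
    refine ⟨(AD D).add_mem hf hg, M + N, fun z hz => ?_⟩
    exact (norm_add_le _ _).trans (add_le_add (hM z hz) (hN z hz))
  zero_mem' := ⟨(AD D).zero_mem, 0, fun z _ => by simp⟩
  smul_mem' := by
    rintro c f ⟨hf, M, hM⟩
    refine ⟨(AD D).smul_mem c hf, ‖c‖ * M, fun z hz => ?_⟩
    rw [Pi.smul_apply, norm_smul]
    gcongr
    exact hM z hz

/-- restriction to `K` -/
def resK {K : Set ℂ} (f : ℂ → ℂ) (hf : ContinuousOn f K) : C(K, ℂ) :=
  ⟨K.domRestrict f, continuousOn_iff_continuous_domRestrict.1 hf⟩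

lemma norm_resK_le {K : Set ℂ} (hK : IsCompact K) {f : ℂ → ℂ} (hf : ContinuousOn f K) {m : ℝ}
    (hm0 : 0 ≤ m) (hm : ∀ z ∈ K, ‖f z‖ ≤ m) :
    haveI := isCompact_iff_compactSpace.1 hK
    ‖resK f hf‖ ≤ m := by
  have := isCompact_iff_compactSpace.1 hK
  rw [ContinuousMap.norm_le _ hm0]
  exact fun x => hm x x.2

/-- restriction of bounded functions to `D` -/
noncomputable def resD {D : Set ℂ} (f : HD D) : D →ᵇ ℂ :=
  BoundedContinuousFunction.ofNormedAddCommGroup (D.domRestrict (f : ℂ → ℂ))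
    (continuousOn_iff_continuous_domRestrict.1 f.2.1.1.continuousOn) f.2.2.choose
    (fun x => f.2.2.choose_spec x x.2)

lemma resD_apply {D : Set ℂ} (f : HD D) (x : D) : resD f x = (f : ℂ → ℂ) x := rfl

lemma norm_resD_le {D : Set ℂ} (f : HD D) {M : ℝ} (hM0 : 0 ≤ M) (hM : ∀ z ∈ D, ‖(f : ℂ → ℂ) z‖ ≤ M) :
    ‖resD f‖ ≤ M := by
  rw [BoundedContinuousFunction.norm_le hM0]
  exact fun x => hM x x.2

theorem exists_functionals {D K : Set ℂ} (hK : IsCompact K) (hKne : K.Nonempty) (hKD : K ⊆ D)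
    {c : ℝ} (hc0 : 0 < c) (hc1 : c < 1) {z₀ : ℂ} (hz₀ : z₀ ∈ Hull D K c) :
    ∃ φ : ℕ → C(K, ℂ) → ℂ, (∀ n u v, φ n (u + v) = φ n u + φ n v) ∧
      (∀ n (a : ℂ) u, φ n (a • u) = a * φ n u) ∧
      (∀ n u (m : ℝ), 0 ≤ m → (∀ x, ‖u x‖ ≤ m) → ‖φ n u‖ ≤ Real.exp (c * n) * m) ∧
      ∀ (n : ℕ) (f : ℂ → ℂ) (hf : ContinuousOn f K) (M : ℝ), DifferentiableOn ℂ f D →
        (∀ z ∈ D, ‖f z‖ ≤ M) → ‖f z₀ - φ n (resK f hf)‖ ≤ Real.exp (-((1 - c) * n)) * M := by
  classical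
  have := isCompact_iff_compactSpace.1 hK
  have key : ∀ n : ℕ, ∃ Λ : (C(K, ℂ) × (D →ᵇ ℂ)) →L[ℂ] ℂ, ‖Λ‖ ≤ 1 ∧ ∀ f : HD D,
      Λ ((Real.exp (c * n) : ℂ) • resK f (f.2.1.1.continuousOn.mono hKD),
        (Real.exp (-((1 - c) * n)) : ℂ) • resD f) = (f : ℂ → ℂ) z₀ := by
    intro n
    let J : HD D →ₗ[ℂ] (C(K, ℂ) × (D →ᵇ ℂ)) :=
      { toFun := fun f => ((Real.exp (c * n) : ℂ) • resK f (f.2.1.1.continuousOn.mono hKD),
          (Real.exp (-((1 - c) * n)) : ℂ) • resD f)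
        map_add' := fun f g => by
          ext x
          · change (Real.exp (c * n) : ℂ) * ((f : ℂ → ℂ) x + (g : ℂ → ℂ) x) =
              (Real.exp (c * n) : ℂ) * (f : ℂ → ℂ) x + (Real.exp (c * n) : ℂ) * (g : ℂ → ℂ) x
            ring
          · change (Real.exp (-((1 - c) * n)) : ℂ) * ((f : ℂ → ℂ) x + (g : ℂ → ℂ) x) =
              (Real.exp (-((1 - c) * n)) : ℂ) * (f : ℂ → ℂ) x +
                (Real.exp (-((1 - c) * n)) : ℂ) * (g : ℂ → ℂ) x
            ring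
        map_smul' := fun a f => by
          ext x
          · change (Real.exp (c * n) : ℂ) * (a * (f : ℂ → ℂ) x) =
              a * ((Real.exp (c * n) : ℂ) * (f : ℂ → ℂ) x)
            ring
          · change (Real.exp (-((1 - c) * n)) : ℂ) * (a * (f : ℂ → ℂ) x) =
              a * ((Real.exp (-((1 - c) * n)) : ℂ) * (f : ℂ → ℂ) x)
            ring }
    let ev : HD D →ₗ[ℂ] ℂ :=
      { toFun := fun f => (f : ℂ → ℂ) z₀
        map_add' := fun f g => rfl
        map_smul' := fun a f => rfl }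
    obtain ⟨Λ, h1, h2⟩ := exists_dual_of_le J ev zero_le_one (by
      intro f
      rw [one_mul]
      change ‖(f : ℂ → ℂ) z₀‖ ≤ ‖J f‖
      set m := ‖resK (K := K) f (f.2.1.1.continuousOn.mono hKD)‖ with hm
      set M := ‖resD f‖ with hM
      have hm0 : 0 ≤ m := norm_nonneg _
      have hM0 : 0 ≤ M := norm_nonneg _
      have h3 : ‖(f : ℂ → ℂ) z₀‖ ≤ m ^ (1 - c) * M ^ c := by
        apply hz₀.2 f m M f.2.1.1
        · intro w hw
          exact ContinuousMap.norm_coe_le_norm (resK (K := K) f (f.2.1.1.continuousOn.mono hKD)) ⟨w, hw⟩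
        · intro w hw
          exact BoundedContinuousFunction.norm_coe_le_norm (resD f) ⟨w, hw⟩
      have e1 : Real.exp (c * n) * m ≤ ‖J f‖ := by
        have : ‖(J f).1‖ ≤ ‖J f‖ := norm_fst_le _
        refine le_trans (le_of_eq ?_) this
        change _ = ‖(Real.exp (c * n) : ℂ) • resK (K := K) f (f.2.1.1.continuousOn.mono hKD)‖
        rw [norm_smul, Complex.norm_real, Real.norm_of_nonneg (Real.exp_pos _).le]
      have e2 : Real.exp (-((1 - c) * n)) * M ≤ ‖J f‖ := by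
        have : ‖(J f).2‖ ≤ ‖J f‖ := norm_snd_le _
        refine le_trans (le_of_eq ?_) this
        change _ = ‖(Real.exp (-((1 - c) * n)) : ℂ) • resD f‖
        rw [norm_smul, Complex.norm_real, Real.norm_of_nonneg (Real.exp_pos _).le]
      refine h3.trans ?_
      have e3 : m ^ (1 - c) * M ^ c =
          (Real.exp (c * n) * m) ^ (1 - c) * (Real.exp (-((1 - c) * n)) * M) ^ c := by
        rw [Real.mul_rpow (Real.exp_pos _).le hm0, Real.mul_rpow (Real.exp_pos _).le hM0,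
          ← Real.exp_mul, ← Real.exp_mul]
        have : Real.exp (c * n * (1 - c)) * Real.exp (-((1 - c) * n) * c) = 1 := by
          rw [← Real.exp_add]
          rw [show c * n * (1 - c) + -((1 - c) * n) * c = 0 by ring, Real.exp_zero]
        calc m ^ (1 - c) * M ^ c = 1 * (m ^ (1 - c) * M ^ c) := (one_mul _).symm
          _ = (Real.exp (c * n * (1 - c)) * Real.exp (-((1 - c) * n) * c)) *
              (m ^ (1 - c) * M ^ c) := by rw [this]
          _ = _ := by ring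
      rw [e3]
      have hJ0 : 0 ≤ ‖J f‖ := norm_nonneg _
      calc (Real.exp (c * n) * m) ^ (1 - c) * (Real.exp (-((1 - c) * n)) * M) ^ c
          ≤ ‖J f‖ ^ (1 - c) * ‖J f‖ ^ c := by
            have : 0 ≤ 1 - c := by linarith
            gcongr
        _ = ‖J f‖ := by
          rw [← Real.rpow_add_of_nonneg hJ0 (by linarith) hc0.le, sub_add_cancel, Real.rpow_one])
    exact ⟨Λ, h1, fun f => h2 f⟩
  choose Λ hΛ1 hΛ2 using key
  refine ⟨fun n u => Λ n ((Real.exp (c * n) : ℂ) • u, 0), fun n u v => ?_, fun n a u => ?_,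
    fun n u m hm0 hm => ?_, fun n f hf M hfd hM => ?_⟩
  · change Λ n ((Real.exp (c * n) : ℂ) • (u + v), 0) = Λ n ((Real.exp (c * n) : ℂ) • u, 0) +
      Λ n ((Real.exp (c * n) : ℂ) • v, 0)
    rw [← map_add]
    congr 1
    rw [Prod.mk_add_mk, smul_add, add_zero]
  · change Λ n ((Real.exp (c * n) : ℂ) • (a • u), 0) = a * Λ n ((Real.exp (c * n) : ℂ) • u, 0)
    have h1 : a * Λ n ((Real.exp (c * n) : ℂ) • u, 0) = Λ n (a • ((Real.exp (c * n) : ℂ) • u, 0)) := by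
      rw [map_smul, smul_eq_mul]
    rw [h1]
    congr 1
    rw [Prod.smul_mk, smul_zero, smul_comm]
  · have hu : ‖u‖ ≤ m := (ContinuousMap.norm_le _ hm0).2 hm
    calc ‖Λ n ((Real.exp (c * n) : ℂ) • u, 0)‖ ≤ ‖Λ n‖ * ‖((Real.exp (c * n) : ℂ) • u, (0 : D →ᵇ ℂ))‖ :=
          (Λ n).le_opNorm _
      _ ≤ 1 * ‖((Real.exp (c * n) : ℂ) • u, (0 : D →ᵇ ℂ))‖ := by gcongr; exact hΛ1 n
      _ = Real.exp (c * n) * ‖u‖ := by
        rw [one_mul, Prod.norm_mk, norm_zero, norm_smul, Complex.norm_real,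
          Real.norm_of_nonneg (Real.exp_pos _).le, max_eq_left (by positivity)]
      _ ≤ Real.exp (c * n) * m := by gcongr
  · have hM0 : 0 ≤ M := by
      obtain ⟨k, hk⟩ := hKne
      exact (norm_nonneg _).trans (hM k (hKD hk))
    -- the normalised function
    have hzD : z₀ ∈ D := hz₀.1
    let g : ℂ → ℂ := fun z => if z ∈ D then f z else 0
    have hg1 : ∀ z ∈ D, g z = f z := fun z hz => if_pos hz
    have hg : g ∈ HD D := ⟨⟨hfd.congr hg1, fun z hz => if_neg hz⟩, M, fun z hz => by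
      rw [hg1 z hz]; exact hM z hz⟩
    have h1 := hΛ2 n ⟨g, hg⟩
    have h2 : resK (K := K) g (hg.1.1.continuousOn.mono hKD) = resK f hf := by
      ext x
      exact hg1 x (hKD x.2)
    change Λ n ((Real.exp (c * n) : ℂ) • resK (K := K) g (hg.1.1.continuousOn.mono hKD),
        (Real.exp (-((1 - c) * n)) : ℂ) • resD ⟨g, hg⟩) = g z₀ at h1
    rw [h2, hg1 z₀ hzD] at h1
    have h3 : f z₀ - Λ n ((Real.exp (c * n) : ℂ) • resK f hf, 0) =
        Λ n (0, (Real.exp (-((1 - c) * n)) : ℂ) • resD ⟨g, hg⟩) := by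
      rw [← h1, ← map_sub]
      congr 1
      rw [Prod.mk_sub_mk, sub_self, sub_zero]
    rw [h3]
    calc ‖Λ n (0, (Real.exp (-((1 - c) * n)) : ℂ) • resD ⟨g, hg⟩)‖
        ≤ ‖Λ n‖ * ‖((0 : C(K, ℂ)), (Real.exp (-((1 - c) * n)) : ℂ) • resD ⟨g, hg⟩)‖ :=
          (Λ n).le_opNorm _
      _ ≤ 1 * ‖((0 : C(K, ℂ)), (Real.exp (-((1 - c) * n)) : ℂ) • resD ⟨g, hg⟩)‖ := by
        gcongr; exact hΛ1 n
      _ = Real.exp (-((1 - c) * n)) * ‖resD ⟨g, hg⟩‖ := by
        rw [one_mul, Prod.norm_mk, norm_zero, norm_smul, Complex.norm_real,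
          Real.norm_of_nonneg (Real.exp_pos _).le, max_eq_right (by positivity)]
      _ ≤ Real.exp (-((1 - c) * n)) * M := by
        gcongr
        exact norm_resD_le _ hM0 (fun z hz => by
          change ‖g z‖ ≤ M
          rw [hg1 z hz]; exact hM z hz)

end Pool.Agent.W5h46.SC
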