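import Pool.Agent.W5h46.SC.Nec1

/-!
# Necessity, part 2: the Hilbert space `H₁`
-/

set_option autoImplicit false

open Set Metric Filter Topology InnerProductSpace
open scoped ENNReal

namespace Pool.Agent.W5h46.SC

lemma exists_balls {D : Set ℂ} (hD : IsOpen D) (hne : D.Nonempty) :
    ∃ (c : ℕ → ℂ) (r : ℕ → ℝ), (∀ i, 0 < r i) ∧ (∀ i, closedBall (c i) (2 * r i) ⊆ D) ∧
      D ⊆ ⋃ i, ball (c i) (r i) := by
  have h : ∀ z ∈ D, ∃ ε : ℝ, 0 < ε ∧ closedBall z (2 * ε) ⊆ D := by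
    intro z hz
    obtain ⟨ε, hε, hb⟩ := isOpen_iff.1 hD z hz
    exact ⟨ε / 4, by positivity, (closedBall_subset_ball (by linarith)).trans hb⟩
  choose! ε hε hb using h
  obtain ⟨t, htD, htc, ht⟩ := TopologicalSpace.countable_cover_nhdsWithin
    (f := fun z => ball z (ε z)) (s := D)
    (fun z hz => mem_nhdsWithin_of_mem_nhds (ball_mem_nhds z (hε z hz)))
  have htne : t.Nonempty := by
    obtain ⟨z, hz⟩ := hne
    obtain ⟨x, hx⟩ := mem_iUnion.1 (ht hz)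
    obtain ⟨hxt, _⟩ := mem_iUnion.1 hx
    exact ⟨x, hxt⟩
  obtain ⟨c, hc⟩ := htc.exists_eq_range htne
  have hcD : ∀ i, c i ∈ D := fun i => htD (by rw [hc]; exact ⟨i, rfl⟩)
  refine ⟨c, fun i => ε (c i), fun i => hε _ (hcD i), fun i => hb _ (hcD i), ?_⟩
  intro z hz
  obtain ⟨x, hx⟩ := mem_iUnion.1 (ht hz)
  obtain ⟨hxt, hzx⟩ := mem_iUnion.1 hx
  rw [hc] at hxt
  obtain ⟨i, rfl⟩ := hxt
  exact mem_iUnion.2 ⟨i, hzx⟩

/-- normalised Taylor coefficients -/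
noncomputable def Tay (c : ℂ) (r : ℝ) (f : ℂ → ℂ) (k : ℕ) : ℂ :=
  ((k.factorial : ℂ))⁻¹ * iteratedDeriv k f c * ((3 / 2 * r : ℝ) : ℂ) ^ k

lemma Tay_le {D : Set ℂ} {c : ℂ} {r : ℝ} (hr : 0 < r) (hb : closedBall c (2 * r) ⊆ D) {f : ℂ → ℂ}
    (hf : DifferentiableOn ℂ f D) {M : ℝ} (hM : ∀ z ∈ closedBall c (2 * r), ‖f z‖ ≤ M) (k : ℕ) :
    ‖Tay c r f k‖ ≤ (3 / 4) ^ k * M := by
  have hd : DiffContOnCl ℂ f (ball c (2 * r)) := by
    apply DifferentiableOn.diffContOnCl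
    rw [closure_ball _ (by positivity)]
    exact hf.mono hb
  have h1 := Complex.norm_iteratedDeriv_le_of_forall_mem_sphere_norm_le k (R := 2 * r)
    (by positivity) hd (fun z hz => hM z (sphere_subset_closedBall hz))
  unfold Tay
  rw [norm_mul, norm_mul, norm_inv, norm_pow, Complex.norm_real,
    Real.norm_of_nonneg (by positivity), Complex.norm_natCast]
  have hf0 : (0 : ℝ) < k.factorial := by exact_mod_cast Nat.factorial_pos k
  calc (k.factorial : ℝ)⁻¹ * ‖iteratedDeriv k f c‖ * (3 / 2 * r) ^ k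
      ≤ (k.factorial : ℝ)⁻¹ * (k.factorial * M / (2 * r) ^ k) * (3 / 2 * r) ^ k := by gcongr
    _ = (3 / 4) ^ k * M := by
      rw [show (3 / 2 * r : ℝ) = 3 / 4 * (2 * r) by ring, mul_pow (3 / 4 : ℝ)]
      field_simp

lemma le_of_Tay {D : Set ℂ} {c : ℂ} {r : ℝ} (hr : 0 < r) (hb : closedBall c (2 * r) ⊆ D) {f : ℂ → ℂ}
    (hf : DifferentiableOn ℂ f D) {N : ℝ} (hN : ∀ k, ‖Tay c r f k‖ ≤ N) {z : ℂ} (hz : z ∈ ball c r) :
    ‖f z‖ ≤ 3 * N := by
  have hf' : DifferentiableOn ℂ f (ball c (2 * r)) := hf.mono (ball_subset_closedBall.trans hb)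
  have hz' : z ∈ ball c (2 * r) := ball_subset_ball (by linarith) hz
  have h1 := Complex.hasSum_taylorSeries_on_ball hf' hz'
  rw [mem_ball, dist_eq_norm] at hz
  have hsum : HasSum (fun k : ℕ => (2 / 3 : ℝ) ^ k * N) (3 * N) := by
    have h2 := (hasSum_geometric_of_lt_one (r := (2 / 3 : ℝ)) (by norm_num) (by norm_num)).mul_right N
    norm_num at h2
    exact h2
  have hle : ∀ k : ℕ, ‖((k.factorial : ℂ))⁻¹ • (z - c) ^ k • iteratedDeriv k f c‖ ≤
      (2 / 3 : ℝ) ^ k * N := by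
    intro k
    have h3 := hN k
    have hpos : 0 < (3 / 2 * r) ^ k := by positivity
    have e1 : ‖((k.factorial : ℂ))⁻¹ • (z - c) ^ k • iteratedDeriv k f c‖ * (3 / 2 * r) ^ k =
        ‖z - c‖ ^ k * ‖Tay c r f k‖ := by
      unfold Tay
      rw [norm_smul, norm_smul, norm_mul, norm_mul, norm_pow, norm_pow, Complex.norm_real,
        Real.norm_of_nonneg (by positivity : (0 : ℝ) ≤ 3 / 2 * r)]
      ring
    have h4 : ‖z - c‖ ^ k ≤ r ^ k := by gcongr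
    have h5 : ‖((k.factorial : ℂ))⁻¹ • (z - c) ^ k • iteratedDeriv k f c‖ * (3 / 2 * r) ^ k ≤
        (2 / 3 : ℝ) ^ k * N * (3 / 2 * r) ^ k := by
      rw [e1]
      calc ‖z - c‖ ^ k * ‖Tay c r f k‖ ≤ r ^ k * N := by gcongr
        _ = (2 / 3 : ℝ) ^ k * N * (3 / 2 * r) ^ k := by
          have : (2 / 3 : ℝ) ^ k * (3 / 2 * r) ^ k = r ^ k := by
            rw [← mul_pow]
            congr 1
            ring
          calc r ^ k * N = ((2 / 3 : ℝ) ^ k * (3 / 2 * r) ^ k) * N := by rw [this]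
            _ = _ := by ring
    exact le_of_mul_le_mul_right h5 hpos
  exact (h1.norm_le_of_bounded hsum hle)

lemma Tay_add {D : Set ℂ} (hD : IsOpen D) {c : ℂ} (hc : c ∈ D) {r : ℝ} {f g : ℂ → ℂ}
    (hf : DifferentiableOn ℂ f D) (hg : DifferentiableOn ℂ g D) (k : ℕ) :
    Tay c r (f + g) k = Tay c r f k + Tay c r g k := by
  unfold Tay
  rw [iteratedDeriv_add ((hf.analyticAt (hD.mem_nhds hc)).contDiffAt)
    ((hg.analyticAt (hD.mem_nhds hc)).contDiffAt)]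
  ring

lemma Tay_smul {c : ℂ} {r : ℝ} (a : ℂ) (f : ℂ → ℂ) (k : ℕ) :
    Tay c r (a • f) k = a * Tay c r f k := by
  unfold Tay
  rw [iteratedDeriv_const_smul_field]
  change _ * (a * iteratedDeriv k f c) * _ = _
  ring

/-- index set of the data -/
abbrev Jx : Type := (ℕ × ℕ) ⊕ ℕ

/-- the parameters of the construction -/
structure Par (D K : Set ℂ) (z₀ : ℂ) (s : ℝ) where
  hD : IsOpen D
  hK : IsCompact K
  hne : K.Nonempty
  hKD : K ⊆ D
  hz₀ : z₀ ∈ D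
  c : ℕ → ℂ
  r : ℕ → ℝ
  hr : ∀ i, 0 < r i
  hb : ∀ i, closedBall (c i) (2 * r i) ⊆ D
  hcov : D ⊆ ⋃ i, ball (c i) (r i)
  φ : ℕ → C(K, ℂ) → ℂ
  hφa : ∀ n u v, φ n (u + v) = φ n u + φ n v
  hφs : ∀ n (a : ℂ) u, φ n (a • u) = a * φ n u
  hφn : ∀ n u (m : ℝ), 0 ≤ m → (∀ x, ‖u x‖ ≤ m) → ‖φ n u‖ ≤ Real.exp (s * n) * m
  hφ : ∀ (n : ℕ) (f : ℂ → ℂ) (hf : ContinuousOn f K) (M : ℝ), DifferentiableOn ℂ f D →
    (∀ z ∈ D, ‖f z‖ ≤ M) → ‖f z₀ - φ n (resK f hf)‖ ≤ Real.exp (-((1 - s) * n)) * M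

namespace Par

variable {D K : Set ℂ} {z₀ : ℂ} {s : ℝ} (P : Par D K z₀ s)

include P in
lemma cont (f : AD D) : ContinuousOn (f : ℂ → ℂ) K := f.2.1.continuousOn.mono P.hKD

lemma hc (i : ℕ) : P.c i ∈ D :=
  P.hb i (mem_closedBall_self (by have := P.hr i; positivity))

/-- the data of a function -/
noncomputable def dat : AD D →ₗ[ℂ] (Jx → ℂ) where
  toFun f := Sum.elim (fun p : ℕ × ℕ => (1 / 2 : ℂ) ^ p.1 * Tay (P.c p.1) (P.r p.1) f p.2)
    (fun n : ℕ => ((n + 1 : ℝ)⁻¹ * Real.exp ((1 - s) * n) : ℝ) *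
      ((f : ℂ → ℂ) z₀ - P.φ n (resK f (P.cont f))))
  map_add' f g := by
    funext i
    rcases i with p | n
    · simp only [Sum.elim_inl, Pi.add_apply]
      rw [← mul_add]
      congr 1
      exact Tay_add P.hD (P.hc p.1) f.2.1 g.2.1 _
    · simp only [Sum.elim_inr, Pi.add_apply]
      rw [← mul_add]
      congr 1
      have h1 : resK (K := K) ((f + g : AD D) : ℂ → ℂ) (P.cont (f + g)) =
          resK f (P.cont f) + resK g (P.cont g) := by
        ext x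
        rfl
      rw [h1, P.hφa]
      change (f : ℂ → ℂ) z₀ + (g : ℂ → ℂ) z₀ - _ = _
      ring
  map_smul' a f := by
    funext i
    rcases i with p | n
    · simp only [Sum.elim_inl, Pi.smul_apply, RingHom.id_apply]
      have h1 : Tay (P.c p.1) (P.r p.1) ((a • f : AD D) : ℂ → ℂ) p.2 =
          a * Tay (P.c p.1) (P.r p.1) f p.2 := Tay_smul a _ _
      rw [h1, smul_eq_mul]
      ring
    · simp only [Sum.elim_inr, Pi.smul_apply, RingHom.id_apply]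
      have h1 : resK (K := K) ((a • f : AD D) : ℂ → ℂ) (P.cont (a • f)) =
          a • resK f (P.cont f) := by
        ext x
        rfl
      rw [h1, P.hφs, smul_eq_mul]
      change _ * (a * (f : ℂ → ℂ) z₀ - _) = _
      ring

lemma dat_inl (f : AD D) (i k : ℕ) :
    P.dat f (Sum.inl (i, k)) = (1 / 2 : ℂ) ^ i * Tay (P.c i) (P.r i) f k := rfl

lemma dat_inr (f : AD D) (n : ℕ) : P.dat f (Sum.inr n) =
    ((n + 1 : ℝ)⁻¹ * Real.exp ((1 - s) * n) : ℝ) * ((f : ℂ → ℂ) z₀ - P.φ n (resK f (P.cont f))) := rfl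

/-- control of the function on a ball by its data -/
lemma le_ball {f : AD D} {N : ℝ} (hN : ∀ i, ‖P.dat f i‖ ≤ N) {i : ℕ} {z : ℂ}
    (hz : z ∈ ball (P.c i) (P.r i)) : ‖(f : ℂ → ℂ) z‖ ≤ 3 * (2 ^ i * N) := by
  apply le_of_Tay (P.hr i) (P.hb i) f.2.1 _ hz
  intro k
  have h1 := hN (Sum.inl (i, k))
  rw [P.dat_inl, norm_mul, norm_pow] at h1
  have h2 : ‖(1 / 2 : ℂ)‖ = 1 / 2 := by
    rw [norm_div, norm_one, Complex.norm_ofNat]
  rw [h2] at h1
  have h3 : (2 : ℝ) ^ i * ((1 / 2) ^ i * ‖Tay (P.c i) (P.r i) f k‖) = ‖Tay (P.c i) (P.r i) f k‖ := by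
    rw [← mul_assoc, ← mul_pow]
    norm_num
  rw [← h3]
  gcongr

lemma le_compact {L : Set ℂ} (hL : IsCompact L) (hLD : L ⊆ D) :
    ∃ C : ℝ, 0 ≤ C ∧ ∀ (f : AD D) (N : ℝ), (∀ i, ‖P.dat f i‖ ≤ N) → ∀ z ∈ L,
      ‖(f : ℂ → ℂ) z‖ ≤ C * N := by
  obtain ⟨t, ht⟩ := hL.elim_finite_subcover (fun i => ball (P.c i) (P.r i)) (fun _ => isOpen_ball)
    (hLD.trans P.hcov)
  refine ⟨∑ i ∈ t, 3 * 2 ^ i, by positivity, fun f N hN z hz => ?_⟩
  obtain ⟨i, hi⟩ := mem_iUnion.1 (ht hz)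
  obtain ⟨hit, hzi⟩ := mem_iUnion.1 hi
  have hN0 : 0 ≤ N := (norm_nonneg _).trans (hN (Sum.inr 0))
  calc ‖(f : ℂ → ℂ) z‖ ≤ 3 * (2 ^ i * N) := P.le_ball hN hzi
    _ = (3 * 2 ^ i) * N := by ring
    _ ≤ (∑ i ∈ t, 3 * 2 ^ i) * N := by
      apply mul_le_mul_of_nonneg_right _ hN0
      exact Finset.single_le_sum (f := fun i => (3 : ℝ) * 2 ^ i) (fun i _ => by positivity) hit

/-- continuity of the data -/
lemma dat_cont (i : Jx) : ∃ (L : Set ℂ) (C : ℝ), IsCompact L ∧ L ⊆ D ∧ 0 ≤ C ∧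
    ∀ (f : AD D) (M : ℝ), (∀ z ∈ L, ‖(f : ℂ → ℂ) z‖ ≤ M) → ‖P.dat f i‖ ≤ C * M := by
  rcases i with ⟨i, k⟩ | n
  · refine ⟨closedBall (P.c i) (2 * P.r i), ‖(1 / 2 : ℂ) ^ i‖ * (3 / 4) ^ k, isCompact_closedBall _ _,
      P.hb i, by positivity, fun f M hM => ?_⟩
    rw [P.dat_inl, norm_mul, mul_assoc]
    gcongr
    exact Tay_le (P.hr i) (P.hb i) f.2.1 hM k
  · refine ⟨K ∪ {z₀}, ‖(((n + 1 : ℝ)⁻¹ * Real.exp ((1 - s) * n) : ℝ) : ℂ)‖ * (1 + Real.exp (s * n)),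
      P.hK.union isCompact_singleton, union_subset P.hKD (singleton_subset_iff.2 P.hz₀),
      by positivity, fun f M hM => ?_⟩
    have h1 : ‖(f : ℂ → ℂ) z₀‖ ≤ M := hM z₀ (Or.inr rfl)
    have hM0 : 0 ≤ M := (norm_nonneg _).trans h1
    have h2 := P.hφn n (resK f (P.cont f)) M hM0 (fun x => hM x (Or.inl x.2))
    rw [P.dat_inr, norm_mul, mul_assoc]
    gcongr
    calc ‖(f : ℂ → ℂ) z₀ - P.φ n (resK f (P.cont f))‖ ≤
          ‖(f : ℂ → ℂ) z₀‖ + ‖P.φ n (resK f (P.cont f))‖ := norm_sub_le _ _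
      _ ≤ M + Real.exp (s * n) * M := add_le_add h1 h2
      _ = (1 + Real.exp (s * n)) * M := by ring

lemma dat_inj : Function.Injective P.dat := by
  rw [injective_iff_map_eq_zero]
  intro f hf
  apply Subtype.ext
  funext z
  by_cases hz : z ∈ D
  · obtain ⟨i, hi⟩ := mem_iUnion.1 (P.hcov hz)
    have h1 := P.le_ball (f := f) (N := 0) (fun i => by rw [hf]; simp) hi
    rw [mul_zero, mul_zero] at h1
    exact norm_le_zero_iff.1 h1
  · exact f.2.2 z hz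

/-- the coordinates as a linear map -/
def coords : lp (fun _ : Jx => ℂ) 2 →ₗ[ℂ] (Jx → ℂ) where
  toFun v := v
  map_add' _ _ := rfl
  map_smul' _ _ := rfl

/-- the Hilbert space `H₁` -/
noncomputable def Eo : Submodule ℂ (lp (fun _ : Jx => ℂ) 2) :=
  (LinearMap.range P.dat).comap coords

/-- the function of an element of `H₁` -/
noncomputable def fn : P.Eo →ₗ[ℂ] AD D :=
  (LinearEquiv.ofInjective P.dat P.dat_inj).symm.toLinearMap.comp
    ((coords.comp P.Eo.subtype).codRestrict (LinearMap.range P.dat) (fun v => v.2))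

lemma dat_fn (v : P.Eo) (i : Jx) : P.dat (P.fn v) i = (v : lp (fun _ : Jx => ℂ) 2) i := by
  have h1 : LinearEquiv.ofInjective P.dat P.dat_inj (P.fn v) =
      (coords.comp P.Eo.subtype).codRestrict (LinearMap.range P.dat) (fun v => v.2) v :=
    LinearEquiv.apply_symm_apply _ _
  have h2 := congrArg Subtype.val h1
  exact congrFun h2 i

lemma dat_fn_le (v : P.Eo) (i : Jx) : ‖P.dat (P.fn v) i‖ ≤ ‖v‖ := by
  rw [P.dat_fn]
  exact lp.norm_apply_le_norm (by norm_num) _ i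

lemma closed : IsClosed (P.Eo : Set (lp (fun _ : Jx => ℂ) 2)) := by
  apply IsSeqClosed.isClosed
  intro x v hx hv
  -- the functions
  set f : ℕ → AD D := fun n => P.fn ⟨x n, hx n⟩ with hf
  have hd : ∀ n m, ∀ i, ‖P.dat (f n - f m) i‖ ≤ ‖x n - x m‖ := by
    intro n m i
    rw [hf]
    simp only
    rw [← map_sub]
    exact P.dat_fn_le _ i
  have hcau : ∀ L : Set ℂ, IsCompact L → L ⊆ D → ∃ C : ℝ, 0 ≤ C ∧ ∀ n m, ∀ z ∈ L,
      ‖(f n : ℂ → ℂ) z - (f m : ℂ → ℂ) z‖ ≤ C * ‖x n - x m‖ := by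
    intro L hL hLD
    obtain ⟨C, hC, h⟩ := P.le_compact hL hLD
    exact ⟨C, hC, fun n m z hz => h (f n - f m) _ (hd n m) z hz⟩
  have hxc : CauchySeq x := hv.cauchySeq
  -- pointwise limits
  have hlim : ∀ z, ∃ a : ℂ, Tendsto (fun n => (f n : ℂ → ℂ) z) atTop (𝓝 a) ∧ (z ∉ D → a = 0) := by
    intro z
    by_cases hz : z ∈ D
    · obtain ⟨C, hC, h⟩ := hcau {z} isCompact_singleton (singleton_subset_iff.2 hz)
      have h1 : CauchySeq (fun n => (f n : ℂ → ℂ) z) := by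
        rw [Metric.cauchySeq_iff] at hxc ⊢
        intro ε hε
        obtain ⟨N, hN⟩ := hxc (ε / (C + 1)) (by positivity)
        refine ⟨N, fun m hm n hn => ?_⟩
        have h2 := h m n z rfl
        have h3 := hN m hm n hn
        rw [dist_eq_norm] at h3 ⊢
        calc ‖(f m : ℂ → ℂ) z - (f n : ℂ → ℂ) z‖ ≤ C * ‖x m - x n‖ := h2
          _ ≤ (C + 1) * ‖x m - x n‖ := by gcongr; linarith
          _ < (C + 1) * (ε / (C + 1)) := by gcongr
          _ = ε := by field_simp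
      obtain ⟨a, ha⟩ := cauchySeq_tendsto_of_complete h1
      exact ⟨a, ha, fun h => absurd hz h⟩
    · refine ⟨0, ?_, fun _ => rfl⟩
      have : (fun n => (f n : ℂ → ℂ) z) = fun _ => 0 := by
        funext n
        exact (f n).2.2 z hz
      rw [this]
      exact tendsto_const_nhds
  choose g hg hg0 using hlim
  have hgL : ∀ L : Set ℂ, IsCompact L → L ⊆ D → ∃ C : ℝ, 0 ≤ C ∧ ∀ n, ∀ z ∈ L,
      ‖(f n : ℂ → ℂ) z - g z‖ ≤ C * ‖x n - v‖ := by
    intro L hL hLD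
    obtain ⟨C, hC, h⟩ := hcau L hL hLD
    refine ⟨C, hC, fun n z hz => ?_⟩
    have h1 : Tendsto (fun m => ‖(f n : ℂ → ℂ) z - (f m : ℂ → ℂ) z‖) atTop
        (𝓝 ‖(f n : ℂ → ℂ) z - g z‖) := (tendsto_const_nhds.sub (hg z)).norm
    have h2 : Tendsto (fun m => C * ‖x n - x m‖) atTop (𝓝 (C * ‖x n - v‖)) :=
      ((tendsto_const_nhds.sub hv).norm).const_mul C
    exact le_of_tendsto_of_tendsto' h1 h2 (fun m => h n m z hz)
  have hxv : Tendsto (fun n => ‖x n - v‖) atTop (𝓝 0) := tendsto_iff_norm_sub_tendsto_zero.1 hv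
  have hgd : DifferentiableOn ℂ g D := by
    have h1 : TendstoLocallyUniformlyOn (fun n => (f n : ℂ → ℂ)) g atTop D := by
      rw [tendstoLocallyUniformlyOn_iff_forall_isCompact P.hD]
      intro L hLD hL
      obtain ⟨C, hC, h⟩ := hgL L hL hLD
      rw [Metric.tendstoUniformlyOn_iff]
      intro ε hε
      have h2 : Tendsto (fun n => C * ‖x n - v‖) atTop (𝓝 0) := by
        have := hxv.const_mul C
        rwa [mul_zero] at this
      filter_upwards [h2.eventually (gt_mem_nhds hε)] with n hn z hz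
      rw [dist_comm, dist_eq_norm]
      exact (h n z hz).trans_lt hn
    exact h1.differentiableOn (Eventually.of_forall fun n => (f n).2.1) P.hD
  let G : AD D := ⟨g, hgd, fun z hz => hg0 z hz⟩
  refine ⟨G, ?_⟩
  funext i
  obtain ⟨L, C, hL, hLD, hC, h⟩ := P.dat_cont i
  obtain ⟨C', hC', h'⟩ := hgL L hL hLD
  have h1 : ∀ n, ‖P.dat (f n) i - P.dat G i‖ ≤ C * (C' * ‖x n - v‖) := by
    intro n
    have h2 : P.dat (f n) i - P.dat G i = P.dat (f n - G) i := by rw [map_sub]; rfl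
    rw [h2]
    exact h _ _ (fun z hz => h' n z hz)
  have h2 : Tendsto (fun n => P.dat (f n) i) atTop (𝓝 (P.dat G i)) := by
    rw [tendsto_iff_norm_sub_tendsto_zero]
    have h3 : Tendsto (fun n => C * (C' * ‖x n - v‖)) atTop (𝓝 0) := by
      have := (hxv.const_mul C').const_mul C
      rwa [mul_zero, mul_zero] at this
    exact squeeze_zero (fun _ => norm_nonneg _) h1 h3
  have h3 : Tendsto (fun n => (x n : Jx → ℂ) i) atTop (𝓝 ((v : Jx → ℂ) i)) := by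
    rw [tendsto_iff_norm_sub_tendsto_zero]
    refine squeeze_zero (fun _ => norm_nonneg _) (fun n => ?_) hxv
    exact lp.norm_apply_le_norm (by norm_num) (x n - v) i
  have h4 : (fun n => P.dat (f n) i) = fun n => (x n : Jx → ℂ) i := by
    funext n
    exact P.dat_fn _ i
  rw [h4] at h2
  exact tendsto_nhds_unique h2 h3

instance : CompleteSpace P.Eo := P.closed.completeSpace_coe

/-- weights of the bound for bounded functions -/
noncomputable def uw : Jx → ℝ := Sum.elim (fun p : ℕ × ℕ => (1 / 2) ^ p.1 * (3 / 4) ^ p.2)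
    (fun n : ℕ => (n + 1 : ℝ)⁻¹)

lemma uw_nonneg (i : Jx) : 0 ≤ uw i := by
  rcases i with p | n
  · change (0 : ℝ) ≤ (1 / 2) ^ p.1 * (3 / 4) ^ p.2
    positivity
  · change (0 : ℝ) ≤ (n + 1 : ℝ)⁻¹
    positivity

lemma summable_uw : Summable (fun i => uw i ^ 2) := by
  apply Summable.sum
  · have h1 : Summable (fun n : ℕ => ((1 / 2 : ℝ) ^ n) ^ 2) := by
      have : (fun n : ℕ => ((1 / 2 : ℝ) ^ n) ^ 2) = fun n : ℕ => (1 / 4 : ℝ) ^ n := by
        funext n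
        rw [← pow_mul, mul_comm, pow_mul]
        norm_num
      rw [this]
      exact summable_geometric_of_lt_one (by norm_num) (by norm_num)
    have h2 : Summable (fun n : ℕ => ((3 / 4 : ℝ) ^ n) ^ 2) := by
      have : (fun n : ℕ => ((3 / 4 : ℝ) ^ n) ^ 2) = fun n : ℕ => (9 / 16 : ℝ) ^ n := by
        funext n
        rw [← pow_mul, mul_comm, pow_mul]
        norm_num
      rw [this]
      exact summable_geometric_of_lt_one (by norm_num) (by norm_num)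
    refine (h1.mul_of_nonneg h2 (fun _ => by positivity) (fun _ => by positivity)).congr
      (fun p => ?_)
    simp only [Function.comp, uw, Sum.elim_inl]
    ring
  · have h1 : Summable (fun n : ℕ => 1 / ((n : ℝ) + 1) ^ 2) := by
      have h2 := (Real.summable_one_div_nat_pow (p := 2)).2 (by norm_num)
      have h3 := (summable_nat_add_iff 1).2 h2
      refine h3.congr (fun n => ?_)
      push_cast
      rfl
    refine h1.congr (fun n => ?_)
    simp only [Function.comp, uw, Sum.elim_inr]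
    rw [one_div, inv_pow]

lemma dat_le_uw {f : AD D} {M : ℝ} (hM : ∀ z ∈ D, ‖(f : ℂ → ℂ) z‖ ≤ M) (i : Jx) :
    ‖P.dat f i‖ ≤ uw i * M := by
  rcases i with ⟨i, k⟩ | n
  · rw [P.dat_inl, norm_mul, norm_pow]
    have h2 : ‖(1 / 2 : ℂ)‖ = 1 / 2 := by
      rw [norm_div, norm_one, Complex.norm_ofNat]
    rw [h2]
    change _ ≤ (1 / 2) ^ i * (3 / 4) ^ k * M
    rw [mul_assoc]
    gcongr
    exact Tay_le (P.hr i) (P.hb i) f.2.1 (fun z hz => hM z (P.hb i hz)) k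
  · rw [P.dat_inr, norm_mul, Complex.norm_real, Real.norm_of_nonneg (by positivity)]
    change _ ≤ (n + 1 : ℝ)⁻¹ * M
    have h1 := P.hφ n f (P.cont f) M f.2.1 hM
    calc (n + 1 : ℝ)⁻¹ * Real.exp ((1 - s) * n) * ‖(f : ℂ → ℂ) z₀ - P.φ n (resK f (P.cont f))‖
        ≤ (n + 1 : ℝ)⁻¹ * Real.exp ((1 - s) * n) * (Real.exp (-((1 - s) * n)) * M) := by gcongr
      _ = (n + 1 : ℝ)⁻¹ * M := by
        have : Real.exp ((1 - s) * n) * Real.exp (-((1 - s) * n)) = 1 := by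
          rw [← Real.exp_add, add_neg_cancel, Real.exp_zero]
        calc _ = (n + 1 : ℝ)⁻¹ * (Real.exp ((1 - s) * n) * Real.exp (-((1 - s) * n))) * M := by ring
          _ = _ := by rw [this, mul_one]

lemma exists_elem {f : AD D} {M : ℝ} (hM : ∀ z ∈ D, ‖(f : ℂ → ℂ) z‖ ≤ M) :
    ∃ v : P.Eo, P.fn v = f ∧ ‖v‖ ≤ Real.sqrt (∑' i, uw i ^ 2) * M := by
  have hM0 : 0 ≤ M := (norm_nonneg _).trans (hM z₀ P.hz₀)
  have h2 : (2 : ℝ≥0∞).toReal = ((2 : ℕ) : ℝ) := by simp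
  have hterm : ∀ i, ‖P.dat f i‖ ^ (2 : ℝ≥0∞).toReal ≤ M ^ 2 * uw i ^ 2 := by
    intro i
    rw [h2, Real.rpow_natCast, ← mul_pow, mul_comm M]
    gcongr
    exact P.dat_le_uw hM i
  have hsum : Summable (fun i => ‖P.dat f i‖ ^ (2 : ℝ≥0∞).toReal) :=
    Summable.of_nonneg_of_le (fun i => by positivity) hterm (summable_uw.mul_left _)
  have hmem : Memℓp (P.dat f) 2 := memℓp_gen hsum
  let v0 : lp (fun _ : Jx => ℂ) 2 := ⟨P.dat f, hmem⟩
  let v : P.Eo := ⟨v0, f, rfl⟩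
  refine ⟨v, ?_, ?_⟩
  · apply P.dat_inj
    funext i
    exact P.dat_fn v i
  · have hp : 0 < (2 : ℝ≥0∞).toReal := by simp
    have h1 := lp.norm_rpow_eq_tsum hp v0
    have h3 : (∑' i, ‖v0 i‖ ^ (2 : ℝ≥0∞).toReal) ≤ M ^ 2 * ∑' i, uw i ^ 2 := by
      rw [← tsum_mul_left]
      exact Summable.tsum_le_tsum hterm hsum (summable_uw.mul_left _)
    rw [← h1, h2, Real.rpow_natCast] at h3
    have h4 : ‖v0‖ ^ 2 ≤ (Real.sqrt (∑' i, uw i ^ 2) * M) ^ 2 := by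
      rw [mul_pow, Real.sq_sqrt (tsum_nonneg fun i => sq_nonneg _)]
      linarith
    exact le_of_sq_le_sq h4 (by positivity)

/-- the realisation of `H₁` as functions -/
noncomputable def ee : P.Eo →ₗ[ℂ] (ℂ → ℂ) := (AD D).subtype.comp P.fn

lemma ee_apply (v : P.Eo) : P.ee v = (P.fn v : ℂ → ℂ) := rfl

theorem isH1 : IsH1 D P.ee := by
  refine ⟨fun x => (P.fn x).2.1, fun x hx => ?_, fun L hLD hL => ?_, ?_⟩
  · have h1 : P.fn x = 0 := by
      apply Subtype.ext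
      funext z
      by_cases hz : z ∈ D
      · exact hx z hz
      · exact (P.fn x).2.2 z hz
    apply Subtype.ext
    ext i
    have h2 := P.dat_fn x i
    rw [h1, map_zero] at h2
    exact h2.symm
  · obtain ⟨C, hC, h⟩ := P.le_compact hL hLD
    exact ⟨C, fun x z hz => h (P.fn x) _ (P.dat_fn_le x) z hz⟩
  · classical
    refine ⟨Real.sqrt (∑' i, uw i ^ 2), fun f M hf hM => ?_⟩
    let g : ℂ → ℂ := fun z => if z ∈ D then f z else 0
    have hg1 : ∀ z ∈ D, g z = f z := fun z hz => if_pos hz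
    let G : AD D := ⟨g, hf.congr hg1, fun z hz => if_neg hz⟩
    obtain ⟨v, hv, hvn⟩ := P.exists_elem (f := G) (M := M) (fun z hz => by
      change ‖g z‖ ≤ M
      rw [hg1 z hz]; exact hM z hz)
    refine ⟨v, fun z hz => ?_, hvn⟩
    rw [P.ee_apply, hv]
    exact hg1 z hz

/-- the special property of `H₁` -/
theorem special (v : P.Eo) (n : ℕ) (m : ℝ) (hm0 : 0 ≤ m) (hm : ∀ z ∈ K, ‖P.ee v z‖ ≤ m) :
    ‖P.ee v z₀‖ ≤ Real.exp (s * n) * m + (n + 1) * Real.exp (-((1 - s) * n)) * ‖v‖ := by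
  have h1 := P.dat_fn_le v (Sum.inr n)
  rw [P.dat_inr, norm_mul, Complex.norm_real, Real.norm_of_nonneg (by positivity)] at h1
  have h2 := P.hφn n (resK (P.fn v) (P.cont _)) m hm0 (fun x => hm x x.2)
  have h3 : ‖P.ee v z₀‖ ≤ ‖(P.fn v : ℂ → ℂ) z₀ - P.φ n (resK (P.fn v) (P.cont _))‖ +
      ‖P.φ n (resK (P.fn v) (P.cont _))‖ := by
    have := norm_add_le ((P.fn v : ℂ → ℂ) z₀ - P.φ n (resK (P.fn v) (P.cont _)))
      (P.φ n (resK (P.fn v) (P.cont _)))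
    rwa [sub_add_cancel] at this
  set x := ‖(P.fn v : ℂ → ℂ) z₀ - P.φ n (resK (P.fn v) (P.cont _))‖ with hx
  have h4 : x ≤ (n + 1) * Real.exp (-((1 - s) * n)) * ‖v‖ := by
    have e1 : x = (n + 1) * Real.exp (-((1 - s) * n)) *
        ((n + 1 : ℝ)⁻¹ * Real.exp ((1 - s) * n) * x) := by
      have h5 : Real.exp (-((1 - s) * n)) * Real.exp ((1 - s) * n) = 1 := by
        rw [← Real.exp_add, neg_add_cancel, Real.exp_zero]
      have h6 : ((n : ℝ) + 1) * ((n : ℝ) + 1)⁻¹ = 1 := mul_inv_cancel₀ (by positivity)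
      calc x = (((n : ℝ) + 1) * ((n : ℝ) + 1)⁻¹) *
            (Real.exp (-((1 - s) * n)) * Real.exp ((1 - s) * n)) * x := by rw [h5, h6]; ring
        _ = _ := by ring
    rw [e1]
    gcongr
  linarith

end Par

theorem exists_special_H1 {D K : Set ℂ} (hD : IsOpen D) (hK : IsCompact K) (hne : K.Nonempty)
    (hKD : K ⊆ D) {s : ℝ} (hs0 : 0 < s) (hs1 : s < 1) {z₀ : ℂ} (hz₀ : z₀ ∈ Hull D K s) :
    ∃ (E₁ : Type) (_ : NormedAddCommGroup E₁) (_ : InnerProductSpace ℂ E₁) (_ : CompleteSpace E₁)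
      (e : E₁ →ₗ[ℂ] (ℂ → ℂ)), IsH1 D e ∧ ∀ (v : E₁) (n : ℕ) (m : ℝ), 0 ≤ m →
        (∀ z ∈ K, ‖e v z‖ ≤ m) →
        ‖e v z₀‖ ≤ Real.exp (s * n) * m + (n + 1) * Real.exp (-((1 - s) * n)) * ‖v‖ := by
  obtain ⟨c, r, hr, hb, hcov⟩ := exists_balls hD ⟨z₀, hz₀.1⟩
  obtain ⟨φ, h1, h2, h3, h4⟩ := exists_functionals hK hne hKD hs0 hs1 hz₀
  let P : Par D K z₀ s := ⟨hD, hK, hne, hKD, hz₀.1, c, r, hr, hb, hcov, φ, h1, h2, h3, h4⟩
  exact ⟨P.Eo, inferInstance, inferInstance, inferInstance, P.ee, P.isH1, P.special⟩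

end Pool.Agent.W5h46.SC
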