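import Pool.Agent.W5h46.SC.Bern
import Pool.Agent.W5h46.SC.Hilb2

/-!
# The inclusion `H^α ⊂ 𝒪(D_α)`
-/

set_option autoImplicit false

open Set Metric Filter Topology InnerProductSpace

namespace Pool.Agent.W5h46.SC

lemma scalePow_zero {E₁ E₀ : Type} [NormedAddCommGroup E₁] [InnerProductSpace ℂ E₁]
    [CompleteSpace E₁] [NormedAddCommGroup E₀] [InnerProductSpace ℂ E₀] [CompleteSpace E₀]
    (j : E₁ →L[ℂ] E₀) (y : E₀) : scalePow j 0 y = y := by
  rw [scalePow_eq]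
  have : QQ j (fun t : ℝ => t ^ ((0 : ℝ) / 2)) = 1 := by
    rw [← QQ_one j]
    apply QQ_congr
    intro x _
    simp
  rw [this]
  rfl

/-- the parameters -/
noncomputable def tk (k : ℕ) : ℝ := Real.exp (-(2 * (k : ℝ)))

lemma tk_pos (k : ℕ) : 0 < tk k := Real.exp_pos _

lemma tk_rpow (k : ℕ) (a : ℝ) : tk k ^ a = Real.exp (-(2 * k * a)) := by
  rw [tk, ← Real.exp_mul]
  congr 1
  ring

section

variable {E₁ E₀ : Type} [NormedAddCommGroup E₁] [InnerProductSpace ℂ E₁]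
    [CompleteSpace E₁] [NormedAddCommGroup E₀] [InnerProductSpace ℂ E₀] [CompleteSpace E₀]
    (j : E₁ →L[ℂ] E₀)

/-- the differences of consecutive regularisations -/
noncomputable def dif (α : ℝ) (y : E₀) (k : ℕ) : E₁ := reg j α (tk (k + 1)) y - reg j α (tk k) y

lemma norm_reg_tk {α : ℝ} (hα0 : 0 ≤ α) (hα1 : α ≤ 1) (y : E₀) (k : ℕ) :
    ‖reg j α (tk k) y‖ ≤ Real.exp ((1 - α) * k) * ‖y‖ := by
  have := norm_reg_le j hα0 hα1 (tk_pos k) y
  rw [tk_rpow] at this
  refine this.trans (le_of_eq ?_)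
  congr 2
  ring

lemma norm_dif {α : ℝ} (hα0 : 0 ≤ α) (hα1 : α ≤ 1) {y : E₀} {lam : ℝ} (hy : ‖y‖ ≤ Real.exp lam)
    (k : ℕ) : ‖dif j α y k‖ ≤ Real.exp (lam + 2 + (1 - α) * k) := by
  have h1 := norm_reg_tk j hα0 hα1 y k
  have h2 := norm_reg_tk j hα0 hα1 y (k + 1)
  have h3 : ‖dif j α y k‖ ≤ ‖reg j α (tk (k + 1)) y‖ + ‖reg j α (tk k) y‖ := norm_sub_le _ _
  have h4 : Real.exp ((1 - α) * ((k + 1 : ℕ) : ℝ)) ≤ Real.exp 1 * Real.exp ((1 - α) * k) := by
    rw [← Real.exp_add]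
    apply Real.exp_le_exp.2
    push_cast
    nlinarith
  have h5 : Real.exp 1 + 1 ≤ Real.exp 2 := by
    have h6 := Real.add_one_le_exp (1 : ℝ)
    have h7 : Real.exp 2 = Real.exp 1 * Real.exp 1 := by rw [← Real.exp_add]; norm_num
    rw [h7]
    nlinarith
  have h8 : 0 < Real.exp ((1 - α) * k) := Real.exp_pos _
  calc ‖dif j α y k‖ ≤ Real.exp 1 * Real.exp ((1 - α) * k) * ‖y‖ + Real.exp ((1 - α) * k) * ‖y‖ := by
        refine h3.trans (add_le_add (h2.trans ?_) h1)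
        gcongr
    _ = (Real.exp 1 + 1) * Real.exp ((1 - α) * k) * ‖y‖ := by ring
    _ ≤ Real.exp 2 * Real.exp ((1 - α) * k) * Real.exp lam := by gcongr
    _ = Real.exp (lam + 2 + (1 - α) * k) := by
      rw [← Real.exp_add, ← Real.exp_add]
      congr 1
      ring

lemma norm_err {α γ : ℝ} (hγ0 : 0 ≤ γ) (hγα : γ ≤ α) (hα1 : α ≤ 1) (y : E₀) (k : ℕ) :
    ∃ y' : E₀, scalePow j α y - j (reg j α (tk k) y) = scalePow j γ y' ∧
      ‖y'‖ ≤ Real.exp (-((α - γ) * k)) * ‖y‖ := by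
  obtain ⟨y', h1, h2⟩ := reg_error j hγ0 hγα hα1 (tk_pos k) y
  refine ⟨y', h1, h2.trans (le_of_eq ?_)⟩
  rw [tk_rpow]
  congr 2
  ring

lemma norm_err0 {α : ℝ} (hα0 : 0 ≤ α) (hα1 : α ≤ 1) (y : E₀) (k : ℕ) :
    ‖scalePow j α y - j (reg j α (tk k) y)‖ ≤ Real.exp (-(α * k)) * ‖y‖ := by
  obtain ⟨y', h1, h2⟩ := norm_err j le_rfl hα0 hα1 y k
  rw [h1, scalePow_zero]
  refine h2.trans (le_of_eq ?_)
  rw [sub_zero]

lemma norm_j_dif {α : ℝ} (hα0 : 0 ≤ α) (hα1 : α ≤ 1) {y : E₀} {lam : ℝ}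
    (hy : ‖y‖ ≤ Real.exp lam) (k : ℕ) :
    ‖j (dif j α y k)‖ ≤ Real.exp (lam + 1 - α * k) := by
  have h1 := norm_err0 j hα0 hα1 y k
  have h2 := norm_err0 j hα0 hα1 y (k + 1)
  have e : j (dif j α y k) = (scalePow j α y - j (reg j α (tk k) y)) -
      (scalePow j α y - j (reg j α (tk (k + 1)) y)) := by
    unfold dif
    rw [map_sub]
    abel
  have h3 : Real.exp (-(α * ((k + 1 : ℕ) : ℝ))) ≤ Real.exp (-(α * k)) := by
    apply Real.exp_le_exp.2
    push_cast
    nlinarith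
  rw [e]
  have h5 : (2 : ℝ) ≤ Real.exp 1 := by
    have := Real.add_one_le_exp (1 : ℝ)
    linarith
  calc _ ≤ ‖scalePow j α y - j (reg j α (tk k) y)‖ + ‖scalePow j α y - j (reg j α (tk (k + 1)) y)‖ :=
        norm_sub_le _ _
    _ ≤ Real.exp (-(α * k)) * ‖y‖ + Real.exp (-(α * k)) * ‖y‖ := by
      refine add_le_add h1 (h2.trans ?_)
      gcongr
    _ = 2 * Real.exp (-(α * k)) * ‖y‖ := by ring
    _ ≤ Real.exp 1 * Real.exp (-(α * k)) * Real.exp lam := by gcongr
    _ = Real.exp (lam + 1 - α * k) := by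
      rw [← Real.exp_add, ← Real.exp_add]
      congr 1
      ring

end

namespace Admissible

variable {D K : Set ℂ} {ω : ℂ → ℝ} (hA : Admissible D K ω)

include hA

lemma e_mem {E₁ : Type} [NormedAddCommGroup E₁] [InnerProductSpace ℂ E₁]
    {e : E₁ →ₗ[ℂ] (ℂ → ℂ)} (he : IsH1 D e) (x : E₁) : e x ∈ germs K :=
  fun z hz => (he.diff x).analyticOnNhd hA.isOpen z (hA.subset hz)

lemma upper_aux {E₁ : Type} [NormedAddCommGroup E₁] [InnerProductSpace ℂ E₁] [CompleteSpace E₁]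
    {e : E₁ →ₗ[ℂ] (ℂ → ℂ)} (he : IsH1 D e) {j : E₁ →L[ℂ] Ez hA.compact hA.nonempty}
    (hj : ∀ x, j x = iota hA.compact hA.nonempty ⟨e x, hA.e_mem he x⟩)
    {α α' : ℝ} (hα'0 : 0 < α') (hα' : α' < α) (hα1 : α < 1) :
    ∃ C κ : ℝ, 0 < κ ∧ ∀ (y : Ez hA.compact hA.nonempty) (lam : ℝ), ‖y‖ ≤ Real.exp lam → ∀ k : ℕ,
      ∀ z ∈ Sub D ω α', ‖e (dif j α y k) z‖ ≤ Real.exp (lam + C - κ * k) := by
  have hα0 : 0 < α := hα'0.trans hα'
  set β := 2 * α' / (α + α') with hβ
  have hβ0 : 0 < β := by positivity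
  have hβ1 : β < 1 := by
    rw [hβ, div_lt_one (by positivity)]
    linarith
  have hα'β : α' ≤ β := by
    rw [hβ, le_div_iff₀ (by positivity)]
    nlinarith
  have hτ : α' / β = (α + α') / 2 := by
    rw [hβ]
    field_simp
  set ε := (α - α') / 4 with hε
  have hε0 : 0 < ε := by rw [hε]; linarith
  have hε1 : ε ≤ 1 := by rw [hε]; linarith
  obtain ⟨C₁, hC₁, hbern⟩ := hA.bern hβ0 hβ1 hε0 hε1
  obtain ⟨Cβ, hCβ⟩ := he.cont (Sub D ω β) (fun z hz => hz.1) (hA.sub_compact hβ1)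
  set b := 2 + |Cβ| with hb
  refine ⟨|Real.log C₁| + 1 + b, ε, hε0, ?_⟩
  intro y lam hy k z hz
  set A := lam + 1 - α * k with hA'
  set B := lam + b + (1 - α) * k with hB
  have hk0 : (0 : ℝ) ≤ k := Nat.cast_nonneg k
  have hAB : A ≤ B := by
    rw [hA', hB, hb]
    have := abs_nonneg Cβ
    nlinarith
  have h1 : ‖iota hA.compact hA.nonempty ⟨e (dif j α y k), hA.e_mem he _⟩‖ ≤ Real.exp A := by
    rw [← hj]
    exact norm_j_dif j hα0.le hα1.le hy k
  have h2 : ∀ w ∈ Sub D ω β, ‖e (dif j α y k) w‖ ≤ Real.exp B := by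
    intro w hw
    have h3 := hCβ (dif j α y k) w hw
    have h4 := norm_dif j hα0.le hα1.le hy k
    have h5 : Cβ ≤ Real.exp |Cβ| := by
      have := Real.add_one_le_exp |Cβ|
      have := le_abs_self Cβ
      linarith
    calc ‖e (dif j α y k) w‖ ≤ Cβ * ‖dif j α y k‖ := h3
      _ ≤ Real.exp |Cβ| * Real.exp (lam + 2 + (1 - α) * k) := by gcongr
      _ = Real.exp B := by
        rw [← Real.exp_add, hB, hb]
        congr 1
        ring
  have h3 := hbern ⟨e (dif j α y k), hA.e_mem he _⟩ D A B hA.isOpen (fun w hw => hw.1)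
    (he.diff _) hAB h1 h2
  have h4 := hA.two_constants hβ0 hβ1 hA.isOpen (fun w hw => hw.1) (he.diff (dif j α y k))
    (A := Real.log C₁ + (A + ε * (B - A))) (B := B) (fun w hw => by
      rw [Real.exp_add, Real.exp_log hC₁]
      exact h3 w hw) h2 z ⟨hz.1, hz.2.trans hα'β⟩
  refine h4.trans (Real.exp_le_exp.2 ?_)
  set τ := ω z / β with hτdef
  have hτ0 : 0 ≤ τ := div_nonneg (hA.nonneg z hz.1) hβ0.le
  have hτ1 : τ ≤ (α + α') / 2 := by
    rw [← hτ]
    exact div_le_div_of_nonneg_right hz.2 hβ0.le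
  have hτ2 : τ ≤ 1 := by linarith
  have e1 : Real.log C₁ + (A + ε * (B - A)) + (B - (Real.log C₁ + (A + ε * (B - A)))) * τ =
      lam + ((1 - τ) * Real.log C₁ + (1 - τ) * (1 - ε) + ((1 - τ) * ε + τ) * b) +
        k * ((1 - α) - (1 - τ) * (1 - ε)) := by
    rw [hA', hB]
    ring
  rw [e1]
  have hτ3 : 0 ≤ 1 - τ := by linarith
  have hε3 : 0 ≤ 1 - ε := by linarith
  have h5 : (1 - τ) * Real.log C₁ ≤ |Real.log C₁| := by
    calc (1 - τ) * Real.log C₁ ≤ (1 - τ) * |Real.log C₁| :=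
          mul_le_mul_of_nonneg_left (le_abs_self _) hτ3
      _ ≤ 1 * |Real.log C₁| := mul_le_mul_of_nonneg_right (by linarith) (abs_nonneg _)
      _ = |Real.log C₁| := one_mul _
  have h6 : (1 - τ) * (1 - ε) ≤ 1 := mul_le_one₀ (by linarith) hε3 (by linarith)
  have hb0 : 0 ≤ b := by positivity
  have h7 : ((1 - τ) * ε + τ) * b ≤ b := by
    have h71 : (1 - τ) * ε + τ ≤ 1 := by
      have := mul_nonneg hτ3 hε3
      linarith
    calc ((1 - τ) * ε + τ) * b ≤ 1 * b := mul_le_mul_of_nonneg_right h71 hb0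
      _ = b := one_mul b
  have h8 : (1 - α) - (1 - τ) * (1 - ε) ≤ -ε := by
    have h9 : (1 - (α + α') / 2) * (1 - ε) ≤ (1 - τ) * (1 - ε) := by
      apply mul_le_mul_of_nonneg_right _ hε3
      linarith
    have h10 : 1 - (α + α') / 2 - ε ≤ (1 - (α + α') / 2) * (1 - ε) := by
      have := mul_nonneg (show 0 ≤ (α + α') / 2 by positivity) hε0.le
      linarith
    have h11 : 1 - (α + α') / 2 - ε - (1 - α) = ε := by rw [hε]; ring
    linarith
  have h9 : k * ((1 - α) - (1 - τ) * (1 - ε)) ≤ -(ε * k) := by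
    have := mul_le_mul_of_nonneg_left h8 hk0
    linarith
  linarith

omit hA in
lemma summable_expk {a κ : ℝ} (hκ : 0 < κ) : Summable (fun k : ℕ => Real.exp (a - κ * k)) := by
  have h1 : (fun k : ℕ => Real.exp (a - κ * k)) = fun k : ℕ => Real.exp a * Real.exp (-κ) ^ k := by
    funext k
    rw [← Real.exp_nat_mul, ← Real.exp_add]
    congr 1
    ring
  rw [h1]
  apply Summable.mul_left
  apply summable_geometric_of_lt_one (Real.exp_pos _).le
  rw [Real.exp_lt_one_iff]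
  linarith

theorem upper {E₁ : Type} [NormedAddCommGroup E₁] [InnerProductSpace ℂ E₁] [CompleteSpace E₁]
    {e : E₁ →ₗ[ℂ] (ℂ → ℂ)} (he : IsH1 D e) {j : E₁ →L[ℂ] Ez hA.compact hA.nonempty}
    (hj : ∀ x, j x = iota hA.compact hA.nonempty ⟨e x, hA.e_mem he x⟩)
    {α : ℝ} (hα0 : 0 < α) (hα1 : α < 1) :
    ∃ F : Ez hA.compact hA.nonempty → germs K,
    (∀ y, AnalyticOnNhd ℂ (F y : ℂ → ℂ) (Dlt D K ω α) ∧
      iota hA.compact hA.nonempty (F y) = scalePow j α y) ∧
    ∀ L ⊆ Dlt D K ω α, IsCompact L → ∃ C : ℝ, ∀ y, ∀ z ∈ L, ‖(F y : ℂ → ℂ) z‖ ≤ C * ‖y‖ := by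
  set G : Ez hA.compact hA.nonempty → ℂ → ℂ := fun y z =>
    e (reg j α (tk 0) y) z + ∑' k, e (dif j α y k) z with hG
  have hdiff : ∀ y, AnalyticOnNhd ℂ (G y) (Dlt D K ω α) := by
    intro y z hz
    rw [hA.Dlt_eq hα0] at hz
    obtain ⟨hzD, hzα⟩ := hz
    obtain ⟨α', h1, h2⟩ := exists_between (max_lt hzα hα0)
    have hα'0 : 0 < α' := (le_max_right _ _).trans_lt h1
    have hzα' : ω z < α' := (le_max_left _ _).trans_lt h1
    obtain ⟨C, κ, hκ, hb⟩ := hA.upper_aux he hj hα'0 h2 hα1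
    have hy : ‖y‖ ≤ Real.exp ‖y‖ := by
      have := Real.add_one_le_exp ‖y‖
      linarith
    have hU : IsOpen {w ∈ D | ω w < α'} := hA.lt_open α'
    have h3 : DifferentiableOn ℂ (fun w => ∑' k, e (dif j α y k) w) {w ∈ D | ω w < α'} := by
      refine Complex.differentiableOn_tsum_of_summable_norm (summable_expk (a := ‖y‖ + C) hκ)
        (fun k => (he.diff _).mono (fun w hw => hw.1)) hU (fun k w hw => ?_)
      exact hb y ‖y‖ hy k w ⟨hw.1, hw.2.le⟩
    have h4 : DifferentiableOn ℂ (G y) {w ∈ D | ω w < α'} :=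
      ((he.diff _).mono (fun w hw => hw.1)).add h3
    exact h4.analyticOnNhd hU z ⟨hzD, hzα'⟩
  have hKα : K ⊆ Dlt D K ω α := fun z hz => Or.inl hz
  refine ⟨fun y => ⟨G y, fun z hz => hdiff y z (hKα hz)⟩, fun y => ⟨hdiff y, ?_⟩, ?_⟩
  · -- identification of the image
    obtain ⟨C, κ, hκ, hb⟩ := hA.upper_aux he hj (α' := α / 2) (by linarith) (by linarith) hα1
    have hy : ‖y‖ ≤ Real.exp ‖y‖ := by
      have := Real.add_one_le_exp ‖y‖
      linarith
    set u : ℕ → ℝ := fun k => Real.exp (‖y‖ + C - κ * k) with hu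
    have hus : Summable u := summable_expk hκ
    have hKs : K ⊆ Sub D ω (α / 2) := hA.K_sub (by linarith)
    have htail : ∀ N : ℕ, ∀ z ∈ K, ‖G y z - e (reg j α (tk N) y) z‖ ≤
        Real.exp (-(κ * N)) * ∑' k, u k := by
      intro N z hz
      have hs : Summable (fun k => e (dif j α y k) z) :=
        Summable.of_norm_bounded hus (fun k => hb y ‖y‖ hy k z (hKs hz))
      have h1 := hs.sum_add_tsum_nat_add N
      have h2 : ∑ i ∈ Finset.range N, e (dif j α y i) z =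
          e (reg j α (tk N) y) z - e (reg j α (tk 0) y) z := by
        rw [← Finset.sum_range_sub (fun k => e (reg j α (tk k) y) z)]
        apply Finset.sum_congr rfl
        intro i _
        unfold dif
        rw [map_sub]
        rfl
      have h3 : G y z - e (reg j α (tk N) y) z = ∑' k, e (dif j α y (k + N)) z := by
        simp only [hG]
        rw [← h1, h2]
        ring
      rw [h3]
      have h4 : ∀ k, ‖e (dif j α y (k + N)) z‖ ≤ Real.exp (-(κ * N)) * u k := by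
        intro k
        refine (hb y ‖y‖ hy (k + N) z (hKs hz)).trans (le_of_eq ?_)
        rw [hu, ← Real.exp_add]
        congr 1
        push_cast
        ring
      rw [← tsum_mul_left]
      exact tsum_of_norm_bounded (hus.mul_left _).hasSum h4
    have hlim1 : Tendsto (fun N => j (reg j α (tk N) y)) atTop
        (𝓝 (iota hA.compact hA.nonempty ⟨G y, fun z hz => hdiff y z (hKα hz)⟩)) := by
      rw [tendsto_iff_norm_sub_tendsto_zero]
      have h5 : Tendsto (fun N : ℕ => Wc * (Real.exp (-(κ * N)) * ∑' k, u k)) atTop (𝓝 0) := by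
        have h6 : Tendsto (fun N : ℕ => Real.exp (-(κ * N))) atTop (𝓝 0) := by
          apply Real.tendsto_exp_neg_atTop_nhds_zero.comp
          exact tendsto_natCast_atTop_atTop.const_mul_atTop hκ
        have := (h6.mul_const (∑' k, u k)).const_mul Wc
        rwa [zero_mul, mul_zero] at this
      refine squeeze_zero (fun _ => norm_nonneg _) (fun N => ?_) h5
      rw [hj, ← map_sub, norm_iota]
      apply norm_iota0_le
      intro z hz
      change ‖e (reg j α (tk N) y) z - G y z‖ ≤ _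
      rw [norm_sub_rev]
      exact htail N z hz
    have hlim2 : Tendsto (fun N => j (reg j α (tk N) y)) atTop (𝓝 (scalePow j α y)) := by
      rw [tendsto_iff_norm_sub_tendsto_zero]
      have h5 : Tendsto (fun N : ℕ => Real.exp (-(α * N)) * ‖y‖) atTop (𝓝 0) := by
        have h6 : Tendsto (fun N : ℕ => Real.exp (-(α * N))) atTop (𝓝 0) := by
          apply Real.tendsto_exp_neg_atTop_nhds_zero.comp
          exact tendsto_natCast_atTop_atTop.const_mul_atTop hα0
        have := h6.mul_const ‖y‖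
        rwa [zero_mul] at this
      refine squeeze_zero (fun _ => norm_nonneg _) (fun N => ?_) h5
      rw [norm_sub_rev]
      exact norm_err0 j hα0.le hα1.le y N
    exact tendsto_nhds_unique hlim1 hlim2
  · intro L hL hLc
    rw [hA.Dlt_eq hα0] at hL
    -- a level `α' < α` containing `L`
    obtain ⟨α', hα'0, hα'α, hLα'⟩ : ∃ α', 0 < α' ∧ α' < α ∧ L ⊆ Sub D ω α' := by
      by_cases hne : L.Nonempty
      · obtain ⟨w, hw, hmax⟩ := hLc.exists_isMaxOn hne (hA.cont.mono (fun z hz => (hL hz).1))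
        obtain ⟨α', h1, h2⟩ := exists_between (max_lt (hL hw).2 hα0)
        refine ⟨α', (le_max_right _ _).trans_lt h1, h2, fun z hz => ⟨(hL hz).1, ?_⟩⟩
        have h3 : ω z ≤ ω w := hmax hz
        exact h3.trans ((le_max_left _ _).trans h1.le)
      · exact ⟨α / 2, by linarith, by linarith, fun z hz => absurd ⟨z, hz⟩ hne⟩
    obtain ⟨C, κ, hκ, hb⟩ := hA.upper_aux he hj hα'0 hα'α hα1
    obtain ⟨CL, hCL⟩ := he.cont L (fun z hz => (hL hz).1) hLc
    set u : ℕ → ℝ := fun k => Real.exp (C - κ * k) with hu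
    have hus : Summable u := summable_expk hκ
    refine ⟨|CL| + ∑' k, u k, fun y z hz => ?_⟩
    change ‖G y z‖ ≤ _
    by_cases hy0 : y = 0
    · have h1 : ∀ t, reg j α t y = 0 := by
        intro t
        unfold reg
        rw [hy0, map_zero, map_zero]
      have h2 : ∀ k, dif j α y k = 0 := by
        intro k
        unfold dif
        rw [h1, h1, sub_zero]
      simp only [hG, h1, h2, map_zero]
      simp [hy0]
    · have hypos : 0 < ‖y‖ := norm_pos_iff.2 hy0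
      have hy : ‖y‖ ≤ Real.exp (Real.log ‖y‖) := (Real.exp_log hypos).ge
      have h1 : ‖e (reg j α (tk 0) y) z‖ ≤ |CL| * ‖y‖ := by
        have h2 := hCL (reg j α (tk 0) y) z hz
        have h3 := norm_reg_tk j hα0.le hα1.le y 0
        simp only [Nat.cast_zero, mul_zero, Real.exp_zero, one_mul] at h3
        calc _ ≤ CL * ‖reg j α (tk 0) y‖ := h2
          _ ≤ |CL| * ‖reg j α (tk 0) y‖ := by gcongr; exact le_abs_self _
          _ ≤ |CL| * ‖y‖ := by gcongr
      have h4 : ∀ k, ‖e (dif j α y k) z‖ ≤ ‖y‖ * u k := by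
        intro k
        refine (hb y _ hy k z (hLα' hz)).trans (le_of_eq ?_)
        rw [hu, add_sub_assoc, Real.exp_add, Real.exp_log hypos]
      have h5 : ‖∑' k, e (dif j α y k) z‖ ≤ ‖y‖ * ∑' k, u k := by
        rw [← tsum_mul_left]
        exact tsum_of_norm_bounded (hus.mul_left _).hasSum h4
      calc ‖G y z‖ ≤ ‖e (reg j α (tk 0) y) z‖ + ‖∑' k, e (dif j α y k) z‖ := norm_add_le _ _
        _ ≤ |CL| * ‖y‖ + ‖y‖ * ∑' k, u k := add_le_add h1 h5
        _ = (|CL| + ∑' k, u k) * ‖y‖ := by ring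

end Admissible

end Pool.Agent.W5h46.SC
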