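import Pool.Agent.W5h46.SC.Nec2
import Pool.Agent.W5h46.SC.Upper

/-!
# Necessity, part 3: property (S) forces the envelope to be the harmonic measure
-/

set_option autoImplicit false

open Set Metric Filter Topology InnerProductSpace

namespace Pool.Agent.W5h46.SC

namespace Admissible

variable {D K : Set ℂ} {ω : ℂ → ℝ} (hA : Admissible D K ω)

include hA

/-- uniqueness on the sets `{ω < β}` -/
lemma uniq {β : ℝ} (hβ1 : β ≤ 1) {g : ℂ → ℂ}
    (hg : DifferentiableOn ℂ g {z ∈ D | ω z < β}) (h0 : ∀ z ∈ K, g z = 0) {z : ℂ} (hz : z ∈ D)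
    (hzβ : ω z < β) : g z = 0 := by
  obtain ⟨β', h1, h2⟩ := exists_between hzβ
  have hz0 := hA.nonneg z hz
  have hβ'0 : 0 < β' := hz0.trans_lt h1
  have hβ'1 : β' < 1 := by linarith
  have hsub : Sub D ω β' ⊆ {z ∈ D | ω z < β} := fun w hw => ⟨hw.1, hw.2.trans_lt h2⟩
  obtain ⟨M, hM⟩ := (hA.sub_compact hβ'1).exists_bound_of_continuousOn (hg.continuousOn.mono hsub)
  set B := M with hB
  have hMB : ∀ w ∈ Sub D ω β', ‖g w‖ ≤ Real.exp B := fun w hw => by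
    have h3 := hM w hw
    have h4 := Real.add_one_le_exp M
    linarith
  set τ := ω z / β' with hτ
  have hτ1 : τ < 1 := by rw [hτ, div_lt_one hβ'0]; exact h1
  by_contra hne
  have hpos : 0 < ‖g z‖ := norm_pos_iff.2 hne
  set A := (Real.log ‖g z‖ - B * τ - 1) / (1 - τ) with hAdef
  have h3 := hA.two_constants hβ'0 hβ'1 (hA.lt_open β) hsub hg (A := A) (B := B)
    (fun w hw => by rw [h0 w hw, norm_zero]; positivity) hMB z ⟨hz, h1.le⟩
  have h4 : A + (B - A) * (ω z / β') = Real.log ‖g z‖ - 1 := by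
    rw [← hτ]
    have : A * (1 - τ) = Real.log ‖g z‖ - B * τ - 1 := by
      have h5 : 0 < 1 - τ := by linarith
      rw [hAdef]
      exact div_mul_cancel₀ _ h5.ne'
    linarith
  rw [h4, ← Real.log_le_iff_le_exp hpos] at h3
  linarith

omit hA in
lemma eqD {E₀ : Type} [NormedAddCommGroup E₀] [InnerProductSpace ℂ E₀] {ι : germs K →ₗ[ℂ] E₀}
    (h0 : IsH0 K ι) {f g : germs K} (h : ι f = ι g) : ∀ z ∈ K, (f : ℂ → ℂ) z = (g : ℂ → ℂ) z := by
  intro z hz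
  have h1 : ι (f - g) = 0 := by rw [map_sub, h, sub_self]
  have h2 := (h0.inj (f - g)).1 h1
  have h3 := (eventually_nhdsSet_iff_forall.1 h2 z hz).self_of_nhds
  exact sub_eq_zero.1 h3

lemma eqD' {E₀ : Type} [NormedAddCommGroup E₀] [InnerProductSpace ℂ E₀] {ι : germs K →ₗ[ℂ] E₀}
    (h0 : IsH0 K ι) {β : ℝ} (hβ1 : β ≤ 1) {f g : germs K}
    (hf : DifferentiableOn ℂ (f : ℂ → ℂ) {z ∈ D | ω z < β})
    (hg : DifferentiableOn ℂ (g : ℂ → ℂ) {z ∈ D | ω z < β}) (h : ι f = ι g) {z : ℂ} (hz : z ∈ D)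
    (hzβ : ω z < β) : (f : ℂ → ℂ) z = (g : ℂ → ℂ) z := by
  have h1 := eqD h0 h
  have h2 := hA.uniq hβ1 (hf.sub hg) (fun w hw => by
    rw [Pi.sub_apply, h1 w hw, sub_self]) hz hzβ
  exact sub_eq_zero.1 h2

lemma j_inj {E₁ E₀ : Type} [NormedAddCommGroup E₁] [InnerProductSpace ℂ E₁]
    [NormedAddCommGroup E₀] [InnerProductSpace ℂ E₀] {e : E₁ →ₗ[ℂ] (ℂ → ℂ)} (he : IsH1 D e)
    {ι : germs K →ₗ[ℂ] E₀} (h0 : IsH0 K ι) {j : E₁ →L[ℂ] E₀}
    (hj : ∀ x, j x = ι ⟨e x, hA.e_mem he x⟩) : Function.Injective j := by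
  rw [injective_iff_map_eq_zero]
  intro x hx
  rw [hj] at hx
  have h1 := (h0.inj _).1 hx
  obtain ⟨k, hk⟩ := hA.nonempty
  have h2 := eventually_nhdsSet_iff_forall.1 h1 k hk
  have h3 : EqOn (e x) 0 D := ((he.diff x).analyticOnNhd hA.isOpen).eqOn_zero_of_preconnected_of_eventuallyEq_zero
    hA.connected.isPreconnected (hA.subset hk) h2
  exact he.inj x (fun z hz => h3 hz)

end Admissible

lemma exists_tk_lt {δ : ℝ} (hδ : 0 < δ) : ∃ N : ℕ, ∀ n, N ≤ n → tk n < δ := by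
  have h1 : Tendsto (fun N : ℕ => Real.exp (-(2 * (N : ℝ)))) atTop (𝓝 0) := by
    apply Real.tendsto_exp_neg_atTop_nhds_zero.comp
    exact tendsto_natCast_atTop_atTop.const_mul_atTop (by norm_num)
  exact eventually_atTop.1 (h1.eventually (gt_mem_nhds hδ))

namespace Admissible

variable {D K : Set ℂ} {ω : ℂ → ℝ} (hA : Admissible D K ω)

include hA

/-- evaluation at `z₀` is continuous for the norm of `H^α` -/
lemma eval_bound {E₁ E₀ : Type} [NormedAddCommGroup E₁] [InnerProductSpace ℂ E₁] [CompleteSpace E₁]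
    [NormedAddCommGroup E₀] [InnerProductSpace ℂ E₀] [CompleteSpace E₀] {e : E₁ →ₗ[ℂ] (ℂ → ℂ)}
    (he : IsH1 D e) {ι : germs K →ₗ[ℂ] E₀} (h0 : IsH0 K ι) {j : E₁ →L[ℂ] E₀}
    (hj : ∀ x, j x = ι ⟨e x, hA.e_mem he x⟩)
    (hscale : ∀ α : ℝ, 0 < α → α < 1 → IsScale D K ω ι j α) {z₀ : ℂ} (hz₀ : z₀ ∈ D) {s : ℝ}
    (hs0 : 0 < s)
    (hsp : ∀ (v : E₁) (n : ℕ) (m : ℝ), 0 ≤ m → (∀ z ∈ K, ‖e v z‖ ≤ m) →
        ‖e v z₀‖ ≤ Real.exp (s * n) * m + (n + 1) * Real.exp (-((1 - s) * n)) * ‖v‖)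
    {α : ℝ} (hsα : s < α) (hα1 : α < 1) :
    ∃ C : ℝ, 0 ≤ C ∧ ∀ (y : E₀) (g : E₁), scalePow j α y = j g → ‖e g z₀‖ ≤ C * ‖y‖ := by
  have hinj := hA.j_inj he h0 hj
  set γ := (α - s) / 2 with hγ
  have hγ0 : 0 < γ := by rw [hγ]; linarith
  have hγα : γ ≤ α := by rw [hγ]; linarith
  have hα0 : 0 < α := hs0.trans hsα
  obtain ⟨F, hF1, hF2⟩ := (hscale γ hγ0 (by linarith)).upper
  obtain ⟨Cγ, hCγ⟩ := hF2 K (fun z hz => Or.inl hz) hA.compact
  obtain ⟨Cz, hCz⟩ := he.cont {z₀} (singleton_subset_iff.2 hz₀) isCompact_singleton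
  have hKb : ∀ (x : E₁) (y : E₀), j x = scalePow j γ y → ∀ z ∈ K, ‖e x z‖ ≤ |Cγ| * ‖y‖ := by
    intro x y hxy z hz
    have h1 : ι ⟨e x, hA.e_mem he x⟩ = ι (F y) := by rw [← hj, hxy, (hF1 y).2]
    have h2 := eqD h0 h1 z hz
    change e x z = (F y : ℂ → ℂ) z at h2
    rw [h2]
    refine (hCγ y z hz).trans ?_
    gcongr
    exact le_abs_self _
  have hsumm : Summable (fun k : ℕ => Real.exp (0 - γ * k)) := summable_expk hγ0
  set C₆ := 2 * |Cγ| + (1 / γ + 1) * Real.exp 2 with hC₆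
  have hC₆0 : 0 ≤ C₆ := by positivity
  refine ⟨|Cz| + C₆ * ∑' k : ℕ, Real.exp (0 - γ * k), by positivity, ?_⟩
  intro y g hyg
  by_cases hy : y = 0
  · rw [hy, map_zero] at hyg
    have hg : g = 0 := hinj (by rw [← hyg, map_zero])
    rw [hg, map_zero, hy]
    simp
  have hypos : 0 < ‖y‖ := norm_pos_iff.2 hy
  have hylog : ‖y‖ ≤ Real.exp (Real.log ‖y‖) := (Real.exp_log hypos).ge
  have hdif : ∀ k : ℕ, ‖e (dif j α y k) z₀‖ ≤ ‖y‖ * C₆ * Real.exp (0 - γ * k) := by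
    intro k
    obtain ⟨y1, h1, h1'⟩ := norm_err j hγ0.le hγα hα1.le y k
    obtain ⟨y2, h2, h2'⟩ := norm_err j hγ0.le hγα hα1.le y (k + 1)
    have h3 : j (dif j α y k) = scalePow j γ (y1 - y2) := by
      rw [map_sub, ← h1, ← h2]
      unfold dif
      rw [map_sub]
      abel
    have h4 : ‖y1 - y2‖ ≤ 2 * Real.exp (-((α - γ) * k)) * ‖y‖ := by
      have h5 : Real.exp (-((α - γ) * ((k + 1 : ℕ) : ℝ))) ≤ Real.exp (-((α - γ) * k)) := by
        apply Real.exp_le_exp.2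
        push_cast
        nlinarith
      have h6 : ‖y2‖ ≤ Real.exp (-((α - γ) * k)) * ‖y‖ := h2'.trans (by gcongr)
      have h7 := norm_sub_le y1 y2
      linarith
    have h5 : ∀ z ∈ K, ‖e (dif j α y k) z‖ ≤ |Cγ| * (2 * Real.exp (-((α - γ) * k)) * ‖y‖) := by
      intro z hz
      refine (hKb _ _ h3 z hz).trans ?_
      gcongr
    have h6 := hsp (dif j α y k) k _ (by positivity) h5
    have h7 := norm_dif j hα0.le hα1.le hylog k
    have e1 : Real.exp (Real.log ‖y‖ + 2 + (1 - α) * k) = ‖y‖ * Real.exp 2 * Real.exp ((1 - α) * k) := by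
      rw [Real.exp_add, Real.exp_add, Real.exp_log hypos]
    rw [e1] at h7
    have e2 : Real.exp (s * k) * (|Cγ| * (2 * Real.exp (-((α - γ) * k)) * ‖y‖)) =
        ‖y‖ * (2 * |Cγ|) * Real.exp (0 - γ * k) := by
      have : Real.exp (s * k) * Real.exp (-((α - γ) * k)) = Real.exp (0 - γ * k) := by
        rw [← Real.exp_add]
        congr 1
        rw [hγ]
        ring
      calc _ = ‖y‖ * (2 * |Cγ|) * (Real.exp (s * k) * Real.exp (-((α - γ) * k))) := by ring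
        _ = _ := by rw [this]
    have h8 : ((k : ℝ) + 1) ≤ (1 / γ + 1) * Real.exp (γ * k) := by
      have h9 := Real.add_one_le_exp (γ * k)
      have h10 : (1 : ℝ) ≤ Real.exp (γ * k) := Real.one_le_exp (by positivity)
      have h11 : (k : ℝ) ≤ 1 / γ * Real.exp (γ * k) := by
        rw [one_div, ← div_eq_inv_mul, le_div_iff₀ hγ0]
        linarith
      linarith
    have e3 : ((k : ℝ) + 1) * Real.exp (-((1 - s) * k)) * ‖dif j α y k‖ ≤
        ‖y‖ * ((1 / γ + 1) * Real.exp 2) * Real.exp (0 - γ * k) := by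
      have h9 : Real.exp (γ * k) * Real.exp (-((1 - s) * k)) * Real.exp ((1 - α) * k) =
          Real.exp (0 - γ * k) := by
        rw [← Real.exp_add, ← Real.exp_add]
        congr 1
        rw [hγ]
        ring
      calc ((k : ℝ) + 1) * Real.exp (-((1 - s) * k)) * ‖dif j α y k‖
          ≤ ((1 / γ + 1) * Real.exp (γ * k)) * Real.exp (-((1 - s) * k)) *
            (‖y‖ * Real.exp 2 * Real.exp ((1 - α) * k)) := by gcongr
        _ = ‖y‖ * ((1 / γ + 1) * Real.exp 2) *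
            (Real.exp (γ * k) * Real.exp (-((1 - s) * k)) * Real.exp ((1 - α) * k)) := by ring
        _ = _ := by rw [h9]
    calc ‖e (dif j α y k) z₀‖ ≤ _ := h6
      _ ≤ ‖y‖ * (2 * |Cγ|) * Real.exp (0 - γ * k) +
          ‖y‖ * ((1 / γ + 1) * Real.exp 2) * Real.exp (0 - γ * k) := by
        rw [e2]
        exact add_le_add le_rfl e3
      _ = ‖y‖ * C₆ * Real.exp (0 - γ * k) := by rw [hC₆]; ring
  -- the partial sums
  have hreg : ∀ N : ℕ, ‖e (reg j α (tk N) y) z₀‖ ≤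
      (|Cz| + C₆ * ∑' k : ℕ, Real.exp (0 - γ * k)) * ‖y‖ := by
    intro N
    have h1 : e (reg j α (tk N) y) z₀ = e (reg j α (tk 0) y) z₀ +
        ∑ k ∈ Finset.range N, e (dif j α y k) z₀ := by
      have h2 : ∑ k ∈ Finset.range N, e (dif j α y k) z₀ =
          e (reg j α (tk N) y) z₀ - e (reg j α (tk 0) y) z₀ := by
        rw [← Finset.sum_range_sub (fun k => e (reg j α (tk k) y) z₀)]
        apply Finset.sum_congr rfl
        intro i _
        unfold dif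
        rw [map_sub]
        rfl
      rw [h2]
      ring
    have h3 : ‖e (reg j α (tk 0) y) z₀‖ ≤ |Cz| * ‖y‖ := by
      have h4 := hCz (reg j α (tk 0) y) z₀ rfl
      have h5 := norm_reg_tk j hα0.le hα1.le y 0
      simp only [Nat.cast_zero, mul_zero, Real.exp_zero, one_mul] at h5
      calc _ ≤ Cz * ‖reg j α (tk 0) y‖ := h4
        _ ≤ |Cz| * ‖reg j α (tk 0) y‖ := by gcongr; exact le_abs_self _
        _ ≤ |Cz| * ‖y‖ := by gcongr
    have h6 : ‖∑ k ∈ Finset.range N, e (dif j α y k) z₀‖ ≤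
        ‖y‖ * C₆ * ∑' k : ℕ, Real.exp (0 - γ * k) := by
      refine (norm_sum_le _ _).trans ?_
      calc ∑ k ∈ Finset.range N, ‖e (dif j α y k) z₀‖
          ≤ ∑ k ∈ Finset.range N, ‖y‖ * C₆ * Real.exp (0 - γ * k) :=
            Finset.sum_le_sum (fun k _ => hdif k)
        _ = ‖y‖ * C₆ * ∑ k ∈ Finset.range N, Real.exp (0 - γ * k) := by rw [Finset.mul_sum]
        _ ≤ _ := by
          gcongr
          exact hsumm.sum_le_tsum _ (fun k _ => (Real.exp_pos _).le)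
    rw [h1]
    calc _ ≤ ‖e (reg j α (tk 0) y) z₀‖ + ‖∑ k ∈ Finset.range N, e (dif j α y k) z₀‖ :=
          norm_add_le _ _
      _ ≤ |Cz| * ‖y‖ + ‖y‖ * C₆ * ∑' k : ℕ, Real.exp (0 - γ * k) := add_le_add h3 h6
      _ = _ := by ring
  apply le_of_forall_pos_le_add
  intro ε hε
  obtain ⟨δ, hδ, hδ'⟩ := reg_tendsto j hinj hα0.le hyg (ε := ε / (|Cz| + 1)) (by positivity)
  obtain ⟨N, hN⟩ := exists_tk_lt hδ
  have h1 := hδ' (tk N) (tk_pos N) (hN N le_rfl)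
  have h2 : ‖e (g - reg j α (tk N) y) z₀‖ ≤ ε := by
    have h3 := hCz (g - reg j α (tk N) y) z₀ rfl
    calc _ ≤ Cz * ‖g - reg j α (tk N) y‖ := h3
      _ ≤ (|Cz| + 1) * ‖g - reg j α (tk N) y‖ := by
        gcongr
        have := le_abs_self Cz
        linarith
      _ ≤ (|Cz| + 1) * (ε / (|Cz| + 1)) := by gcongr
      _ = ε := by field_simp
  have h3 : e g z₀ = e (g - reg j α (tk N) y) z₀ + e (reg j α (tk N) y) z₀ := by
    rw [map_sub]
    simp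
  rw [h3]
  have h4 := norm_add_le (e (g - reg j α (tk N) y) z₀) (e (reg j α (tk N) y) z₀)
  have h5 := hreg N
  linarith

/-- evaluation at `z₀` on `H^β`, `β > ω z₀`, in the norm of `H^α` -/
lemma eval_bound' {E₁ E₀ : Type} [NormedAddCommGroup E₁] [InnerProductSpace ℂ E₁] [CompleteSpace E₁]
    [NormedAddCommGroup E₀] [InnerProductSpace ℂ E₀] [CompleteSpace E₀] {e : E₁ →ₗ[ℂ] (ℂ → ℂ)}
    (he : IsH1 D e) {ι : germs K →ₗ[ℂ] E₀} (h0 : IsH0 K ι) {j : E₁ →L[ℂ] E₀}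
    (hj : ∀ x, j x = ι ⟨e x, hA.e_mem he x⟩) (hdense : DenseRange j)
    (hscale : ∀ α : ℝ, 0 < α → α < 1 → IsScale D K ω ι j α) {z₀ : ℂ} (hz₀ : z₀ ∈ D)
    {α β : ℝ} (hα0 : 0 < α) (hαβ : α ≤ β) (hβ1 : β < 1) (hz₀β : ω z₀ < β) {C : ℝ} (hC0 : 0 ≤ C)
    (hC : ∀ (y : E₀) (g : E₁), scalePow j α y = j g → ‖e g z₀‖ ≤ C * ‖y‖) {p : germs K} {y : E₀}
    (hp : DifferentiableOn ℂ (p : ℂ → ℂ) {z ∈ D | ω z < β}) (hpy : ι p = scalePow j β y) :
    ‖(p : ℂ → ℂ) z₀‖ ≤ C * ‖scalePow j (β - α) y‖ := by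
  have hβ0 : 0 < β := hα0.trans_le hαβ
  obtain ⟨F, hF1, hF2⟩ := (hscale β hβ0 hβ1).upper
  have hz₀' : ({z₀} : Set ℂ) ⊆ Dlt D K ω β := by
    rw [hA.Dlt_eq hβ0, singleton_subset_iff]
    exact ⟨hz₀, hz₀β⟩
  obtain ⟨C₇, hC₇⟩ := hF2 {z₀} hz₀' isCompact_singleton
  apply le_of_forall_pos_le_add
  intro ε hε
  set C₈ := |C₇| + C * ‖scalePow j (β - α)‖ with hC₈
  have hC₈0 : 0 ≤ C₈ := by positivity
  obtain ⟨δ, hδ, hδ'⟩ := ratio_tendsto j hdense y (ε := ε / (C₈ + 1)) (by positivity)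
  set t := δ / 2 with ht
  have ht0 : 0 < t := by positivity
  have h1 := hδ' t ht0 (by rw [ht]; linarith)
  set q := QQ j (fun x => x / (x + t)) y with hq
  have h2 : j (reg j β t y) = scalePow j β q := j_reg j hβ0.le ht0 y
  -- comparison of the values
  have h3 : ι (p - ⟨e (reg j β t y), hA.e_mem he _⟩) = ι (F (y - q)) := by
    rw [map_sub, ← hj, h2, hpy, (hF1 (y - q)).2, map_sub]
  have hFd : DifferentiableOn ℂ (F (y - q) : ℂ → ℂ) {z ∈ D | ω z < β} := by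
    rw [← hA.Dlt_eq hβ0]
    exact (hF1 (y - q)).1.differentiableOn
  have h4 := hA.eqD' h0 hβ1.le (hp.sub ((he.diff (reg j β t y)).mono (fun w hw => hw.1))) hFd h3
    hz₀ hz₀β
  change (p : ℂ → ℂ) z₀ - e (reg j β t y) z₀ = (F (y - q) : ℂ → ℂ) z₀ at h4
  have h5 : ‖(p : ℂ → ℂ) z₀ - e (reg j β t y) z₀‖ ≤ |C₇| * ‖y - q‖ := by
    rw [h4]
    refine (hC₇ (y - q) z₀ rfl).trans ?_
    gcongr
    exact le_abs_self _
  have h6 : ‖e (reg j β t y) z₀‖ ≤ C * ‖scalePow j (β - α) q‖ := by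
    apply hC
    rw [← scalePow_add j hα0.le (by linarith), add_sub_cancel, ← h2]
  have h7 : ‖scalePow j (β - α) q‖ ≤ ‖scalePow j (β - α) y‖ + ‖scalePow j (β - α)‖ * ‖y - q‖ := by
    have h8 : scalePow j (β - α) q = scalePow j (β - α) y - scalePow j (β - α) (y - q) := by
      rw [map_sub]
      abel
    rw [h8]
    exact (norm_sub_le _ _).trans (add_le_add le_rfl ((scalePow j (β - α)).le_opNorm _))
  have h8 : ‖(p : ℂ → ℂ) z₀‖ ≤ ‖(p : ℂ → ℂ) z₀ - e (reg j β t y) z₀‖ + ‖e (reg j β t y) z₀‖ := by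
    have := norm_add_le ((p : ℂ → ℂ) z₀ - e (reg j β t y) z₀) (e (reg j β t y) z₀)
    rwa [sub_add_cancel] at this
  have h9 : C₈ * ‖y - q‖ ≤ ε := by
    calc C₈ * ‖y - q‖ ≤ (C₈ + 1) * ‖y - q‖ := by gcongr; linarith
      _ ≤ (C₈ + 1) * (ε / (C₈ + 1)) := by gcongr
      _ = ε := by field_simp
  have h10 : C * ‖scalePow j (β - α) q‖ ≤ C * (‖scalePow j (β - α) y‖ +
      ‖scalePow j (β - α)‖ * ‖y - q‖) := by gcongr
  calc ‖(p : ℂ → ℂ) z₀‖ ≤ |C₇| * ‖y - q‖ + C * (‖scalePow j (β - α) y‖ +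
      ‖scalePow j (β - α)‖ * ‖y - q‖) := by linarith
    _ = C * ‖scalePow j (β - α) y‖ + C₈ * ‖y - q‖ := by rw [hC₈]; ring
    _ ≤ _ := by linarith

/-- necessity -/
theorem nec (hS : PropertyS D K ω) : ∀ z ∈ D, ω z ≤ wInf D K z := by
  by_contra hcon
  push Not at hcon
  obtain ⟨z₀, hz₀, hlt⟩ := hcon
  obtain ⟨s, hs1, hsw⟩ := exists_between hlt
  set w := ω z₀ with hw
  have hs0 : 0 < s := (wInf_nonneg hz₀).trans_lt hs1
  have hw1 : w < 1 := hA.lt_one z₀ hz₀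
  have hz₀H : z₀ ∈ Hull D K s := by
    by_contra h
    have := le_wInf (good_of_notMem_hull hA.nonempty (by linarith) hz₀ h)
    linarith
  have hz₀K : z₀ ∉ K := fun h => by
    have := hA.zero z₀ h
    linarith
  obtain ⟨E₁, _, _, _, e, he, hsp⟩ := exists_special_H1 hA.isOpen hA.compact hA.nonempty hA.subset
    hs0 (by linarith) hz₀H
  obtain ⟨E₀, _, _, _, ι, j, h0, hj', hdense, hscale⟩ := hS E₁ e he
  have hj : ∀ x, j x = ι ⟨e x, hA.e_mem he x⟩ := fun x => hj' x _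
  -- parameters
  set α := (2 * s + w) / 3 with hα
  set α₂ := (s + 2 * w) / 3 with hα₂
  have hsα : s < α := by rw [hα]; linarith
  have hαα₂ : α < α₂ := by rw [hα, hα₂]; linarith
  have hα₂w : α₂ < w := by rw [hα₂]; linarith
  have hα0 : 0 < α := hs0.trans hsα
  have hα1 : α < 1 := by linarith
  set m₀ := max w (2 * α / (α + α₂)) with hm₀
  have hm₀1 : m₀ < 1 := by
    apply max_lt hw1
    rw [div_lt_one (by linarith)]
    linarith
  set β := (1 + m₀) / 2 with hβ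
  have hβm : m₀ < β := by rw [hβ]; linarith
  have hβ1 : β < 1 := by rw [hβ]; linarith
  have hwβ : w < β := (le_max_left _ _).trans_lt hβm
  have hαβ : α ≤ β := by linarith
  have hβ0 : 0 < β := by linarith
  have hτ : α / β < (α + α₂) / 2 := by
    have h1 : 2 * α / (α + α₂) < β := (le_max_right _ _).trans_lt hβm
    rw [div_lt_iff₀ (by linarith)] at h1
    rw [div_lt_iff₀ hβ0]
    linarith
  set τ := α / β with hτdef
  have hτ0 : 0 < τ := by positivity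
  have hτ1 : τ < 1 := by linarith
  set γ := (α₂ - α) / 4 with hγ
  have hγ0 : 0 < γ := by rw [hγ]; linarith
  have hγα₂ : γ ≤ α₂ := by rw [hγ]; linarith
  have hγw : γ < w := by linarith
  obtain ⟨C, hC0, hC⟩ := hA.eval_bound he h0 hj hscale hz₀ hs0 hsp hsα hα1
  -- the function `1 / (z - z₀)`
  have hf₀a : AnalyticOnNhd ℂ (fun z : ℂ => (z - z₀)⁻¹) {z₀}ᶜ := by
    intro z hz
    have hne : z - z₀ ≠ 0 := sub_ne_zero.2 hz
    exact (analyticAt_id.sub analyticAt_const).inv hne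
  have hf₀m : (fun z : ℂ => (z - z₀)⁻¹) ∈ germs K := fun z hz => hf₀a z (fun h => hz₀K (h ▸ hz))
  obtain ⟨L₁, hL₁V, hL₁, C₁, hC₁⟩ := (hscale α₂ (by linarith) (by linarith)).lower {z₀}ᶜ
    isOpen_compl_singleton (by
      rw [hA.closure_Dlt (by linarith) (by linarith)]
      intro z hz h
      have h1 := hz.2
      rw [mem_singleton_iff.1 h] at h1
      linarith)
  obtain ⟨M₁, hM₁⟩ := hL₁.exists_bound_of_continuousOn (hf₀a.continuousOn.mono hL₁V)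
  obtain ⟨y₀, hy₀, -⟩ := hC₁ ⟨_, hf₀m⟩ M₁ hf₀a hM₁
  -- the functions `p k`
  set h : ℕ → E₁ := fun k => reg j α₂ (tk k) y₀ with hh
  have hpd : ∀ k, DifferentiableOn ℂ (fun z => 1 - (z - z₀) * e (h k) z) D := by
    intro k
    have h1 : DifferentiableOn ℂ (fun z : ℂ => z - z₀) D := by fun_prop
    exact (differentiableOn_const _).sub (h1.mul (he.diff (h k)))
  have hpa : ∀ k, AnalyticOnNhd ℂ (fun z => 1 - (z - z₀) * e (h k) z) D := fun k =>
    (hpd k).analyticOnNhd hA.isOpen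
  let p : ℕ → germs K := fun k => ⟨fun z => 1 - (z - z₀) * e (h k) z, fun z hz =>
    hpa k z (hA.subset hz)⟩
  have hhk : ∀ k, ‖h k‖ ≤ Real.exp ((1 - α₂) * k) * ‖y₀‖ := fun k =>
    norm_reg_tk j (by linarith) (by linarith) y₀ k
  -- `p k` in `H^β`
  obtain ⟨Lβ, hLβD, hLβ, Cβ, hCβ⟩ := (hscale β hβ0 hβ1).lower D hA.isOpen (by
    rw [hA.closure_Dlt hβ0 hβ1]
    exact fun z hz => hz.1)
  obtain ⟨C₈, hC₈⟩ := he.cont Lβ hLβD hLβ
  obtain ⟨R₁, hR₁⟩ := hLβ.exists_bound_of_continuousOn (f := fun z : ℂ => z - z₀) (by fun_prop)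
  have hpβ : ∀ k : ℕ, ∃ y, ι (p k) = scalePow j β y ∧
      ‖y‖ ≤ Real.exp (|Cβ| * (1 + |R₁| * |C₈| * ‖y₀‖) + (1 - α₂) * k) := by
    intro k
    obtain ⟨y, h1, h2⟩ := hCβ (p k) ((1 + |R₁| * |C₈| * ‖y₀‖) * Real.exp ((1 - α₂) * k)) (hpa k) (by
      intro z hz
      change ‖1 - (z - z₀) * e (h k) z‖ ≤ _
      have h3 : ‖(z - z₀) * e (h k) z‖ ≤ |R₁| * (|C₈| * (Real.exp ((1 - α₂) * k) * ‖y₀‖)) := by
        rw [norm_mul]
        apply mul_le_mul ((hR₁ z hz).trans (le_abs_self _)) _ (norm_nonneg _) (abs_nonneg _)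
        refine (hC₈ (h k) z hz).trans ?_
        calc C₈ * ‖h k‖ ≤ |C₈| * ‖h k‖ := by gcongr; exact le_abs_self _
          _ ≤ |C₈| * (Real.exp ((1 - α₂) * k) * ‖y₀‖) := by gcongr; exact hhk k
      have h4 : (1 : ℝ) ≤ Real.exp ((1 - α₂) * k) := by
        apply Real.one_le_exp
        have : 0 ≤ 1 - α₂ := by linarith
        positivity
      have h5 := norm_sub_le (1 : ℂ) ((z - z₀) * e (h k) z)
      rw [norm_one] at h5
      calc _ ≤ 1 + ‖(z - z₀) * e (h k) z‖ := h5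
        _ ≤ Real.exp ((1 - α₂) * k) + |R₁| * (|C₈| * (Real.exp ((1 - α₂) * k) * ‖y₀‖)) :=
          add_le_add h4 h3
        _ = _ := by ring)
    refine ⟨y, h1, h2.trans ?_⟩
    rw [Real.exp_add]
    calc Cβ * ((1 + |R₁| * |C₈| * ‖y₀‖) * Real.exp ((1 - α₂) * k))
        ≤ |Cβ| * ((1 + |R₁| * |C₈| * ‖y₀‖) * Real.exp ((1 - α₂) * k)) := by
          gcongr
          exact le_abs_self _
      _ = (|Cβ| * (1 + |R₁| * |C₈| * ‖y₀‖)) * Real.exp ((1 - α₂) * k) := by ring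
      _ ≤ Real.exp (|Cβ| * (1 + |R₁| * |C₈| * ‖y₀‖)) * Real.exp ((1 - α₂) * k) := by
        gcongr
        have := Real.add_one_le_exp (|Cβ| * (1 + |R₁| * |C₈| * ‖y₀‖))
        linarith
  -- `p k` in `H₀`
  have hKγ : K ⊆ {z ∈ D | ω z < γ} := fun z hz => ⟨hA.subset hz, by rw [hA.zero z hz]; exact hγ0⟩
  obtain ⟨L₉, hL₉V, hL₉, C₉, hC₉⟩ := h0.cont {z ∈ D | ω z < γ} (hA.lt_open γ) hKγ
  obtain ⟨F, hF1, hF2⟩ := (hscale γ hγ0 (by linarith)).upper
  obtain ⟨C₁₀, hC₁₀⟩ := hF2 L₉ (by rw [hA.Dlt_eq hγ0]; exact hL₉V) hL₉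
  obtain ⟨R₂, hR₂⟩ := hL₉.exists_bound_of_continuousOn (f := fun z : ℂ => z - z₀) (by fun_prop)
  have hp0 : ∀ k : ℕ, ‖ι (p k)‖ ≤ Real.exp (|C₉| * (|R₂| * |C₁₀| * ‖y₀‖) - (α₂ - γ) * k) := by
    intro k
    obtain ⟨y', h1, h2⟩ := norm_err j hγ0.le hγα₂ (by linarith) y₀ k
    have h3 : ι (⟨_, hf₀m⟩ - ⟨e (h k), hA.e_mem he _⟩) = ι (F y') := by
      rw [map_sub, ← hj, hy₀, (hF1 y').2, ← h1]
    have hf₀d : DifferentiableOn ℂ (fun z : ℂ => (z - z₀)⁻¹) {z ∈ D | ω z < γ} := by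
      apply hf₀a.differentiableOn.mono
      intro z hz hzz
      have h4 := hz.2
      rw [mem_singleton_iff.1 hzz] at h4
      linarith
    have hFd : DifferentiableOn ℂ (F y' : ℂ → ℂ) {z ∈ D | ω z < γ} := by
      rw [← hA.Dlt_eq hγ0]
      exact (hF1 y').1.differentiableOn
    have h4 : ∀ z ∈ L₉, ‖(p k : ℂ → ℂ) z‖ ≤ |R₂| * (|C₁₀| * (Real.exp (-((α₂ - γ) * k)) * ‖y₀‖)) := by
      intro z hz
      have hzV := hL₉V hz
      have h5 := hA.eqD' h0 (by linarith : γ ≤ 1)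
        (hf₀d.sub ((he.diff (h k)).mono (fun w hw => hw.1))) hFd h3 hzV.1 hzV.2
      change (z - z₀)⁻¹ - e (h k) z = (F y' : ℂ → ℂ) z at h5
      have hne : z - z₀ ≠ 0 := by
        rw [sub_ne_zero]
        intro hzz
        have h6 := hzV.2
        rw [hzz] at h6
        linarith
      have h6 : (p k : ℂ → ℂ) z = (z - z₀) * (F y' : ℂ → ℂ) z := by
        rw [← h5]
        change 1 - (z - z₀) * e (h k) z = _
        field_simp
      rw [h6, norm_mul]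
      apply mul_le_mul ((hR₂ z hz).trans (le_abs_self _)) _ (norm_nonneg _) (abs_nonneg _)
      refine (hC₁₀ y' z hz).trans ?_
      calc C₁₀ * ‖y'‖ ≤ |C₁₀| * ‖y'‖ := by gcongr; exact le_abs_self _
        _ ≤ |C₁₀| * (Real.exp (-((α₂ - γ) * k)) * ‖y₀‖) := by gcongr
    have h5 := hC₉ (p k) _ (fun z hz => hpa k z hz.1) h4
    refine h5.trans ?_
    have e9 : Real.exp (|C₉| * (|R₂| * |C₁₀| * ‖y₀‖) - (α₂ - γ) * k) =
        Real.exp (|C₉| * (|R₂| * |C₁₀| * ‖y₀‖)) * Real.exp (-((α₂ - γ) * k)) := by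
      rw [← Real.exp_add]
      congr 1
    rw [e9]
    calc C₉ * (|R₂| * (|C₁₀| * (Real.exp (-((α₂ - γ) * k)) * ‖y₀‖)))
        ≤ |C₉| * (|R₂| * (|C₁₀| * (Real.exp (-((α₂ - γ) * k)) * ‖y₀‖))) := by
          gcongr
          exact le_abs_self _
      _ = (|C₉| * (|R₂| * |C₁₀| * ‖y₀‖)) * Real.exp (-((α₂ - γ) * k)) := by ring
      _ ≤ Real.exp (|C₉| * (|R₂| * |C₁₀| * ‖y₀‖)) * Real.exp (-((α₂ - γ) * k)) := by
        gcongr
        have := Real.add_one_le_exp (|C₉| * (|R₂| * |C₁₀| * ‖y₀‖))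
        linarith
  -- the contradiction
  set a₀ := |C₉| * (|R₂| * |C₁₀| * ‖y₀‖) with ha₀
  set b₀ := |Cβ| * (1 + |R₁| * |C₈| * ‖y₀‖) with hb₀
  have ha₀0 : 0 ≤ a₀ := by positivity
  have hb₀0 : 0 ≤ b₀ := by positivity
  have hfin : ∀ k : ℕ, 1 ≤ C * (2 * Real.exp (a₀ + b₀ - γ * k)) := by
    intro k
    obtain ⟨y, h1, h2⟩ := hpβ k
    have h3 := hA.eval_bound' he h0 hj hdense hscale hz₀ hα0 hαβ hβ1 hwβ hC0 hC (p := p k) (y := y)
      ((hpd k).mono (fun z hz => hz.1)) h1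
    have h4 : (p k : ℂ → ℂ) z₀ = 1 := by
      change 1 - (z₀ - z₀) * e (h k) z₀ = 1
      ring
    rw [h4, norm_one] at h3
    refine h3.trans ?_
    gcongr
    have h5 := scalePow_moment' j (a := β - α) (b := β) (by linarith) (by linarith) hβ0
      (Real.exp_pos (a₀ - (α₂ - γ) * k)) (Real.exp_pos (b₀ + (1 - α₂) * k)) (y := y)
      (by rw [← h1]; exact hp0 k) h2
    refine h5.trans ?_
    rw [← Real.exp_mul, ← Real.exp_mul, ← Real.exp_add]
    have h6 : (β - α) / β = 1 - τ := by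
      rw [hτdef]
      field_simp
    rw [h6]
    have h7 : (a₀ - (α₂ - γ) * k) * (1 - τ) + (b₀ + (1 - α₂) * k) * (1 - (1 - τ)) ≤
        a₀ + b₀ - γ * k := by
      have e1 : (a₀ - (α₂ - γ) * k) * (1 - τ) + (b₀ + (1 - α₂) * k) * (1 - (1 - τ)) =
          a₀ * (1 - τ) + b₀ * τ + k * (-(α₂ - γ) + τ * (1 - γ)) := by ring
      rw [e1]
      have h8 : a₀ * (1 - τ) ≤ a₀ := by
        have := mul_nonneg ha₀0 hτ0.le
        linarith
      have h9 : b₀ * τ ≤ b₀ := by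
        have := mul_le_mul_of_nonneg_left hτ1.le hb₀0
        linarith
      have h10 : -(α₂ - γ) + τ * (1 - γ) ≤ -γ := by
        have h11 : 0 ≤ τ * γ := by positivity
        have h12 : τ * (1 - γ) = τ - τ * γ := by ring
        rw [h12]
        have h13 : α₂ - 2 * γ = (α + α₂) / 2 := by rw [hγ]; ring
        linarith
      have h11 := mul_le_mul_of_nonneg_left h10 (Nat.cast_nonneg k : (0 : ℝ) ≤ k)
      linarith
    exact mul_le_mul_of_nonneg_left (Real.exp_le_exp.2 h7) (by norm_num)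
  have hlim : Tendsto (fun k : ℕ => C * (2 * Real.exp (a₀ + b₀ - γ * k))) atTop (𝓝 0) := by
    have h1 : Tendsto (fun k : ℕ => Real.exp (-(γ * k))) atTop (𝓝 0) := by
      apply Real.tendsto_exp_neg_atTop_nhds_zero.comp
      exact tendsto_natCast_atTop_atTop.const_mul_atTop hγ0
    have h2 := h1.const_mul (C * (2 * Real.exp (a₀ + b₀)))
    rw [mul_zero] at h2
    refine h2.congr (fun k => ?_)
    have e9 : Real.exp (a₀ + b₀ - γ * k) = Real.exp (a₀ + b₀) * Real.exp (-(γ * k)) := by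
      rw [← Real.exp_add]
      congr 1
    rw [e9]
    ring
  have := ge_of_tendsto' hlim hfin
  linarith

end Admissible

end Pool.Agent.W5h46.SC
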