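import Pool.Agent.W5h46.SC.Glue

/-!
# Compactness of the hulls forces the envelope to be the harmonic measure
-/

set_option autoImplicit false

open Set Metric Filter Topology InnerProductSpace

namespace Pool.Agent.W5h46.SC

namespace Admissible

variable {D K : Set ℂ} {ω : ℂ → ℝ} (hA : Admissible D K ω)

include hA

lemma v_open (b : ℝ) : IsOpen {z ∈ D | ω z - wInf D K z < b} := by
  rw [isOpen_iff_mem_nhds]
  rintro z ⟨hz, hlt⟩
  obtain ⟨a, ha1, ha2⟩ := exists_between (show ω z - b < wInf D K z by linarith)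
  have h1 := good_of_lt hz ha2
  have h2 : ContinuousAt (fun w => ω w - b) z := (hA.contAt hz).sub continuousAt_const
  filter_upwards [(good_isOpen hA.isOpen a).mem_nhds h1, h2.eventually (gt_mem_nhds ha1),
    hA.isOpen.mem_nhds hz] with w hw1 hw2 hwD
  refine ⟨hwD, ?_⟩
  have := le_wInf hw1
  linarith

/-- if all the interpolation hulls are compact, the envelope is the harmonic measure -/
theorem le_wInf_of_compact (hC : ∀ θ, 0 < θ → θ < 1 → IsCompact (Hull D K θ)) :
    ∀ z ∈ D, ω z ≤ wInf D K z := by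
  by_contra hcon
  push Not at hcon
  obtain ⟨z₀, hz₀, hlt⟩ := hcon
  set v : ℂ → ℝ := fun z => ω z - wInf D K z with hv
  set b := v z₀ with hb
  have hb0 : 0 < b := by simp only [hb, hv]; linarith
  have hv1 : ∀ z ∈ D, v z < 1 := by
    intro z hz
    have h1 := hA.lt_one z hz
    have h2 := wInf_nonneg (K := K) hz
    simp only [hv]
    linarith
  have hb1 : b < 1 := hv1 z₀ hz₀
  set S : Set ℂ := Hull D K (1 - b / 2) \ {z ∈ D | v z < b} with hS
  have hSc : IsCompact S := (hC _ (by linarith) (by linarith)).diff (hA.v_open b)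
  have hSD : S ⊆ D := fun z hz => hz.1.1
  have hSb : ∀ z ∈ S, b ≤ v z := by
    intro z hz
    by_contra h
    push Not at h
    exact hz.2 ⟨hSD hz, h⟩
  have hSmem : ∀ z ∈ D, b ≤ v z → z ∈ S := by
    intro z hz hbz
    refine ⟨?_, fun h => ?_⟩
    · by_contra hh
      have h1 := le_wInf (good_of_notMem_hull hA.nonempty (by linarith) hz hh)
      have h2 := hA.lt_one z hz
      simp only [hv] at hbz
      linarith
    · have := h.2
      linarith
  have husc : ∀ C : Set ℂ, C ⊆ D → UpperSemicontinuousOn v C := by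
    intro C hCD x hx y hy
    have h1 := (hA.v_open y).mem_nhds (show x ∈ {z ∈ D | ω z - wInf D K z < y} from ⟨hCD hx, hy⟩)
    exact mem_nhdsWithin_of_mem_nhds (mem_of_superset h1 fun w hw => hw.2)
  obtain ⟨zm, hzm, hmax⟩ := UpperSemicontinuousOn.exists_isMaxOn
    (⟨z₀, hSmem z₀ hz₀ le_rfl⟩ : S.Nonempty) hSc (husc S hSD)
  set s := v zm with hs
  have hbs : b ≤ s := hSb zm hzm
  have hs0 : 0 < s := hb0.trans_le hbs
  have hle : ∀ z ∈ D, v z ≤ s := by
    intro z hz
    by_cases h : b ≤ v z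
    · exact hmax (hSmem z hz h)
    · push Not at h
      linarith
  set Z : Set ℂ := S \ {z ∈ D | v z < s} with hZ
  have hZc : IsCompact Z := hSc.diff (hA.v_open s)
  have hzmZ : zm ∈ Z := ⟨hzm, fun h => lt_irrefl _ h.2⟩
  obtain ⟨z₁, hz₁, hre⟩ := hZc.exists_isMaxOn ⟨zm, hzmZ⟩ Complex.continuous_re.continuousOn
  have hz₁D : z₁ ∈ D := hSD hz₁.1
  have hvz₁ : v z₁ = s := by
    apply le_antisymm (hle z₁ hz₁D)
    by_contra h
    push Not at h
    exact hz₁.2 ⟨hz₁D, h⟩
  have hZmem : ∀ z ∈ D, v z = s → z.re ≤ z₁.re := by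
    intro z hz hvz
    apply hre
    refine ⟨hSmem z hz (by rw [hvz]; exact hbs), fun h => ?_⟩
    have := h.2
    linarith
  have hz₁K : z₁ ∉ K := by
    intro h
    have h1 := hA.zero z₁ h
    have h2 := wInf_nonneg (K := K) hz₁D
    simp only [hv] at hvz₁
    linarith
  obtain ⟨r, hr, hball⟩ := isOpen_iff.1 hA.isOpen_diff z₁ ⟨hz₁D, hz₁K⟩
  obtain ⟨F₀, hF₀, hre₀⟩ := InnerProductSpace.HarmonicOnNhd.exists_analyticOnNhd_ball_re_eq
    (f := ω) (z := z₁) (R := r) (fun y hy => hA.harm y (hball hy))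
  set ρ := r / 2 with hρ
  have hρ0 : 0 < ρ := by positivity
  have hρr : ρ < r := by rw [hρ]; linarith
  set β : ℂ → ℝ := fun z => (z - z₁).re + ((z - z₁) ^ 2).re / (4 * ρ) + ρ / 8 with hβ
  have hβc : Continuous β := by fun_prop
  have hsph : sphere z₁ ρ ⊆ D := fun z hz => (hball (mem_ball.2 (by
    rw [mem_sphere] at hz; linarith))).1
  have hβneg : ∀ z ∈ sphere z₁ ρ, 0 ≤ β z → z₁.re < z.re := by
    intro z hz hβz
    by_contra hcon
    push Not at hcon
    set x := (z - z₁).re with hx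
    set y := (z - z₁).im with hy
    have hx0 : x ≤ 0 := by rw [hx, Complex.sub_re]; linarith
    have hn : x ^ 2 + y ^ 2 = ρ ^ 2 := by
      rw [mem_sphere, dist_eq_norm] at hz
      have h1 := Complex.sq_norm (z - z₁)
      rw [hz, Complex.normSq_apply] at h1
      rw [hx, hy]
      linarith
    have hsq : ((z - z₁) ^ 2).re = x ^ 2 - y ^ 2 := by
      rw [pow_two, Complex.mul_re]
      ring
    have hxρ : -ρ ≤ x := by
      have : x ^ 2 ≤ ρ ^ 2 := by nlinarith [sq_nonneg y]
      exact (abs_le_of_sq_le_sq' this hρ0.le).1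
    have h2 : β z = x + (2 * x ^ 2 - ρ ^ 2) / (4 * ρ) + ρ / 8 := by
      simp only [hβ]
      rw [hsq, ← hx]
      have : x ^ 2 - y ^ 2 = 2 * x ^ 2 - ρ ^ 2 := by linarith
      rw [this]
    have h3 : x + (2 * x ^ 2 - ρ ^ 2) / (4 * ρ) + ρ / 8 = x * (1 + x / (2 * ρ)) - ρ / 8 := by
      field_simp
      ring
    have h4 : 0 ≤ 1 + x / (2 * ρ) := by
      have : -(1 / 2) ≤ x / (2 * ρ) := by
        rw [le_div_iff₀ (by positivity)]
        linarith
      linarith
    rw [h2, h3] at hβz
    nlinarith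
  have hβle : ∀ z ∈ closedBall z₁ ρ, β z ≤ 2 * ρ := by
    intro z hz
    rw [mem_closedBall, dist_eq_norm] at hz
    have h1 : (z - z₁).re ≤ ρ := (Complex.re_le_norm _).trans hz
    have h2 : ((z - z₁) ^ 2).re ≤ ρ ^ 2 := by
      refine (Complex.re_le_norm _).trans ?_
      rw [norm_pow]
      gcongr
    have h3 : ((z - z₁) ^ 2).re / (4 * ρ) ≤ ρ / 4 := by
      rw [div_le_div_iff₀ (by positivity) (by norm_num)]
      nlinarith
    simp only [hβ]
    linarith
  -- margin on the part of the sphere where `β ≥ 0`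
  obtain ⟨η, hη0, hη⟩ : ∃ η, 0 < η ∧ ∀ z ∈ sphere z₁ ρ, 0 ≤ β z → v z < s - η := by
    set E : Set ℂ := sphere z₁ ρ ∩ {z | 0 ≤ β z} with hE
    have hEc : IsCompact E := (isCompact_sphere z₁ ρ).inter_right (isClosed_le continuous_const hβc)
    by_cases hne : E.Nonempty
    · obtain ⟨w, hw, hwmax⟩ := UpperSemicontinuousOn.exists_isMaxOn hne hEc
        (husc E (fun z hz => hsph hz.1))
      have h1 : v w < s := by
        rcases (hle w (hsph hw.1)).lt_or_eq with h | h
        · exact h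
        · have h2 := hZmem w (hsph hw.1) h
          have h3 := hβneg w hw.1 hw.2
          linarith
      refine ⟨(s - v w) / 2, by linarith, fun z hz hβz => ?_⟩
      have h2 : v z ≤ v w := hwmax ⟨hz, hβz⟩
      linarith
    · exact ⟨1, one_pos, fun z hz hβz => absurd ⟨z, hz, hβz⟩ hne⟩
  set η' := min η (s / 2) with hη'
  have hη'0 : 0 < η' := lt_min hη0 (by linarith)
  set t := η' / (2 * ρ) with ht
  have ht0 : 0 < t := by positivity
  have htρ : t * (2 * ρ) = η' := by rw [ht]; field_simp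
  set F : ℂ → ℂ := fun z => F₀ z + t * ((z - z₁) + (z - z₁) ^ 2 / (4 * ρ) + ρ / 8) -
    (s + t * ρ / 16 : ℝ) with hF
  have hFre : ∀ z ∈ ball z₁ r, (F z).re = ω z + t * β z - (s + t * ρ / 16) := by
    intro z hz
    have h1 : (F₀ z).re = ω z := hre₀ hz
    have h2 : ((z - z₁) ^ 2 / (4 * ρ)).re = ((z - z₁) ^ 2).re / (4 * ρ) := by
      have : (4 * ρ : ℂ) = ((4 * ρ : ℝ) : ℂ) := by push_cast; ring
      rw [this, Complex.div_ofReal_re]
    have h3 : ((ρ : ℂ) / 8).re = ρ / 8 := by
      have : (ρ / 8 : ℂ) = ((ρ / 8 : ℝ) : ℂ) := by push_cast; ring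
      rw [this, Complex.ofReal_re]
    simp only [hF, hβ, Complex.sub_re, Complex.add_re, Complex.ofReal_re, Complex.re_ofReal_mul]
    rw [h1, h2, h3]
  have hball' : closedBall z₁ ρ ⊆ ball z₁ r := closedBall_subset_ball hρr
  have hFd : DifferentiableOn ℂ F (ball z₁ r) := by
    have h1 : DifferentiableOn ℂ F₀ (ball z₁ r) := hF₀.differentiableOn
    have h2 : DifferentiableOn ℂ (fun z : ℂ => (t : ℂ) * ((z - z₁) + (z - z₁) ^ 2 / (4 * ρ) + ρ / 8))
        (ball z₁ r) := by fun_prop
    exact (h1.add h2).sub (differentiableOn_const _)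
  have hmain := glue_ball (K := K) hA.isOpen hA.subset hρ0 hρr hball hFd (by
    intro ζ hζ
    have hζb := hball' (sphere_subset_closedBall hζ)
    apply good_of_lt (hsph hζ)
    rw [hFre ζ hζb]
    have hle1 := hle ζ (hsph hζ)
    rcases lt_or_ge (β ζ) 0 with h | h
    · simp only [hv] at hle1
      have : t * β ζ < 0 := mul_neg_of_pos_of_neg ht0 h
      have : 0 < t * ρ / 16 := by positivity
      linarith
    · have h1 := hη ζ hζ h
      simp only [hv] at h1
      have h2 := hβle ζ (sphere_subset_closedBall hζ)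
      have h3 : t * β ζ ≤ η' := by
        rw [← htρ]
        gcongr
      have h4 : η' ≤ η := min_le_left _ _
      have : 0 < t * ρ / 16 := by positivity
      linarith) (η := s / 2) (by linarith) (by
    intro ζ hζ
    rw [hFre ζ (hball' hζ)]
    have h1 := hA.le_one ζ (hball (hball' hζ)).1
    have h2 := hβle ζ hζ
    have h3 : t * β ζ ≤ η' := by
      rw [← htρ]
      gcongr
    have h4 : η' ≤ s / 2 := min_le_right _ _
    have : 0 < t * ρ / 16 := by positivity
    linarith)
  rw [hFre z₁ (mem_ball_self hr)] at hmain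
  have hβ1 : β z₁ = ρ / 8 := by simp [hβ]
  rw [hβ1] at hmain
  simp only [hv] at hvz₁
  have : 0 < t * ρ := by positivity
  linarith

end Admissible

end Pool.Agent.W5h46.SC
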