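import Pool.Agent.W5h46.SC.Upper
import Pool.Agent.W5h46.SC.Approx

/-!
# Sufficiency: if the envelope is the harmonic measure then property (S) holds
-/

set_option autoImplicit false

open Set Metric Filter Topology InnerProductSpace

namespace Pool.Agent.W5h46.SC

lemma exists_interp_exp {E₁ E₀ : Type} [NormedAddCommGroup E₁] [InnerProductSpace ℂ E₁]
    [CompleteSpace E₁] [NormedAddCommGroup E₀] [InnerProductSpace ℂ E₀] [CompleteSpace E₀]
    (j : E₁ →L[ℂ] E₀) {α A B : ℝ} (hα0 : 0 ≤ α) (hα1 : α ≤ 1) {h : E₁}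
    (h1 : ‖j h‖ ≤ Real.exp A) (h2 : ‖h‖ ≤ Real.exp B) :
    ∃ y : E₀, scalePow j α y = j h ∧ ‖y‖ ≤ 2 * Real.exp ((1 - α) * A + α * B) := by
  obtain ⟨y, hy, hn⟩ := exists_interp j hα0 hα1 (Real.exp_pos A) (Real.exp_pos B) h1 h2
  refine ⟨y, hy, hn.trans (le_of_eq ?_)⟩
  rw [← Real.exp_mul, ← Real.exp_mul, ← Real.exp_add]
  congr 2
  ring

lemma le_exp_self (x : ℝ) : x ≤ Real.exp x := by
  have := Real.add_one_le_exp x
  linarith

namespace Admissible

variable {D K : Set ℂ} {ω : ℂ → ℝ} (hA : Admissible D K ω)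

include hA

/-- a sequence in `H₁` approximating `f` -/
lemma approx_seq (hw : ∀ z ∈ D, ω z ≤ wInf D K z) {β₁ β₂ ε : ℝ} (h1 : 0 < β₁) (h12 : β₁ < β₂)
    (h2 : β₂ < 1) (hε : 0 < ε)
    {E₁ : Type} [NormedAddCommGroup E₁] [InnerProductSpace ℂ E₁]
    {e : E₁ →ₗ[ℂ] (ℂ → ℂ)} (he : IsH1 D e) :
    ∃ C : ℝ, 0 ≤ C ∧ ∀ (V : Set ℂ) (f : ℂ → ℂ) (M : ℝ), IsOpen V →
      Sub D ω β₂ ⊆ V → DifferentiableOn ℂ f V → 0 ≤ M → (∀ z ∈ Sub D ω β₂, ‖f z‖ ≤ M) →
      ∃ x : ℕ → E₁, (∀ k, ‖x k‖ ≤ C * M * Real.exp (k * (1 - β₁ + ε))) ∧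
        ∀ k, ∀ z ∈ K, ‖e (x k) z - f z‖ ≤ C * M * Real.exp (-(k * (β₁ - ε))) := by
  obtain ⟨C₀, hC₀, happ⟩ := hA.approx hw h1 h12 h2 hε
  obtain ⟨C₁, hC₁⟩ := he.bdd
  refine ⟨|C₁| * C₀ + C₀, by positivity, ?_⟩
  intro V f M hV hVs hf hM hfM
  have hex : ∀ k : ℕ, ∃ x : E₁, ‖x‖ ≤ (|C₁| * C₀ + C₀) * M * Real.exp (k * (1 - β₁ + ε)) ∧
      ∀ z ∈ K, ‖e x z - f z‖ ≤ (|C₁| * C₀ + C₀) * M * Real.exp (-(k * (β₁ - ε))) := by
    intro k
    obtain ⟨h, hh, hD, hK⟩ := happ k V f M (Nat.cast_nonneg k) hV hVs hf hM hfM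
    obtain ⟨x, hx, hxn⟩ := hC₁ h _ hh hD
    refine ⟨x, ?_, fun z hz => ?_⟩
    · calc ‖x‖ ≤ C₁ * (C₀ * M * Real.exp (k * (1 - β₁ + ε))) := hxn
        _ ≤ |C₁| * (C₀ * M * Real.exp (k * (1 - β₁ + ε))) := by
          gcongr
          exact le_abs_self _
        _ ≤ (|C₁| * C₀ + C₀) * M * Real.exp (k * (1 - β₁ + ε)) := by
          have : 0 ≤ C₀ * M * Real.exp (k * (1 - β₁ + ε)) := by positivity
          linarith
    · rw [hx z (hA.subset hz)]
      refine (hK z hz).trans ?_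
      have : 0 ≤ |C₁| * C₀ * M * Real.exp (-(k * (β₁ - ε))) := by positivity
      linarith
  choose x hx1 hx2 using hex
  exact ⟨x, hx1, hx2⟩

section

variable {E₁ : Type} [NormedAddCommGroup E₁] [InnerProductSpace ℂ E₁] [CompleteSpace E₁]
    {e : E₁ →ₗ[ℂ] (ℂ → ℂ)} (he : IsH1 D e) {j : E₁ →L[ℂ] Ez hA.compact hA.nonempty}
    (hj : ∀ x, j x = iota hA.compact hA.nonempty ⟨e x, hA.e_mem he x⟩)

include hj

lemma norm_j_sub_iota_le {x : E₁} {f : germs K} {M : ℝ} (h : ∀ z ∈ K, ‖e x z - (f : ℂ → ℂ) z‖ ≤ M) :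
    ‖j x - iota hA.compact hA.nonempty f‖ ≤ Wc * M := by
  rw [hj, ← map_sub, norm_iota]
  exact norm_iota0_le _ _ _ h

lemma lower_aux (hw : ∀ z ∈ D, ω z ≤ wInf D K z) {α β₂ : ℝ} (hα0 : 0 < α) (hαβ : α < β₂)
    (hβ₂ : β₂ < 1) :
    ∃ C : ℝ, ∀ (V : Set ℂ) (f : germs K) (M : ℝ), IsOpen V → Sub D ω β₂ ⊆ V →
      DifferentiableOn ℂ (f : ℂ → ℂ) V → (∀ z ∈ Sub D ω β₂, ‖(f : ℂ → ℂ) z‖ ≤ M) →
      ∃ y : Ez hA.compact hA.nonempty, iota hA.compact hA.nonempty f = scalePow j α y ∧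
        ‖y‖ ≤ C * M := by
  set β₁ := (α + β₂) / 2 with hβ₁
  set ε := (β₂ - α) / 4 with hε
  have hε0 : 0 < ε := by rw [hε]; linarith
  set p := β₁ - ε with hp
  have hpα : p - α = ε := by rw [hp, hβ₁, hε]; ring
  have hp0 : 0 < p := by linarith
  have hq : 1 - β₁ + ε = 1 - p := by rw [hp]; ring
  have hp1 : p < 1 := by rw [hp, hβ₁, hε]; linarith
  obtain ⟨C₀, hC₀, hseq⟩ := hA.approx_seq hw (β₁ := β₁) (β₂ := β₂) (by rw [hβ₁]; linarith)
    (by rw [hβ₁]; linarith) hβ₂ hε0 he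
  rw [hq] at hseq
  set a' := 2 * Wc * C₀ with ha'
  set b' := 4 * C₀ with hb'
  set a'' := ‖j‖ * C₀ with ha''
  set b'' := C₀ with hb''
  set c := (1 - α) * a' + α * b' with hc
  set c'' := (1 - α) * a'' + α * b'' with hc''
  have hsum : Summable (fun k : ℕ => 2 * Real.exp (c - ε * k)) :=
    (summable_expk hε0).mul_left 2
  refine ⟨2 * Real.exp c'' + ∑' k : ℕ, 2 * Real.exp (c - ε * k), ?_⟩
  intro V f M hV hVs hf hfM
  have hM0 : 0 ≤ M := by
    obtain ⟨k, hk⟩ := hA.nonempty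
    exact (norm_nonneg _).trans (hfM k (hA.K_sub (hα0.trans hαβ).le hk))
  have hKs : K ⊆ Sub D ω β₂ := hA.K_sub (hα0.trans hαβ).le
  rcases hM0.eq_or_lt with h0 | hMpos
  · refine ⟨0, ?_, by rw [← h0]; simp⟩
    rw [map_zero]
    have h1 := norm_iota0_le hA.compact hA.nonempty f (M := 0) (fun z hz => by
      rw [h0]; exact hfM z (hKs hz))
    rw [mul_zero, ← norm_iota] at h1
    exact norm_le_zero_iff.1 h1
  set μ := Real.log M with hμ
  have hMμ : M = Real.exp μ := (Real.exp_log hMpos).symm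
  obtain ⟨x, hx1, hx2⟩ := hseq V f M hV hVs hf hM0 hfM
  -- the differences
  have hd1 : ∀ k : ℕ, ‖j (x (k + 1) - x k)‖ ≤ Real.exp (a' + μ - k * p) := by
    intro k
    have h1 : ∀ z ∈ K, ‖e (x (k + 1)) z - e (x k) z‖ ≤ 2 * C₀ * M * Real.exp (-(k * p)) := by
      intro z hz
      have h2 := hx2 k z hz
      have h3 := hx2 (k + 1) z hz
      have h4 : Real.exp (-(((k + 1 : ℕ) : ℝ) * p)) ≤ Real.exp (-(k * p)) := by
        apply Real.exp_le_exp.2
        push_cast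
        linarith
      have h5 : ‖e (x (k + 1)) z - e (x k) z‖ ≤
          ‖e (x (k + 1)) z - (f : ℂ → ℂ) z‖ + ‖e (x k) z - (f : ℂ → ℂ) z‖ := by
        have := norm_sub_le (e (x (k + 1)) z - (f : ℂ → ℂ) z) (e (x k) z - (f : ℂ → ℂ) z)
        rwa [sub_sub_sub_cancel_right] at this
      have h6 : C₀ * M * Real.exp (-(((k + 1 : ℕ) : ℝ) * p)) ≤ C₀ * M * Real.exp (-(k * p)) := by
        gcongr
      linarith
    have h2 : ‖j (x (k + 1) - x k)‖ ≤ Wc * (2 * C₀ * M * Real.exp (-(k * p))) := by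
      rw [hj, norm_iota]
      apply norm_iota0_le
      intro z hz
      change ‖e (x (k + 1) - x k) z‖ ≤ _
      rw [map_sub]
      exact h1 z hz
    calc ‖j (x (k + 1) - x k)‖ ≤ Wc * (2 * C₀ * M * Real.exp (-(k * p))) := h2
      _ = a' * (Real.exp μ * Real.exp (-(k * p))) := by rw [ha', ← hMμ]; ring
      _ ≤ Real.exp a' * (Real.exp μ * Real.exp (-(k * p))) := by
        gcongr
        exact le_exp_self _
      _ = Real.exp (a' + μ - k * p) := by
        rw [← Real.exp_add, ← Real.exp_add]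
        congr 1
        ring
  have hd2 : ∀ k : ℕ, ‖x (k + 1) - x k‖ ≤ Real.exp (b' + μ + k * (1 - p)) := by
    intro k
    have h2 := hx1 k
    have h3 := hx1 (k + 1)
    have h4 : Real.exp (((k + 1 : ℕ) : ℝ) * (1 - p)) ≤ 3 * Real.exp (k * (1 - p)) := by
      have h5 : Real.exp (((k + 1 : ℕ) : ℝ) * (1 - p)) ≤ Real.exp 1 * Real.exp (k * (1 - p)) := by
        rw [← Real.exp_add]
        apply Real.exp_le_exp.2
        push_cast
        nlinarith
      have h6 : Real.exp 1 ≤ 3 := Real.exp_one_lt_three.le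
      have h7 : 0 < Real.exp (k * (1 - p)) := Real.exp_pos _
      nlinarith
    have h5 := norm_sub_le (x (k + 1)) (x k)
    have h6 : C₀ * M * Real.exp (((k + 1 : ℕ) : ℝ) * (1 - p)) ≤
        C₀ * M * (3 * Real.exp (k * (1 - p))) := by gcongr
    calc ‖x (k + 1) - x k‖ ≤ C₀ * M * (3 * Real.exp (k * (1 - p))) +
          C₀ * M * Real.exp (k * (1 - p)) := by linarith
      _ = b' * (Real.exp μ * Real.exp (k * (1 - p))) := by rw [hb', ← hMμ]; ring
      _ ≤ Real.exp b' * (Real.exp μ * Real.exp (k * (1 - p))) := by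
        gcongr
        exact le_exp_self _
      _ = Real.exp (b' + μ + k * (1 - p)) := by
        rw [← Real.exp_add, ← Real.exp_add]
        congr 1
        ring
  -- preimages
  have hy : ∀ k : ℕ, ∃ y, scalePow j α y = j (x (k + 1) - x k) ∧
      ‖y‖ ≤ M * (2 * Real.exp (c - ε * k)) := by
    intro k
    obtain ⟨y, h1, h2⟩ := exists_interp_exp j hα0.le (by linarith) (hd1 k) (hd2 k)
    refine ⟨y, h1, h2.trans (le_of_eq ?_)⟩
    have e1 : (1 - α) * (a' + μ - k * p) + α * (b' + μ + k * (1 - p)) = μ + (c - ε * k) := by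
      rw [hc, ← hpα]
      ring
    rw [e1, Real.exp_add, ← hMμ]
    ring
  choose y hy1 hy2 using hy
  have hx0 : ‖x 0‖ ≤ Real.exp (b'' + μ) := by
    have h1 := hx1 0
    simp only [Nat.cast_zero, zero_mul, Real.exp_zero, mul_one] at h1
    calc ‖x 0‖ ≤ C₀ * M := h1
      _ ≤ Real.exp C₀ * M := by gcongr; exact le_exp_self _
      _ = Real.exp (b'' + μ) := by rw [Real.exp_add, ← hMμ]
  have hjx0 : ‖j (x 0)‖ ≤ Real.exp (a'' + μ) := by
    have h1 := hx1 0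
    simp only [Nat.cast_zero, zero_mul, Real.exp_zero, mul_one] at h1
    calc ‖j (x 0)‖ ≤ ‖j‖ * ‖x 0‖ := j.le_opNorm _
      _ ≤ ‖j‖ * (C₀ * M) := by gcongr
      _ = a'' * M := by rw [ha'']; ring
      _ ≤ Real.exp a'' * M := by gcongr; exact le_exp_self _
      _ = Real.exp (a'' + μ) := by rw [Real.exp_add, ← hMμ]
  obtain ⟨ys, hys1, hys2⟩ := exists_interp_exp j hα0.le (by linarith) hjx0 hx0
  have hys3 : ‖ys‖ ≤ M * (2 * Real.exp c'') := by
    refine hys2.trans (le_of_eq ?_)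
    have e1 : (1 - α) * (a'' + μ) + α * (b'' + μ) = μ + c'' := by rw [hc'']; ring
    rw [e1, Real.exp_add, ← hMμ]
    ring
  have hysum : Summable y := Summable.of_norm_bounded (hsum.mul_left M) hy2
  refine ⟨ys + ∑' k, y k, ?_, ?_⟩
  · rw [map_add, hys1]
    have h1 : HasSum (fun k => j (x (k + 1) - x k)) (scalePow j α (∑' k, y k)) := by
      have := hysum.hasSum.mapL (scalePow j α)
      simpa only [hy1] using this
    have h2 := h1.tendsto_sum_nat
    have h3 : (fun N => ∑ k ∈ Finset.range N, j (x (k + 1) - x k)) = fun N => j (x N) - j (x 0) := by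
      funext N
      rw [← map_sum, Finset.sum_range_sub, map_sub]
    rw [h3] at h2
    have h4 : Tendsto (fun N => j (x N)) atTop (𝓝 (iota hA.compact hA.nonempty f)) := by
      rw [tendsto_iff_norm_sub_tendsto_zero]
      have h5 : Tendsto (fun N : ℕ => Wc * (C₀ * M * Real.exp (-(N * p)))) atTop (𝓝 0) := by
        have h6 : Tendsto (fun N : ℕ => Real.exp (-((N : ℝ) * p))) atTop (𝓝 0) := by
          apply Real.tendsto_exp_neg_atTop_nhds_zero.comp
          exact tendsto_natCast_atTop_atTop.atTop_mul_const hp0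
        have := (h6.const_mul (C₀ * M)).const_mul Wc
        rwa [mul_zero, mul_zero] at this
      exact squeeze_zero (fun _ => norm_nonneg _)
        (fun N => hA.norm_j_sub_iota_le he hj (hx2 N)) h5
    have h5 := h4.sub_const (j (x 0))
    have h6 := tendsto_nhds_unique h2 h5
    rw [h6]
    abel
  · have h1 : ‖∑' k, y k‖ ≤ ∑' k : ℕ, M * (2 * Real.exp (c - ε * k)) :=
      tsum_of_norm_bounded (hsum.mul_left M).hasSum hy2
    rw [tsum_mul_left] at h1
    calc ‖ys + ∑' k, y k‖ ≤ ‖ys‖ + ‖∑' k, y k‖ := norm_add_le _ _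
      _ ≤ M * (2 * Real.exp c'') + M * ∑' k : ℕ, 2 * Real.exp (c - ε * k) := add_le_add hys3 h1
      _ = (2 * Real.exp c'' + ∑' k : ℕ, 2 * Real.exp (c - ε * k)) * M := by ring

lemma denseRange_j (hw : ∀ z ∈ D, ω z ≤ wInf D K z) : DenseRange j := by
  rw [Metric.denseRange_iff]
  intro v r hr
  obtain ⟨f, hf⟩ := Metric.denseRange_iff.1 (denseRange_iota hA.compact hA.nonempty) v (r / 2)
    (by positivity)
  set V : Set ℂ := {z | AnalyticAt ℂ (f : ℂ → ℂ) z} with hV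
  have hVo : IsOpen V := isOpen_analyticAt ℂ (f : ℂ → ℂ)
  have hfV : DifferentiableOn ℂ (f : ℂ → ℂ) V := fun z hz =>
    (AnalyticAt.differentiableAt hz).differentiableWithinAt
  have hS0 : Sub D ω 0 ⊆ V := by
    intro z hz
    apply f.2 z
    rw [hA.mem_K_iff hz.1]
    exact le_antisymm hz.2 (hA.nonneg z hz.1)
  obtain ⟨β₂, h1, h2, h3⟩ := hA.exists_larger one_pos hVo hS0
  obtain ⟨M, hM⟩ := (hA.sub_compact h2).exists_bound_of_continuousOn (hfV.continuousOn.mono h3)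
  obtain ⟨C₀, hC₀, hseq⟩ := hA.approx_seq hw (β₁ := β₂ / 2) (β₂ := β₂) (ε := β₂ / 4) (by linarith)
    (by linarith) h2 (by linarith) he
  obtain ⟨x, hx1, hx2⟩ := hseq V f (max M 0) hVo h3 hfV (le_max_right _ _)
    (fun z hz => (hM z hz).trans (le_max_left _ _))
  have h5 : Tendsto (fun N : ℕ => Wc * (C₀ * (max M 0) * Real.exp (-(N * (β₂ / 2 - β₂ / 4)))))
      atTop (𝓝 0) := by
    have h6 : Tendsto (fun N : ℕ => Real.exp (-((N : ℝ) * (β₂ / 2 - β₂ / 4)))) atTop (𝓝 0) := by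
      apply Real.tendsto_exp_neg_atTop_nhds_zero.comp
      exact tendsto_natCast_atTop_atTop.atTop_mul_const (by linarith)
    have := (h6.const_mul (C₀ * (max M 0))).const_mul Wc
    rwa [mul_zero, mul_zero] at this
  obtain ⟨N, hN⟩ := (h5.eventually (gt_mem_nhds (show (0 : ℝ) < r / 2 by positivity))).exists
  refine ⟨x N, ?_⟩
  have h6 := hA.norm_j_sub_iota_le he hj (hx2 N)
  calc dist v (j (x N)) ≤ dist v (iota hA.compact hA.nonempty f) +
        dist (iota hA.compact hA.nonempty f) (j (x N)) := dist_triangle _ _ _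
    _ < r / 2 + r / 2 := by
      apply add_lt_add hf
      rw [dist_comm, dist_eq_norm]
      exact lt_of_le_of_lt h6 hN
    _ = r := by ring

end

/-- sufficiency -/
theorem suff (hw : ∀ z ∈ D, ω z ≤ wInf D K z) : PropertyS D K ω := by
  intro E₁ _ _ _ e he
  obtain ⟨CK, hCK⟩ := he.cont K hA.subset hA.compact
  have hbound : ∀ x : E₁, ‖(iota hA.compact hA.nonempty) ⟨e x, hA.e_mem he x⟩‖ ≤ (Wc * |CK|) * ‖x‖ := by
    intro x
    rw [norm_iota, mul_assoc]
    apply norm_iota0_le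
    intro z hz
    refine (hCK x z hz).trans ?_
    gcongr
    exact le_abs_self _
  let j : E₁ →L[ℂ] Ez hA.compact hA.nonempty :=
    ((iota hA.compact hA.nonempty).comp (e.codRestrict (germs K) (hA.e_mem he))).mkContinuous
      (Wc * |CK|) hbound
  have hj : ∀ x, j x = iota hA.compact hA.nonempty ⟨e x, hA.e_mem he x⟩ := fun x => rfl
  refine ⟨Ez hA.compact hA.nonempty, inferInstance, inferInstance, inferInstance,
    iota hA.compact hA.nonempty, j, hA.isH0, fun x hx => rfl, hA.denseRange_j he hj hw, ?_⟩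
  intro α hα0 hα1
  refine ⟨fun V hV hcl => ?_, hA.upper he hj hα0 hα1⟩
  rw [hA.closure_Dlt hα0 hα1] at hcl
  obtain ⟨β₂, h1, h2, h3⟩ := hA.exists_larger hα1 hV hcl
  obtain ⟨C, hC⟩ := hA.lower_aux he hj hw hα0 h1 h2
  exact ⟨Sub D ω β₂, h3, hA.sub_compact h2, C, fun f M hf hM =>
    hC V f M hV h3 hf.differentiableOn hM⟩

end Admissible

end Pool.Agent.W5h46.SC
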