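import Pool.Agent.W5h46.SC.Nec3
import Pool.Agent.W5h46.SC.Suff
import Pool.Agent.W5h46.SC.Perron

/-!
# The classification for plane domains
-/

set_option autoImplicit false

open Set Metric Filter Topology InnerProductSpace

namespace Pool.Agent.W5h46.SC

/-- a hull contained in a compact subset of `D` is compact -/
lemma hull_compact_of_subset {D L C : Set ℂ} (hC : IsCompact C) (hCD : C ⊆ D) {θ : ℝ}
    (h : Hull D L θ ⊆ C) : IsCompact (Hull D L θ) := by
  refine hC.of_isClosed_subset ?_ h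
  rw [← closure_subset_iff_isClosed]
  intro z hz
  have hzC : z ∈ C := closure_minimal h hC.isClosed hz
  refine ⟨hCD hzC, fun f m M hf hm hM => ?_⟩
  have hc : ContinuousWithinAt (fun w => ‖f w‖) (Hull D L θ) z :=
    (((hf z (hCD hzC)).continuousWithinAt).norm).mono (fun w hw => hw.1)
  have h1 := hc.mem_closure_image hz
  have h2 : closure ((fun w => ‖f w‖) '' Hull D L θ) ⊆ Iic (m ^ (1 - θ) * M ^ θ) := by
    apply closure_minimal _ isClosed_Iic
    rintro _ ⟨w, hw, rfl⟩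
    exact hw.2 f m M hf hm hM
  exact h2 h1

lemma hull_empty {D : Set ℂ} {θ : ℝ} (hθ1 : θ < 1) : Hull D ∅ θ = ∅ := by
  rw [Set.eq_empty_iff_forall_notMem]
  rintro z ⟨hz, h⟩
  have h1 := h (fun _ => 1) 0 1 (differentiableOn_const _) (fun w hw => absurd hw (notMem_empty w))
    (fun w _ => by simp)
  rw [norm_one, Real.zero_rpow (by linarith), zero_mul] at h1
  linarith

namespace Admissible

variable {D K : Set ℂ} {ω : ℂ → ℝ} (hA : Admissible D K ω)

include hA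

/-- hulls of other compact sets -/
lemma hull_transfer (hC : ∀ θ, 0 < θ → θ < 1 → IsCompact (Hull D K θ)) {L : Set ℂ} (hLD : L ⊆ D)
    (hL : IsCompact L) {θ : ℝ} (hθ0 : 0 < θ) (hθ1 : θ < 1) : IsCompact (Hull D L θ) := by
  rcases L.eq_empty_or_nonempty with rfl | hne
  · rw [hull_empty hθ1]
    exact isCompact_empty
  obtain ⟨β, hβ0, hβ1, hLβ⟩ : ∃ β, 0 < β ∧ β < 1 ∧ L ⊆ Sub D ω β := by
    obtain ⟨w, hw, hmax⟩ := hL.exists_isMaxOn hne (hA.cont.mono hLD)
    obtain ⟨β, h1, h2⟩ := exists_between (max_lt (hA.lt_one w (hLD hw)) one_pos)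
    exact ⟨β, (le_max_right _ _).trans_lt h1, h2, fun z hz => ⟨hLD hz,
      (show ω z ≤ ω w from hmax hz).trans ((le_max_left _ _).trans h1.le)⟩⟩
  set θ' := β * (1 - θ) + θ with hθ'
  have hθ'0 : 0 < θ' := by
    have : 0 < β * (1 - θ) := mul_pos hβ0 (by linarith)
    linarith
  have hθ'1 : θ' < 1 := by
    have : β * (1 - θ) < 1 * (1 - θ) := mul_lt_mul_of_pos_right hβ1 (by linarith)
    linarith
  refine hull_compact_of_subset (hC θ' hθ'0 hθ'1) (fun z hz => hz.1) ?_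
  rintro z ⟨hz, h⟩
  refine ⟨hz, fun f m M hf hm hM => ?_⟩
  obtain ⟨k, hk⟩ := hA.nonempty
  have hm0 : 0 ≤ m := (norm_nonneg _).trans (hm k hk)
  have hM0 : 0 ≤ M := (norm_nonneg _).trans (hM z hz)
  have h1 : ∀ w ∈ L, ‖f w‖ ≤ m ^ (1 - β) * M ^ β := fun w hw =>
    (hA.sub_subset_hull hβ1 (hLβ hw)).2 f m M hf hm hM
  have h2 := h f _ M hf h1 hM
  refine h2.trans (le_of_eq ?_)
  rw [Real.mul_rpow (Real.rpow_nonneg hm0 _) (Real.rpow_nonneg hM0 _), ← Real.rpow_mul hm0,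
    ← Real.rpow_mul hM0, mul_assoc, ← Real.rpow_add_of_nonneg hM0 (by
      have : 0 ≤ 1 - θ := by linarith
      positivity) hθ0.le]
  congr 2
  rw [hθ']
  ring

/-- the classification -/
theorem tfae : List.TFAE [PropertyS D K ω,
    ∀ L ⊆ D, IsCompact L → ∀ θ : ℝ, 0 < θ → θ < 1 → IsCompact (Hull D L θ),
    ∀ θ : ℝ, 0 < θ → θ < 1 → IsCompact (Hull D K θ),
    ∀ θ : ℝ, 0 < θ → θ < 1 → Hull D K θ = {z ∈ D | ω z ≤ θ}] := by
  tfae_have 1 → 4 := fun hS θ _ h1 => hA.hull_eq_of_wInf (hA.nec hS) h1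
  tfae_have 4 → 1 := fun h => hA.suff (hA.wInf_of_hull_eq (fun θ h0 h1 => (h θ h0 h1).subset))
  tfae_have 4 → 3 := fun h θ h0 h1 => by
    rw [h θ h0 h1]
    exact hA.sub_compact h1
  tfae_have 3 → 4 := fun h θ _ h1 => hA.hull_eq_of_wInf (hA.le_wInf_of_compact h) h1
  tfae_have 3 → 2 := fun h L hLD hL θ h0 h1 => hA.hull_transfer h hLD hL h0 h1
  tfae_have 2 → 3 := fun h => h K hA.subset hA.compact
  tfae_finish

end Admissible

end Pool.Agent.W5h46.SC
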