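import Pool.Agent.W5h46.SC.SDefs

/-!
# Charts of the sphere minus a point
-/

set_option autoImplicit false

open Set Metric Filter Topology InnerProductSpace

namespace Pool.Agent.W5h46.SC.Sph

/-- a chart of the sphere minus the point `a` -/
structure Chart (a : OnePoint ℂ) where
  ψ : ℂ → OnePoint ℂ
  σ : OnePoint ℂ → ℂ
  emb : IsOpenEmbedding ψ
  right : ∀ p, p ≠ a → ψ (σ p) = p
  ne : ∀ z, ψ z ≠ a
  left : ∀ z, σ (ψ z) = z
  an : ∀ (f : OnePoint ℂ → ℂ) (z : ℂ), AnAt f (ψ z) ↔ AnalyticAt ℂ (fun w => f (ψ w)) z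
  harm : ∀ (u : OnePoint ℂ → ℝ) (z : ℂ), HarmAt u (ψ z) → HarmonicAt (fun w => u (ψ w)) z

lemma harmonicAt_comp {u : ℂ → ℝ} {g : ℂ → ℂ} {z : ℂ} (hu : HarmonicAt u (g z))
    (hg : AnalyticAt ℂ g z) : HarmonicAt (fun w => u (g w)) z := by
  obtain ⟨r, hr, hball⟩ : ∃ r > 0, HarmonicOnNhd u (ball (g z) r) := by
    have := hu.eventually
    obtain ⟨r, hr, h⟩ := Metric.eventually_nhds_iff_ball.mp this
    exact ⟨r, hr, fun x hx => h x hx⟩
  obtain ⟨F, hF, hFu⟩ := InnerProductSpace.HarmonicOnNhd.exists_analyticOnNhd_ball_re_eq hball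
  have h1 : AnalyticAt ℂ (fun w => F (g w)) z := (hF (g z) (mem_ball_self hr)).comp hg
  have h2 : HarmonicAt (fun w => (F (g w)).re) z := h1.harmonicAt_re
  refine (harmonicAt_congr_nhds ?_).mp h2
  have h3 : ∀ᶠ w in 𝓝 z, g w ∈ ball (g z) r := hg.continuousAt (ball_mem_nhds _ hr)
  filter_upwards [h3] with w hw
  exact hFu hw

/-- the finite part of the sphere -/
noncomputable def chartInf : Chart OnePoint.infty where
  ψ := fun z => (z : OnePoint ℂ)
  σ := fun p => match p with
    | OnePoint.infty => 0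
    | OnePoint.some z => z
  emb := OnePoint.isOpenEmbedding_coe
  right := by
    intro p hp
    match p with
    | OnePoint.infty => exact absurd rfl hp
    | OnePoint.some z => rfl
  ne := fun z => OnePoint.coe_ne_infty z
  left := fun z => rfl
  an := fun f z => Iff.rfl
  harm := fun u z h => h

/-- the inverse of the map `p ↦ 1 / (p - a)` -/
noncomputable def psi (a : ℂ) (z : ℂ) : OnePoint ℂ :=
  if z = 0 then OnePoint.infty else ((a + z⁻¹ : ℂ) : OnePoint ℂ)

/-- the map `p ↦ 1 / (p - a)` -/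
noncomputable def sig (a : ℂ) : OnePoint ℂ → ℂ
  | OnePoint.infty => 0
  | OnePoint.some z => (z - a)⁻¹

lemma psi_zero (a : ℂ) : psi a 0 = OnePoint.infty := if_pos rfl

lemma psi_of_ne (a : ℂ) {z : ℂ} (hz : z ≠ 0) : psi a z = ((a + z⁻¹ : ℂ) : OnePoint ℂ) := if_neg hz

lemma atInf_of_ne {z : ℂ} (hz : z ≠ 0) : atInf z = ((z⁻¹ : ℂ) : OnePoint ℂ) := if_neg hz

lemma atInf_zero : atInf 0 = OnePoint.infty := if_pos rfl

lemma sig_psi (a z : ℂ) : sig a (psi a z) = z := by
  by_cases hz : z = 0
  · rw [hz, psi_zero]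
    rfl
  · rw [psi_of_ne a hz]
    show (a + z⁻¹ - a)⁻¹ = z
    rw [add_sub_cancel_left, inv_inv]

lemma psi_sig (a : ℂ) (p : OnePoint ℂ) (hp : p ≠ (a : OnePoint ℂ)) : psi a (sig a p) = p := by
  match p with
  | OnePoint.infty => exact psi_zero a
  | OnePoint.some z =>
    have hz : z - a ≠ 0 := by
      intro h
      exact hp (congrArg _ (sub_eq_zero.mp h))
    show psi a (z - a)⁻¹ = _
    rw [psi_of_ne a (inv_ne_zero hz), inv_inv, add_sub_cancel]

lemma psi_ne (a z : ℂ) : psi a z ≠ (a : OnePoint ℂ) := by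
  by_cases hz : z = 0
  · rw [hz, psi_zero]
    exact OnePoint.infty_ne_coe a
  · rw [psi_of_ne a hz]
    intro h
    have h1 : a + z⁻¹ = a := OnePoint.coe_injective h
    exact inv_ne_zero hz (by linear_combination h1)

/-- near any point, `psi a` is a coordinate of the sphere composed with an analytic map, and
conversely -/
lemma psi_eq_atInf (a : ℂ) : ∀ᶠ w in 𝓝 (0 : ℂ), psi a w = atInf (w / (1 + a * w)) := by
  have h1 : ∀ᶠ w in 𝓝 (0 : ℂ), 1 + a * w ≠ 0 := by
    have : ContinuousAt (fun w : ℂ => 1 + a * w) 0 := by fun_prop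
    exact this.eventually_ne (by simp)
  filter_upwards [h1] with w hw
  by_cases h0 : w = 0
  · rw [h0, psi_zero, zero_div, atInf_zero]
  · rw [psi_of_ne a h0, atInf_of_ne (div_ne_zero h0 hw)]
    congr 1
    field_simp
    ring

lemma atInf_eq_psi (a : ℂ) : ∀ᶠ w in 𝓝 (0 : ℂ), atInf w = psi a (w / (1 - a * w)) := by
  have h1 : ∀ᶠ w in 𝓝 (0 : ℂ), 1 - a * w ≠ 0 := by
    have : ContinuousAt (fun w : ℂ => 1 - a * w) 0 := by fun_prop
    exact this.eventually_ne (by simp)
  filter_upwards [h1] with w hw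
  by_cases h0 : w = 0
  · rw [h0, zero_div, atInf_zero, psi_zero]
  · rw [atInf_of_ne h0, psi_of_ne a (div_ne_zero h0 hw)]
    congr 1
    field_simp
    ring

lemma psi_an (a : ℂ) (f : OnePoint ℂ → ℂ) (z : ℂ) :
    AnAt f (psi a z) ↔ AnalyticAt ℂ (fun w => f (psi a w)) z := by
  by_cases hz : z = 0
  · subst hz
    rw [psi_zero]
    constructor
    · intro h
      have h : AnalyticAt ℂ (fun w : ℂ => f (atInf w)) 0 := h
      have hg : AnalyticAt ℂ (fun w : ℂ => w / (1 + a * w)) 0 := by
        refine analyticAt_id.div (by fun_prop) (by simp)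
      have h' : AnalyticAt ℂ (fun w : ℂ => f (atInf w)) ((fun w : ℂ => w / (1 + a * w)) 0) := by
        simpa using h
      refine (AnalyticAt.comp (f := fun w : ℂ => w / (1 + a * w)) h' hg).congr ?_
      filter_upwards [psi_eq_atInf a] with w hw
      rw [hw]
      rfl
    · intro h
      show AnalyticAt ℂ (fun w : ℂ => f (atInf w)) 0
      have hg : AnalyticAt ℂ (fun w : ℂ => w / (1 - a * w)) 0 := by
        refine analyticAt_id.div (by fun_prop) (by simp)
      have h' : AnalyticAt ℂ (fun w : ℂ => f (psi a w)) ((fun w : ℂ => w / (1 - a * w)) 0) := by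
        simpa using h
      refine (AnalyticAt.comp (f := fun w : ℂ => w / (1 - a * w)) h' hg).congr ?_
      filter_upwards [atInf_eq_psi a] with w hw
      rw [hw]
      rfl
  · rw [psi_of_ne a hz]
    constructor
    · intro h
      have h : AnalyticAt ℂ (fun w : ℂ => f w) (a + z⁻¹) := h
      have hg : AnalyticAt ℂ (fun w : ℂ => a + w⁻¹) z := analyticAt_const.add (analyticAt_inv hz)
      refine (AnalyticAt.comp (f := fun w : ℂ => a + w⁻¹) h hg).congr ?_
      filter_upwards [isOpen_ne.mem_nhds hz] with w hw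
      rw [psi_of_ne a hw]
      rfl
    · intro h
      show AnalyticAt ℂ (fun w : ℂ => f w) (a + z⁻¹)
      have hne : (a + z⁻¹) - a ≠ 0 := by
        rw [add_sub_cancel_left]
        exact inv_ne_zero hz
      have hg : AnalyticAt ℂ (fun w : ℂ => (w - a)⁻¹) (a + z⁻¹) :=
        (analyticAt_id.sub analyticAt_const).inv hne
      have h' : AnalyticAt ℂ (fun w : ℂ => f (psi a w)) ((fun w : ℂ => (w - a)⁻¹) (a + z⁻¹)) := by
        have : ((a + z⁻¹) - a)⁻¹ = z := by rw [add_sub_cancel_left, inv_inv]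
        show AnalyticAt ℂ (fun w : ℂ => f (psi a w)) ((a + z⁻¹) - a)⁻¹
        rw [this]
        exact h
      refine (AnalyticAt.comp (f := fun w : ℂ => (w - a)⁻¹) h' hg).congr ?_
      have hc : ContinuousAt (fun w : ℂ => w - a) (a + z⁻¹) := by fun_prop
      filter_upwards [hc.eventually_ne hne] with w hw
      show f (psi a (w - a)⁻¹) = f w
      rw [psi_of_ne a (inv_ne_zero hw), inv_inv, add_sub_cancel]

lemma psi_harm (a : ℂ) (u : OnePoint ℂ → ℝ) (z : ℂ) (h : HarmAt u (psi a z)) :
    HarmonicAt (fun w => u (psi a w)) z := by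
  by_cases hz : z = 0
  · subst hz
    rw [psi_zero] at h
    have h : HarmonicAt (fun w : ℂ => u (atInf w)) 0 := h
    have hg : AnalyticAt ℂ (fun w : ℂ => w / (1 + a * w)) 0 := by
      refine analyticAt_id.div (by fun_prop) (by simp)
    have h' : HarmonicAt (fun w : ℂ => u (atInf w)) ((fun w : ℂ => w / (1 + a * w)) 0) := by
      simpa using h
    refine (harmonicAt_congr_nhds ?_).mp (harmonicAt_comp h' hg)
    filter_upwards [psi_eq_atInf a] with w hw
    rw [hw]
  · rw [psi_of_ne a hz] at h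
    have h : HarmonicAt (fun w : ℂ => u w) (a + z⁻¹) := h
    have hg : AnalyticAt ℂ (fun w : ℂ => a + w⁻¹) z := analyticAt_const.add (analyticAt_inv hz)
    refine (harmonicAt_congr_nhds ?_).mp (harmonicAt_comp (g := fun w : ℂ => a + w⁻¹) h hg)
    filter_upwards [isOpen_ne.mem_nhds hz] with w hw
    rw [psi_of_ne a hw]

lemma tendsto_coe_infty' : Tendsto (fun z : ℂ => (z : OnePoint ℂ)) (cocompact ℂ)
    (𝓝 OnePoint.infty) := by
  have h := OnePoint.tendsto_coe_infty (X := ℂ)
  rwa [coclosedCompact_eq_cocompact] at h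

lemma continuous_psi (a : ℂ) : Continuous (psi a) := by
  rw [continuous_iff_continuousAt]
  intro z
  by_cases hz : z = 0
  · subst hz
    rw [ContinuousAt, psi_zero, ← nhdsNE_sup_pure, tendsto_sup]
    constructor
    · have h1 : Tendsto (fun w : ℂ => a + w⁻¹) (𝓝[≠] 0) (cocompact ℂ) := by
        rw [← Metric.cobounded_eq_cocompact]
        exact (tendsto_const_add_cobounded a).comp tendsto_inv₀_nhdsNE_zero
      refine (tendsto_coe_infty'.comp h1).congr' ?_
      filter_upwards [self_mem_nhdsWithin] with w hw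
      rw [psi_of_ne a hw]
      rfl
    · rw [tendsto_pure_left]
      intro s hs
      rw [psi_zero]
      exact mem_of_mem_nhds hs
  · have h1 : ContinuousAt (fun w : ℂ => ((a + w⁻¹ : ℂ) : OnePoint ℂ)) z :=
      OnePoint.continuous_coe.continuousAt.comp (by fun_prop (disch := exact hz))
    refine h1.congr ?_
    filter_upwards [isOpen_ne.mem_nhds hz] with w hw
    rw [psi_of_ne a hw]

lemma continuousAt_sig (a : ℂ) (p : OnePoint ℂ) (hp : p ≠ (a : OnePoint ℂ)) :
    ContinuousAt (sig a) p := by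
  match p with
  | OnePoint.infty =>
    rw [OnePoint.continuousAt_infty']
    rw [coclosedCompact_eq_cocompact, ← Metric.cobounded_eq_cocompact]
    show Tendsto (fun z : ℂ => (z - a)⁻¹) (Bornology.cobounded ℂ) (𝓝 0)
    exact tendsto_inv₀_cobounded.comp (tendsto_sub_const_cobounded a)
  | OnePoint.some z =>
    rw [OnePoint.continuousAt_coe]
    have hz : z - a ≠ 0 := by
      intro h
      exact hp (congrArg _ (sub_eq_zero.mp h))
    show ContinuousAt (fun z : ℂ => (z - a)⁻¹) z
    exact (by fun_prop : ContinuousAt (fun z : ℂ => z - a) z).inv₀ hz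

/-- the sphere minus a finite point -/
noncomputable def chartFin (a : ℂ) : Chart (a : OnePoint ℂ) where
  ψ := psi a
  σ := sig a
  emb := by
    refine IsOpenEmbedding.of_continuous_injective_isOpenMap (continuous_psi a) ?_ ?_
    · intro z w h
      rw [← sig_psi a z, h, sig_psi]
    · intro U hU
      have h1 : psi a '' U = {(a : OnePoint ℂ)}ᶜ ∩ sig a ⁻¹' U := by
        ext p
        constructor
        · rintro ⟨z, hz, rfl⟩
          exact ⟨psi_ne a z, by rwa [mem_preimage, sig_psi]⟩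
        · rintro ⟨h1, h2⟩
          exact ⟨sig a p, h2, psi_sig a p h1⟩
      rw [h1]
      refine ContinuousOn.isOpen_inter_preimage (fun p hp => ?_) isOpen_compl_singleton hU
      exact (continuousAt_sig a p hp).continuousWithinAt
  right := psi_sig a
  ne := psi_ne a
  left := sig_psi a
  an := psi_an a
  harm := psi_harm a

lemma exists_chart (a : OnePoint ℂ) : Nonempty (Chart a) := by
  match a with
  | OnePoint.infty => exact ⟨chartInf⟩
  | OnePoint.some z => exact ⟨chartFin z⟩

end Pool.Agent.W5h46.SC.Sph
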