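import Mathlib

/-!
# Pairs `(D, K)` on the Riemann sphere and intermediate Hilbert spaces: definitions

The Riemann sphere is `OnePoint ℂ`.
-/

set_option autoImplicit false

open Set Metric Filter Topology InnerProductSpace

namespace Pool.Agent.W5h46.SC.Sph

/-- the local coordinate at infinity: `atInf w` is the point `1 / w` of the sphere -/
noncomputable def atInf (w : ℂ) : OnePoint ℂ :=
  if w = 0 then OnePoint.infty else ((w⁻¹ : ℂ) : OnePoint ℂ)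

/-- the function `f` on the sphere is analytic at a point: at infinity this means that
`w ↦ f (1 / w)` is analytic at `0` -/
def AnAt (f : OnePoint ℂ → ℂ) : OnePoint ℂ → Prop
  | OnePoint.infty => AnalyticAt ℂ (fun w : ℂ => f (atInf w)) 0
  | OnePoint.some z => AnalyticAt ℂ (fun w : ℂ => f w) z

/-- the function `u` on the sphere is harmonic at a point (that is, in a neighbourhood of it): at
infinity this means that `w ↦ u (1 / w)` is harmonic at `0` -/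
def HarmAt (u : OnePoint ℂ → ℝ) : OnePoint ℂ → Prop
  | OnePoint.infty => HarmonicAt (fun w : ℂ => u (atInf w)) 0
  | OnePoint.some z => HarmonicAt (fun w : ℂ => u w) z

/-- `𝒪(E)`: the functions analytic in a neighbourhood of `E`; two of them are the same germ
when they agree near `E`. -/
def germs (E : Set (OnePoint ℂ)) : Submodule ℂ (OnePoint ℂ → ℂ) where
  carrier := {f | ∀ p ∈ E, AnAt f p}
  add_mem' := by
    intro f g hf hg p hp
    match p, hf p hp, hg p hp with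
    | OnePoint.infty, h1, h2 => exact AnalyticAt.add h1 h2
    | OnePoint.some z, h1, h2 => exact AnalyticAt.add h1 h2
  zero_mem' := by
    intro p _
    match p with
    | OnePoint.infty => exact analyticAt_const
    | OnePoint.some z => exact analyticAt_const
  smul_mem' := by
    intro c f hf p hp
    match p, hf p hp with
    | OnePoint.infty, h1 => exact analyticAt_const.smul h1
    | OnePoint.some z, h1 => exact analyticAt_const.smul h1

/-- an admissible pair `(D, K)` on the sphere, together with the harmonic measure `ω` of `∂D`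
in `D \ K` (extended by `0` to `K`) -/
structure Admissible (D K : Set (OnePoint ℂ)) (ω : OnePoint ℂ → ℝ) : Prop where
  isOpen : IsOpen D
  connected : IsConnected D
  compact : IsCompact K
  nonempty : K.Nonempty
  subset : K ⊆ D
  hull : ∀ t ∈ D, (∀ f ∈ germs D, ∃ w ∈ K, ‖f t‖ ≤ ‖f w‖) → t ∈ K
  conn_diff : IsConnected (D \ K)
  harm : ∀ p ∈ D \ K, HarmAt ω p
  cont : ContinuousOn ω D
  zero : ∀ p ∈ K, ω p = 0
  one : ∀ ε : ℝ, 0 < ε → ∃ L ⊆ D, IsCompact L ∧ ∀ p ∈ D \ L, |ω p - 1| < ε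

/-- the sublevel sets `D_α` of the harmonic measure -/
def Dlt (D K : Set (OnePoint ℂ)) (ω : OnePoint ℂ → ℝ) (α : ℝ) : Set (OnePoint ℂ) :=
  K ∪ {p ∈ D \ K | ω p < α}

/-- condition (4) on a Hilbert space `H₁`, which is given by a Hilbert space `E₁` and a linear map
`e` realising its elements as functions: `H^∞(D) ⊂ H₁ ⊂ 𝒪(D)` with continuous inclusions -/
structure IsH1 {E₁ : Type} [NormedAddCommGroup E₁] [InnerProductSpace ℂ E₁]
    (D : Set (OnePoint ℂ)) (e : E₁ →ₗ[ℂ] (OnePoint ℂ → ℂ)) : Prop where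
  diff : ∀ x, e x ∈ germs D
  inj : ∀ x, (∀ p ∈ D, e x p = 0) → x = 0
  cont : ∀ L ⊆ D, IsCompact L → ∃ C : ℝ, ∀ x, ∀ p ∈ L, ‖e x p‖ ≤ C * ‖x‖
  bdd : ∃ C : ℝ, ∀ (f : OnePoint ℂ → ℂ) (M : ℝ), f ∈ germs D → (∀ p ∈ D, ‖f p‖ ≤ M) →
    ∃ x, (∀ p ∈ D, e x p = f p) ∧ ‖x‖ ≤ C * M

/-- condition (2) on `H₀`, given by a Hilbert space `E₀` and a linear map `ι : 𝒪(K) → E₀`: the
map is injective on germs and continuous on `𝒪(V)` for each open `V ⊇ K` -/
structure IsH0 {E₀ : Type} [NormedAddCommGroup E₀] [InnerProductSpace ℂ E₀]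
    (K : Set (OnePoint ℂ)) (ι : germs K →ₗ[ℂ] E₀) : Prop where
  inj : ∀ f : germs K, ι f = 0 ↔ ∀ᶠ p in 𝓝ˢ K, (f : OnePoint ℂ → ℂ) p = 0
  cont : ∀ V : Set (OnePoint ℂ), IsOpen V → K ⊆ V → ∃ L ⊆ V, IsCompact L ∧ ∃ C : ℝ,
    ∀ (f : germs K) (M : ℝ), (f : OnePoint ℂ → ℂ) ∈ germs V →
      (∀ p ∈ L, ‖(f : OnePoint ℂ → ℂ) p‖ ≤ M) → ‖ι f‖ ≤ C * M

/-- for a dense continuous injection `j : H₁ → H₀` let `A` be the positive self-adjoint operator
in `H₀` with domain `H₁` and `‖A x‖ = ‖x‖₁`; then `A ^ (-2) = j j*`, and `A ^ (-α)` is the power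
`(j j*) ^ (α / 2)`. The space `H^α` is the range of `A ^ (-α)`, and its norm is
`‖A ^ (-α) y‖_α = ‖y‖`. -/
noncomputable def scalePow {E₁ E₀ : Type} [NormedAddCommGroup E₁] [InnerProductSpace ℂ E₁]
    [CompleteSpace E₁] [NormedAddCommGroup E₀] [InnerProductSpace ℂ E₀] [CompleteSpace E₀]
    (j : E₁ →L[ℂ] E₀) (α : ℝ) : E₀ →L[ℂ] E₀ :=
  cfc (fun t : ℝ => t ^ (α / 2)) (j ∘L ContinuousLinearMap.adjoint j)

/-- condition (3) for one `α`: `𝒪(closure D_α) ⊂ H^α` and `H^α ⊂ 𝒪(D_α)`, continuously -/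
structure IsScale {E₁ E₀ : Type} [NormedAddCommGroup E₁] [InnerProductSpace ℂ E₁]
    [CompleteSpace E₁] [NormedAddCommGroup E₀] [InnerProductSpace ℂ E₀] [CompleteSpace E₀]
    (D K : Set (OnePoint ℂ)) (ω : OnePoint ℂ → ℝ) (ι : germs K →ₗ[ℂ] E₀) (j : E₁ →L[ℂ] E₀)
    (α : ℝ) : Prop where
  lower : ∀ V : Set (OnePoint ℂ), IsOpen V → closure (Dlt D K ω α) ⊆ V →
    ∃ L ⊆ V, IsCompact L ∧ ∃ C : ℝ, ∀ (f : germs K) (M : ℝ), (f : OnePoint ℂ → ℂ) ∈ germs V →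
      (∀ p ∈ L, ‖(f : OnePoint ℂ → ℂ) p‖ ≤ M) →
        ∃ y : E₀, ι f = scalePow j α y ∧ ‖y‖ ≤ C * M
  upper : ∃ F : E₀ → germs K,
    (∀ y, (F y : OnePoint ℂ → ℂ) ∈ germs (Dlt D K ω α) ∧ ι (F y) = scalePow j α y) ∧
    ∀ L ⊆ Dlt D K ω α, IsCompact L → ∃ C : ℝ, ∀ y, ∀ p ∈ L,
      ‖(F y : OnePoint ℂ → ℂ) p‖ ≤ C * ‖y‖

/-- property (S): every Hilbert space `H₁` with (4) has a Hilbert space `H₀` with (2) such that
`H₁` is dense in `H₀` and the Hilbert scale of the two satisfies (3) -/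
def PropertyS (D K : Set (OnePoint ℂ)) (ω : OnePoint ℂ → ℝ) : Prop :=
  ∀ (E₁ : Type) [NormedAddCommGroup E₁] [InnerProductSpace ℂ E₁] [CompleteSpace E₁]
    (e : E₁ →ₗ[ℂ] (OnePoint ℂ → ℂ)), IsH1 D e →
    ∃ (E₀ : Type) (_ : NormedAddCommGroup E₀) (_ : InnerProductSpace ℂ E₀) (_ : CompleteSpace E₀)
      (ι : germs K →ₗ[ℂ] E₀) (j : E₁ →L[ℂ] E₀),
      IsH0 K ι ∧ (∀ (x : E₁) (hx : e x ∈ germs K), j x = ι ⟨e x, hx⟩) ∧ DenseRange j ∧
      ∀ α : ℝ, 0 < α → α < 1 → IsScale D K ω ι j α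

/-- the interpolation hull of order `θ` of `K` relative to the bounded analytic functions: the
points `z` of `D` with `|f(z)| ≤ ‖f‖_K ^ (1-θ) ‖f‖_D ^ θ` for all `f ∈ H^∞(D)` -/
def Hull (D K : Set (OnePoint ℂ)) (θ : ℝ) : Set (OnePoint ℂ) :=
  {p ∈ D | ∀ (f : OnePoint ℂ → ℂ) (m M : ℝ), f ∈ germs D → (∀ q ∈ K, ‖f q‖ ≤ m) →
    (∀ q ∈ D, ‖f q‖ ≤ M) → ‖f p‖ ≤ m ^ (1 - θ) * M ^ θ}

end Pool.Agent.W5h46.SC.Sph
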