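import Pool.Agent.W5h46.SC.SChart
import Pool.Agent.W5h46.SC.Plane

/-!
# Transport of the notions from the sphere to the plane
-/

set_option autoImplicit false

open Set Metric Filter Topology InnerProductSpace

namespace Pool.Agent.W5h46.SC.Sph

lemma AnAt.continuousAt {f : OnePoint ℂ → ℂ} {p : OnePoint ℂ} (h : AnAt f p) :
    ContinuousAt f p := by
  have key : ∀ {a : OnePoint ℂ} (c : Chart a) (z : ℂ), AnAt f (c.ψ z) →
      ContinuousAt f (c.ψ z) := by
    intro a c z h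
    exact c.emb.continuousAt_iff.mp ((c.an f z).mp h).continuousAt
  match p with
  | OnePoint.infty =>
    have h1 : (chartFin 0).ψ 0 = OnePoint.infty := psi_zero 0
    have h2 := key (chartFin 0) 0
    rw [h1] at h2
    exact h2 h
  | OnePoint.some z => exact key chartInf z h

/-- Liouville's theorem on the sphere -/
lemma germs_univ_const {f : OnePoint ℂ → ℂ} (h : f ∈ germs univ) (p q : OnePoint ℂ) :
    f p = f q := by
  have hc : Continuous f := continuous_iff_continuousAt.mpr fun p => (h p trivial).continuousAt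
  have hd : Differentiable ℂ (fun z : ℂ => f z) := fun z =>
    (h (z : OnePoint ℂ) trivial : AnalyticAt ℂ (fun w : ℂ => f w) z).differentiableAt
  have hb : Bornology.IsBounded (range (fun z : ℂ => f z)) := by
    refine (isCompact_range hc).isBounded.subset ?_
    rintro _ ⟨z, rfl⟩
    exact ⟨_, rfl⟩
  have h1 : ∀ z : ℂ, f z = f (0 : ℂ) := fun z => hd.apply_eq_apply_of_bounded hb z 0
  have h2 : f = fun _ => f (0 : ℂ) := by
    refine OnePoint.denseRange_coe.equalizer hc continuous_const ?_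
    funext z
    exact h1 z
  rw [h2]

namespace Admissible

lemma exists_notMem {D K : Set (OnePoint ℂ)} {ω : OnePoint ℂ → ℝ} (hA : Admissible D K ω) :
    ∃ a, a ∉ D := by
  by_contra! hcon
  have hD : D = univ := eq_univ_of_forall hcon
  obtain ⟨t, ht⟩ := hA.conn_diff.nonempty
  refine ht.2 (hA.hull t ht.1 fun f hf => ?_)
  obtain ⟨w, hw⟩ := hA.nonempty
  rw [hD] at hf
  exact ⟨w, hw, (congrArg _ (germs_univ_const hf t w)).le⟩

end Admissible

variable {a : OnePoint ℂ} (c : Chart a)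

/-- functions on the sphere read in the chart -/
noncomputable def pull : (OnePoint ℂ → ℂ) →ₗ[ℂ] (ℂ → ℂ) := LinearMap.funLeft ℂ ℂ c.ψ

/-- functions in the chart as functions on the sphere -/
noncomputable def push : (ℂ → ℂ) →ₗ[ℂ] (OnePoint ℂ → ℂ) := LinearMap.funLeft ℂ ℂ c.σ

lemma pull_apply (f : OnePoint ℂ → ℂ) (z : ℂ) : pull c f z = f (c.ψ z) := rfl

lemma push_apply (g : ℂ → ℂ) (p : OnePoint ℂ) : push c g p = g (c.σ p) := rfl

lemma push_psi (g : ℂ → ℂ) (z : ℂ) : push c g (c.ψ z) = g z := by rw [push_apply, c.left]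

lemma pull_push (g : ℂ → ℂ) : pull c (push c g) = g := by
  funext z
  rw [pull_apply, push_psi]

lemma pull_sig (f : OnePoint ℂ → ℂ) {p : OnePoint ℂ} (hp : p ≠ a) : pull c f (c.σ p) = f p := by
  rw [pull_apply, c.right p hp]

lemma sig_mem {S : Set (OnePoint ℂ)} {p : OnePoint ℂ} (hp : p ∈ S) (ha : a ∉ S) :
    c.σ p ∈ c.ψ ⁻¹' S := by
  rw [mem_preimage, c.right p (ne_of_mem_of_not_mem hp ha)]
  exact hp

lemma image_preimage {S : Set (OnePoint ℂ)} (ha : a ∉ S) : c.ψ '' (c.ψ ⁻¹' S) = S := by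
  ext p
  constructor
  · rintro ⟨z, hz, rfl⟩
    exact hz
  · intro hp
    exact ⟨c.σ p, sig_mem c hp ha, c.right p (ne_of_mem_of_not_mem hp ha)⟩

lemma preimage_image (T : Set ℂ) : c.ψ ⁻¹' (c.ψ '' T) = T := c.emb.injective.preimage_image T

lemma notMem_image (T : Set ℂ) : a ∉ c.ψ '' T := by
  rintro ⟨z, _, hz⟩
  exact c.ne z hz

lemma pull_mem {S : Set (OnePoint ℂ)} {f : OnePoint ℂ → ℂ} (hf : f ∈ germs S) :
    pull c f ∈ SC.germs (c.ψ ⁻¹' S) := fun z hz => (c.an f z).mp (hf _ hz)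

lemma mem_of_pull {S : Set (OnePoint ℂ)} (ha : a ∉ S) {f : OnePoint ℂ → ℂ}
    (hf : pull c f ∈ SC.germs (c.ψ ⁻¹' S)) : f ∈ germs S := by
  intro p hp
  rw [← c.right p (ne_of_mem_of_not_mem hp ha)]
  exact (c.an f _).mpr (hf _ (sig_mem c hp ha))

lemma push_mem {S : Set (OnePoint ℂ)} (ha : a ∉ S) {g : ℂ → ℂ}
    (hg : g ∈ SC.germs (c.ψ ⁻¹' S)) : push c g ∈ germs S :=
  mem_of_pull c ha (by rwa [pull_push])

/-- the restriction of `pull` to germs -/
noncomputable def pullG (S : Set (OnePoint ℂ)) : germs S →ₗ[ℂ] SC.germs (c.ψ ⁻¹' S) :=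
  (pull c).restrict (fun _ hf => pull_mem c hf)

/-- the restriction of `push` to germs -/
noncomputable def pushG {S : Set (OnePoint ℂ)} (ha : a ∉ S) :
    SC.germs (c.ψ ⁻¹' S) →ₗ[ℂ] germs S :=
  (push c).restrict (fun _ hg => push_mem c ha hg)

lemma pullG_coe {S : Set (OnePoint ℂ)} (f : germs S) :
    (pullG c S f : ℂ → ℂ) = pull c (f : OnePoint ℂ → ℂ) := rfl

lemma pushG_coe {S : Set (OnePoint ℂ)} (ha : a ∉ S) (g : SC.germs (c.ψ ⁻¹' S)) :
    (pushG c ha g : OnePoint ℂ → ℂ) = push c (g : ℂ → ℂ) := rfl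

lemma pullG_pushG {S : Set (OnePoint ℂ)} (ha : a ∉ S) (g : SC.germs (c.ψ ⁻¹' S)) :
    pullG c S (pushG c ha g) = g := Subtype.ext (pull_push c _)

lemma isCompact_preimage {L : Set (OnePoint ℂ)} (hL : IsCompact L) (ha : a ∉ L) :
    IsCompact (c.ψ ⁻¹' L) := by
  refine c.emb.toIsEmbedding.isInducing.isCompact_preimage' hL ?_
  intro p hp
  exact ⟨c.σ p, c.right p (ne_of_mem_of_not_mem hp ha)⟩

lemma isCompact_image {L : Set ℂ} (hL : IsCompact L) : IsCompact (c.ψ '' L) :=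
  hL.image c.emb.continuous

lemma isOpen_preimage {V : Set (OnePoint ℂ)} (hV : IsOpen V) : IsOpen (c.ψ ⁻¹' V) :=
  hV.preimage c.emb.continuous

lemma isOpen_image {V : Set ℂ} (hV : IsOpen V) : IsOpen (c.ψ '' V) := c.emb.isOpenMap V hV

lemma closure_preimage (S : Set (OnePoint ℂ)) :
    c.ψ ⁻¹' (closure S) = closure (c.ψ ⁻¹' S) :=
  c.emb.isOpenMap.preimage_closure_eq_closure_preimage c.emb.continuous S

lemma isConnected_preimage {S : Set (OnePoint ℂ)} (hS : IsConnected S) (ha : a ∉ S) :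
    IsConnected (c.ψ ⁻¹' S) := by
  refine hS.preimage_of_isOpenMap c.emb.injective c.emb.isOpenMap ?_
  intro p hp
  exact ⟨c.σ p, c.right p (ne_of_mem_of_not_mem hp ha)⟩

lemma eventually_nhdsSet {K : Set (OnePoint ℂ)} (ha : a ∉ K) (P : OnePoint ℂ → Prop) :
    (∀ᶠ p in 𝓝ˢ K, P p) ↔ ∀ᶠ z in 𝓝ˢ (c.ψ ⁻¹' K), P (c.ψ z) := by
  rw [eventually_nhdsSet_iff_forall, eventually_nhdsSet_iff_forall]
  constructor
  · intro h z hz
    exact c.emb.continuous.continuousAt.eventually (h _ hz)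
  · intro h p hp
    have h1 := h _ (sig_mem c hp ha)
    rw [← c.right p (ne_of_mem_of_not_mem hp ha), ← c.emb.map_nhds_eq, eventually_map]
    exact h1

section Adm

variable {D K : Set (OnePoint ℂ)} {ω : OnePoint ℂ → ℝ}

lemma Admissible.plane (hA : Admissible D K ω) (ha : a ∉ D) :
    SC.Admissible (c.ψ ⁻¹' D) (c.ψ ⁻¹' K) (fun z => ω (c.ψ z)) where
  isOpen := isOpen_preimage c hA.isOpen
  connected := isConnected_preimage c hA.connected ha
  compact := isCompact_preimage c hA.compact (fun h => ha (hA.subset h))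
  nonempty := by
    obtain ⟨p, hp⟩ := hA.nonempty
    exact ⟨_, sig_mem c hp (fun h => ha (hA.subset h))⟩
  subset := preimage_mono hA.subset
  hull := by
    intro t ht h
    refine hA.hull _ ht fun f hf => ?_
    obtain ⟨w, hw, h1⟩ := h (pull c f) (fun z hz =>
      (pull_mem c hf z hz).differentiableAt.differentiableWithinAt)
    exact ⟨_, hw, h1⟩
  conn_diff := isConnected_preimage c hA.conn_diff (fun h => ha h.1)
  harm := fun z hz => c.harm ω z (hA.harm _ hz)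
  cont := hA.cont.comp c.emb.continuous.continuousOn (fun z hz => hz)
  zero := fun z hz => hA.zero _ hz
  one := by
    intro ε hε
    obtain ⟨L, hLD, hL, h⟩ := hA.one ε hε
    exact ⟨c.ψ ⁻¹' L, preimage_mono hLD, isCompact_preimage c hL (fun h => ha (hLD h)),
      fun z hz => h _ hz⟩

lemma dlt_plane (α : ℝ) :
    SC.Dlt (c.ψ ⁻¹' D) (c.ψ ⁻¹' K) (fun z => ω (c.ψ z)) α = c.ψ ⁻¹' (Dlt D K ω α) := rfl

lemma Admissible.closure_dlt_subset (hA : Admissible D K ω) {α : ℝ} (hα : α < 1) :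
    closure (Dlt D K ω α) ⊆ D := by
  obtain ⟨L, hLD, hL, h⟩ := hA.one (1 - α) (by linarith)
  have h1 : Dlt D K ω α ⊆ K ∪ L := by
    rintro p (hp | ⟨hp, hp1⟩)
    · exact Or.inl hp
    · right
      by_contra hpL
      have := abs_lt.mp (h p ⟨hp.1, hpL⟩)
      linarith [this.1]
  have h2 : IsClosed (K ∪ L) := (hA.compact.union hL).isClosed
  exact (closure_minimal h1 h2).trans (union_subset hA.subset hLD)

lemma isH1_push {E₁ : Type} [NormedAddCommGroup E₁] [InnerProductSpace ℂ E₁] (ha : a ∉ D)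
    {e : E₁ →ₗ[ℂ] (ℂ → ℂ)} (he : SC.IsH1 (c.ψ ⁻¹' D) e) (hD : IsOpen D) :
    IsH1 D (push c ∘ₗ e) where
  diff := fun x => push_mem c ha ((he.diff x).analyticOnNhd (isOpen_preimage c hD))
  inj := by
    intro x h
    refine he.inj x fun z hz => ?_
    have := h _ hz
    rwa [LinearMap.comp_apply, push_psi] at this
  cont := by
    intro L hLD hL
    obtain ⟨C, hC⟩ := he.cont (c.ψ ⁻¹' L) (preimage_mono hLD)
      (isCompact_preimage c hL (fun h => ha (hLD h)))
    exact ⟨C, fun x p hp => hC x _ (sig_mem c hp (fun h => ha (hLD h)))⟩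
  bdd := by
    obtain ⟨C, hC⟩ := he.bdd
    refine ⟨C, fun f M hf hM => ?_⟩
    obtain ⟨x, h1, h2⟩ := hC (pull c f) M (fun z hz =>
      (pull_mem c hf z hz).differentiableAt.differentiableWithinAt) (fun z hz => hM _ hz)
    refine ⟨x, fun p hp => ?_, h2⟩
    rw [LinearMap.comp_apply, push_apply, h1 _ (sig_mem c hp ha), pull_sig c f
      (ne_of_mem_of_not_mem hp ha)]

lemma isH1_pull {E₁ : Type} [NormedAddCommGroup E₁] [InnerProductSpace ℂ E₁] (ha : a ∉ D)
    {e : E₁ →ₗ[ℂ] (OnePoint ℂ → ℂ)} (he : IsH1 D e) (hD : IsOpen D) :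
    SC.IsH1 (c.ψ ⁻¹' D) (pull c ∘ₗ e) where
  diff := fun x z hz => (pull_mem c (he.diff x) z hz).differentiableAt.differentiableWithinAt
  inj := by
    intro x h
    refine he.inj x fun p hp => ?_
    have := h _ (sig_mem c hp ha)
    rwa [LinearMap.comp_apply, pull_sig c _ (ne_of_mem_of_not_mem hp ha)] at this
  cont := by
    intro L hLD hL
    obtain ⟨C, hC⟩ := he.cont (c.ψ '' L) (image_subset_iff.mpr hLD) (isCompact_image c hL)
    exact ⟨C, fun x z hz => hC x _ (mem_image_of_mem _ hz)⟩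
  bdd := by
    obtain ⟨C, hC⟩ := he.bdd
    refine ⟨C, fun f M hf hM => ?_⟩
    obtain ⟨x, h1, h2⟩ := hC (push c f) M
      (push_mem c ha (hf.analyticOnNhd (isOpen_preimage c hD)))
      (fun p hp => hM _ (sig_mem c hp ha))
    refine ⟨x, fun z hz => ?_, h2⟩
    rw [LinearMap.comp_apply, pull_apply, h1 _ hz, push_psi]

variable {E₀ : Type} [NormedAddCommGroup E₀] [InnerProductSpace ℂ E₀]

lemma isH0_push (ha : a ∉ K) {ι : germs K →ₗ[ℂ] E₀} (h : IsH0 K ι) :
    SC.IsH0 (c.ψ ⁻¹' K) (ι ∘ₗ pushG c ha) where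
  inj := by
    intro g
    rw [LinearMap.comp_apply, h.inj, eventually_nhdsSet c ha]
    refine eventually_congr (Eventually.of_forall fun z => ?_)
    rw [pushG_coe, push_psi]
  cont := by
    intro V hV hKV
    have hKV' : K ⊆ c.ψ '' V := by
      rw [← image_preimage c ha]
      exact image_mono hKV
    obtain ⟨L, hLV, hL, C, hC⟩ := h.cont (c.ψ '' V) (isOpen_image c hV) hKV'
    have haL : a ∉ L := fun h => notMem_image c V (hLV h)
    refine ⟨c.ψ ⁻¹' L, ?_, isCompact_preimage c hL haL, C, fun g M hg hM => ?_⟩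
    · rw [← preimage_image c V]
      exact preimage_mono hLV
    · refine hC (pushG c ha g) M ?_ (fun p hp => hM _ (sig_mem c hp haL))
      exact push_mem c (notMem_image c V) (by rwa [preimage_image])

lemma isH0_pull (ha : a ∉ K) {ι : SC.germs (c.ψ ⁻¹' K) →ₗ[ℂ] E₀}
    (h : SC.IsH0 (c.ψ ⁻¹' K) ι) : IsH0 K (ι ∘ₗ pullG c K) where
  inj := by
    intro f
    rw [LinearMap.comp_apply, h.inj, eventually_nhdsSet c ha]
    exact Iff.rfl
  cont := by
    intro V hV hKV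
    obtain ⟨L, hLV, hL, C, hC⟩ := h.cont (c.ψ ⁻¹' V) (isOpen_preimage c hV) (preimage_mono hKV)
    refine ⟨c.ψ '' L, image_subset_iff.mpr hLV, isCompact_image c hL, C, fun f M hf hM => ?_⟩
    exact hC (pullG c K f) M (pull_mem c hf) (fun z hz => hM _ (mem_image_of_mem _ hz))

lemma push_pull_germ (ha : a ∉ K) {ι : germs K →ₗ[ℂ] E₀} (h : IsH0 K ι) (f : germs K) :
    ι (pushG c ha (pullG c K f)) = ι f := by
  rw [← sub_eq_zero, ← map_sub, h.inj, eventually_nhdsSet c ha]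
  refine Eventually.of_forall fun z => ?_
  show push c (pull c (f : OnePoint ℂ → ℂ)) (c.ψ z) - (f : OnePoint ℂ → ℂ) (c.ψ z) = 0
  rw [push_psi, pull_apply, sub_self]

variable {E₁ : Type} [NormedAddCommGroup E₁] [InnerProductSpace ℂ E₁] [CompleteSpace E₁]
  [CompleteSpace E₀]

lemma isScale_push (hA : Admissible D K ω) (haD : a ∉ D) (ha : a ∉ K)
    {ι : germs K →ₗ[ℂ] E₀} (hι : IsH0 K ι) {j : E₁ →L[ℂ] E₀} {α : ℝ} (hα : α < 1)
    (h : IsScale D K ω ι j α) :
    SC.IsScale (c.ψ ⁻¹' D) (c.ψ ⁻¹' K) (fun z => ω (c.ψ z)) (ι ∘ₗ pushG c ha) j α where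
  lower := by
    intro V hV hcl
    rw [dlt_plane, ← closure_preimage] at hcl
    have hcl' : closure (Dlt D K ω α) ⊆ c.ψ '' V := by
      rw [← image_preimage c (fun h => haD (hA.closure_dlt_subset hα h))]
      exact image_mono hcl
    obtain ⟨L, hLV, hL, C, hC⟩ := h.lower (c.ψ '' V) (isOpen_image c hV) hcl'
    have haL : a ∉ L := fun h => notMem_image c V (hLV h)
    refine ⟨c.ψ ⁻¹' L, ?_, isCompact_preimage c hL haL, C, fun g M hg hM => ?_⟩
    · rw [← preimage_image c V]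
      exact preimage_mono hLV
    · refine hC (pushG c ha g) M ?_ (fun p hp => hM _ (sig_mem c hp haL))
      exact push_mem c (notMem_image c V) (by rwa [preimage_image])
  upper := by
    obtain ⟨F, hF1, hF2⟩ := h.upper
    refine ⟨fun y => pullG c K (F y), fun y => ⟨?_, ?_⟩, fun L hL hLc => ?_⟩
    · exact pull_mem c (hF1 y).1
    · rw [LinearMap.comp_apply, push_pull_germ c ha hι]
      exact (hF1 y).2
    · obtain ⟨C, hC⟩ := hF2 (c.ψ '' L) (image_subset_iff.mpr hL) (isCompact_image c hLc)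
      exact ⟨C, fun y z hz => hC y _ (mem_image_of_mem _ hz)⟩

lemma isScale_pull (ha : a ∉ K) (haD : a ∉ D)
    {ι : SC.germs (c.ψ ⁻¹' K) →ₗ[ℂ] E₀} {j : E₁ →L[ℂ] E₀} {α : ℝ}
    (h : SC.IsScale (c.ψ ⁻¹' D) (c.ψ ⁻¹' K) (fun z => ω (c.ψ z)) ι j α) :
    IsScale D K ω (ι ∘ₗ pullG c K) j α where
  lower := by
    intro V hV hcl
    obtain ⟨L, hLV, hL, C, hC⟩ := h.lower (c.ψ ⁻¹' V) (isOpen_preimage c hV) (by
      rw [dlt_plane, ← closure_preimage]
      exact preimage_mono hcl)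
    refine ⟨c.ψ '' L, image_subset_iff.mpr hLV, isCompact_image c hL, C, fun f M hf hM => ?_⟩
    exact hC (pullG c K f) M (pull_mem c hf) (fun z hz => hM _ (mem_image_of_mem _ hz))
  upper := by
    obtain ⟨F, hF1, hF2⟩ := h.upper
    have haα : a ∉ Dlt D K ω α := by
      rintro (h | ⟨h, _⟩)
      · exact ha h
      · exact haD h.1
    refine ⟨fun y => pushG c ha (F y), fun y => ⟨?_, ?_⟩, fun L hL hLc => ?_⟩
    · exact push_mem c haα (hF1 y).1
    · rw [LinearMap.comp_apply, pullG_pushG]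
      exact (hF1 y).2
    · have haL : a ∉ L := fun h => haα (hL h)
      obtain ⟨C, hC⟩ := hF2 (c.ψ ⁻¹' L) (preimage_mono hL) (isCompact_preimage c hLc haL)
      exact ⟨C, fun y p hp => hC y _ (sig_mem c hp haL)⟩

lemma propertyS_iff (hA : Admissible D K ω) (ha : a ∉ D) :
    PropertyS D K ω ↔ SC.PropertyS (c.ψ ⁻¹' D) (c.ψ ⁻¹' K) (fun z => ω (c.ψ z)) := by
  have haK : a ∉ K := fun h => ha (hA.subset h)
  constructor
  · intro h E₁ _ _ _ e he
    obtain ⟨E₀, i1, i2, i3, ι, j, h1, h2, h3, h4⟩ := h E₁ _ (isH1_push c ha he hA.isOpen)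
    refine ⟨E₀, i1, i2, i3, ι ∘ₗ pushG c haK, j, isH0_push c haK h1, fun x hx => ?_, h3,
      fun α h0 hα => isScale_push c hA ha haK h1 hα (h4 α h0 hα)⟩
    exact h2 x (push_mem c haK hx)
  · intro h E₁ _ _ _ e he
    obtain ⟨E₀, i1, i2, i3, ι, j, h1, h2, h3, h4⟩ := h E₁ _ (isH1_pull c ha he hA.isOpen)
    refine ⟨E₀, i1, i2, i3, ι ∘ₗ pullG c K, j, isH0_pull c haK h1, fun x hx => ?_, h3,
      fun α h0 hα => isScale_pull c haK ha (h4 α h0 hα)⟩
    exact h2 x (pull_mem c hx)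

lemma hull_plane (ha : a ∉ D) (hD : IsOpen D) {L : Set (OnePoint ℂ)} (hL : L ⊆ D) (θ : ℝ) :
    c.ψ ⁻¹' (Hull D L θ) = SC.Hull (c.ψ ⁻¹' D) (c.ψ ⁻¹' L) θ := by
  ext z
  constructor
  · rintro ⟨hz, h⟩
    refine ⟨hz, fun f m M hf hm hM => ?_⟩
    have h1 := h (push c f) m M (push_mem c ha (hf.analyticOnNhd (isOpen_preimage c hD)))
      (fun q hq => hm _ (sig_mem c hq (fun h => ha (hL h))))
      (fun q hq => hM _ (sig_mem c hq ha))
    rwa [push_psi] at h1
  · rintro ⟨hz, h⟩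
    refine ⟨hz, fun f m M hf hm hM => ?_⟩
    exact h (pull c f) m M (fun z hz =>
      (pull_mem c hf z hz).differentiableAt.differentiableWithinAt) (fun q hq => hm _ hq)
      (fun q hq => hM _ hq)

lemma isCompact_hull_iff (ha : a ∉ D) (hD : IsOpen D) {L : Set (OnePoint ℂ)} (hL : L ⊆ D)
    (θ : ℝ) : IsCompact (Hull D L θ) ↔ IsCompact (SC.Hull (c.ψ ⁻¹' D) (c.ψ ⁻¹' L) θ) := by
  have haH : a ∉ Hull D L θ := fun h => ha h.1
  rw [← hull_plane c ha hD hL]
  constructor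
  · exact fun h => isCompact_preimage c h haH
  · intro h
    rw [← image_preimage c haH]
    exact isCompact_image c h

/-- the classification of the pairs on the sphere -/
theorem Admissible.tfae (hA : Admissible D K ω) : List.TFAE [PropertyS D K ω,
    ∀ L ⊆ D, IsCompact L → ∀ θ : ℝ, 0 < θ → θ < 1 → IsCompact (Hull D L θ),
    ∀ θ : ℝ, 0 < θ → θ < 1 → IsCompact (Hull D K θ),
    ∀ θ : ℝ, 0 < θ → θ < 1 → Hull D K θ = {p ∈ D | ω p ≤ θ}] := by
  obtain ⟨a, ha⟩ := hA.exists_notMem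
  obtain ⟨c⟩ := exists_chart a
  have hT := (hA.plane c ha).tfae
  have haK : a ∉ K := fun h => ha (hA.subset h)
  have e1 := propertyS_iff c hA ha
  have e2 : (∀ L ⊆ D, IsCompact L → ∀ θ : ℝ, 0 < θ → θ < 1 → IsCompact (Hull D L θ)) ↔
      ∀ L ⊆ c.ψ ⁻¹' D, IsCompact L → ∀ θ : ℝ, 0 < θ → θ < 1 →
        IsCompact (SC.Hull (c.ψ ⁻¹' D) L θ) := by
    constructor
    · intro h L hL hLc θ h0 h1
      have hL' : c.ψ '' L ⊆ D := image_subset_iff.mpr hL
      have := (isCompact_hull_iff c ha hA.isOpen hL' θ).mp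
        (h _ hL' (isCompact_image c hLc) θ h0 h1)
      rwa [preimage_image] at this
    · intro h L hL hLc θ h0 h1
      exact (isCompact_hull_iff c ha hA.isOpen hL θ).mpr (h _ (preimage_mono hL)
        (isCompact_preimage c hLc (fun h => ha (hL h))) θ h0 h1)
  have e3 : (∀ θ : ℝ, 0 < θ → θ < 1 → IsCompact (Hull D K θ)) ↔
      ∀ θ : ℝ, 0 < θ → θ < 1 → IsCompact (SC.Hull (c.ψ ⁻¹' D) (c.ψ ⁻¹' K) θ) := by
    refine forall_congr' fun θ => forall_congr' fun h0 => forall_congr' fun h1 => ?_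
    exact isCompact_hull_iff c ha hA.isOpen hA.subset θ
  have e4 : (∀ θ : ℝ, 0 < θ → θ < 1 → Hull D K θ = {p ∈ D | ω p ≤ θ}) ↔
      ∀ θ : ℝ, 0 < θ → θ < 1 → SC.Hull (c.ψ ⁻¹' D) (c.ψ ⁻¹' K) θ =
        {z ∈ c.ψ ⁻¹' D | ω (c.ψ z) ≤ θ} := by
    refine forall_congr' fun θ => forall_congr' fun h0 => forall_congr' fun h1 => ?_
    rw [← hull_plane c ha hA.isOpen hA.subset]
    constructor
    · intro h
      rw [h]
      rfl
    · intro h
      have haH : a ∉ Hull D K θ := fun h => ha h.1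
      have haS : a ∉ {p ∈ D | ω p ≤ θ} := fun h => ha h.1
      rw [← image_preimage c haH, ← image_preimage c haS, h]
      rfl
  rw [e1, e2, e3, e4]
  exact hT

end Adm

end Pool.Agent.W5h46.SC.Sph
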